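import Mathlib

/-!
# MP_8d13b5_lc, module Ex, part A (merged from the item files)
-/

set_option autoImplicit false

section

/-!
# MP_8d13b5_lc, module Ex: definitions and statements

Effective lower bounds for `w` when `β ^ m * w` is close to the imaginary axis, for the Gaussian
integers `β = u - (u - 1) i`, `u ≥ 120`, and the order five recurrence
`u (n + 5) = 9 u (n + 4) - 10 u (n + 3) + 522 u (n + 2) - 4745 u (n + 1) + 4225 u n`.

Notation of the comments: `b = 2 u - 1`, `y = u ^ 2 + (u - 1) ^ 2`, `b ^ 2 + 1 = 2 y`, `N = n₁ + n₂`;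
the numerators and denominators of the Padé approximants of type `(n₁, n₂)` of `√(1 - 4 X)` are
`∑ pc n₁ n₂ k X ^ k` and `∑ qc n₁ n₂ k X ^ k`; `PP`, `QQ` are their values at `X = y / 2`
(that is, `4 X = 2 y = 1 + b ^ 2`), multiplied by `2 ^ n₁`.
-/


open Finset

namespace Pool.Agent.Work.MP_8d13b5_lc.Ex

/-- `4 ^ k * (a / 2 choose k)`, an integer (`HcFac`). -/
def hc (a : ℤ) (k : ℕ) : ℤ := (2 ^ k * ∏ i ∈ range k, (a - 2 * (i : ℤ))) / (k.factorial : ℤ)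

/-- Coefficients of the numerator. -/
def pc (n₁ n₂ k : ℕ) : ℤ := (-1) ^ k * hc (2 * n₂ + 1) k * ((n₁ + n₂ - k).choose n₂ : ℤ)

/-- Coefficients of the denominator. -/
def qc (n₁ n₂ k : ℕ) : ℤ := (-1) ^ k * hc (2 * n₁ - 1) k * ((n₁ + n₂ - k).choose n₁ : ℤ)

/-- Value of the numerator. -/
def PP (n₁ n₂ : ℕ) (y : ℤ) : ℤ := ∑ k ∈ range (n₁ + 1), pc n₁ n₂ k * 2 ^ (n₁ - k) * y ^ k

/-- Value of the denominator (`n₂ ≤ n₁`). -/
def QQ (n₁ n₂ : ℕ) (y : ℤ) : ℤ := ∑ k ∈ range (n₂ + 1), qc n₁ n₂ k * 2 ^ (n₁ - k) * y ^ k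

/-- The primes which divide `PP (10 s) s y` and `QQ (10 s) s y` for all `y`. -/
def prS (s : ℕ) : Finset ℕ := (range (2 * s + 1)).filter fun p =>
  p.Prime ∧ ∃ i ∈ (Icc 5 9 : Finset ℕ), 10 * s < (i + 1) * p ∧ (2 * i + 1) * p + 1 ≤ 20 * s

/-- The Gaussian integer `u - (u - 1) i`. -/
def bet (u : ℤ) : GaussianInt := ⟨u, 1 - u⟩

/-- Its norm. -/
def yy (u : ℤ) : ℕ := (u ^ 2 + (u - 1) ^ 2).natAbs

/-! ### A: the Padé approximants -/

/-- [A1] -/
def HcFac : Prop := ∀ (a : ℤ) (k : ℕ),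
  (k.factorial : ℤ) * hc a k = 2 ^ k * ∏ i ∈ range k, (a - 2 * (i : ℤ))

/-- [A2] -/
def Vand : Prop := ∀ (a b : ℤ) (k : ℕ),
  ∑ ij ∈ antidiagonal k, hc a ij.1 * hc b ij.2 = hc (a + b) k

/-- [A3] -/
def HcMisc : Prop :=
  (∀ (n k : ℕ), hc (2 * n) k = 4 ^ k * (n.choose k : ℤ)) ∧
  (∀ (a : ℤ) (k i : ℕ), i ≤ k → hc a k * (k.choose i : ℤ) = hc a i * hc (a - 2 * i) (k - i))

/-- [A4] -/
def Pade : Prop := ∀ n₁ n₂ k : ℕ, k ≤ n₁ + n₂ →
  ∑ ij ∈ antidiagonal k, qc n₁ n₂ ij.1 * ((-1) ^ ij.2 * hc 1 ij.2) = pc n₁ n₂ k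

/-- [A5] -/
def Cong : Prop := ∀ (n₁ n₂ y : ℕ) (b : ℤ), n₂ ≤ n₁ → Odd y → b ^ 2 + 1 = 2 * (y : ℤ) →
  ∃ j e : ZMod (y ^ (n₁ + n₂ + 1)), j ^ 2 = -1 ∧ j = -(b : ZMod (y ^ (n₁ + n₂ + 1))) + y * e ∧
    ((PP n₁ n₂ y : ℤ) : ZMod (y ^ (n₁ + n₂ + 1))) = b * j * (QQ n₁ n₂ y : ℤ)

/-! ### B: arithmetic and size -/

/-- [B1] -/
def NonV : Prop := ∀ (s : ℕ) (y b c M : ℤ), 1 ≤ s → Odd y → c ≠ 0 → |c| < 2 ^ (4 * s) →
  c * PP (10 * s) s y + b * M * QQ (10 * s) s y ≠ 0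

/-- [B2] -/
def Content : Prop := ∀ (s p : ℕ) (y : ℤ), p ∈ prS s →
  (p : ℤ) ∣ PP (10 * s) s y ∧ (p : ℤ) ∣ QQ (10 * s) s y

/-- [B3] -/
def PrimeProd : Prop := ∃ s₀ : ℕ, ∀ s : ℕ, s₀ ≤ s →
  Real.exp (0.45 * s) ≤ ∏ p ∈ prS s, (p : ℝ)

/-- [B4] -/
def SizeP : Prop := ∀ (s : ℕ) (y : ℤ), 1 ≤ s → 28561 ≤ y →
  |(PP (10 * s) s y : ℝ)| * ((10 * s).choose s : ℝ) ≤
    4 * ((s : ℝ) + 1) * (1.01 : ℝ) ^ s * (4 * (y : ℝ)) ^ (10 * s)

/-- [B5] -/
def SizeQ : Prop := ∀ (s : ℕ) (y : ℤ), 1 ≤ s → 28561 ≤ y →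
  |(QQ (10 * s) s y : ℝ)| ≤
    2 * (1.01 : ℝ) ^ (10 * s) * 2 ^ (11 * s) * (y : ℝ) ^ s * ((10 * s).choose s : ℝ)

/-- [B6] -/
def Binom : Prop := ∀ s : ℕ,
  (10 * s).choose s * 9 ^ (9 * s) ≤ 10 ^ (10 * s) ∧
  10 ^ (10 * s) ≤ (10 * s + 1) * ((10 * s).choose s * 9 ^ (9 * s))

/-! ### C: the main inequality -/

/-- [C1] -/
def CoreIneq : Prop := ∀ (s : ℕ) (u : ℤ) (z : GaussianInt), 1 ≤ s → 120 ≤ u →
  bet u ^ (11 * s + 1) ∣ z → z.re ≠ 0 → |z.re| < 2 ^ (4 * s) →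
  (∏ p ∈ prS s, p) * yy u ^ (11 * s) ≤
    (z.re * PP (10 * s) s (yy u) - (2 * u - 1) * z.im * QQ (10 * s) s (yy u)).natAbs

/-- [C2] -/
def Bound : Prop := ∃ C : ℕ, ∀ (s : ℕ) (u : ℤ) (z : GaussianInt), 1 ≤ s → 120 ≤ u →
  bet u ^ (11 * s + 1) ∣ z → z.re ≠ 0 → C * (1 + Real.log u + Real.log |(z.re : ℝ)|) ≤ s →
  ((yy u : ℝ) ^ 10 / 38000) ^ s ≤ |(z.im : ℝ)|

/-- [C3] The main theorem. -/
def Main : Prop := ∃ C : ℕ, ∀ (m : ℕ) (u : ℤ) (z : GaussianInt), 120 ≤ u →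
  bet u ^ m ∣ z → z.re ≠ 0 → C * (1 + Real.log u + Real.log |(z.re : ℝ)|) ≤ m →
  ((yy u : ℝ) ^ 10 / 40000) ^ m ≤ |(z.im : ℝ)| ^ 11

/-! ### D: consequences -/

/-- [D1] `ρ = 3 + 2 i` and its conjugate. -/
def RhoBound : Prop := ∃ C : ℕ, ∀ (n : ℕ) (w : GaussianInt),
  (((⟨3, 2⟩ : GaussianInt) ^ n * w).re ≠ 0 →
    C * (1 + Real.log |((((⟨3, 2⟩ : GaussianInt) ^ n * w).re : ℤ) : ℝ)|) ≤ n →
    (2.24 : ℝ) ^ (2 * n) ≤ ((Zsqrtd.norm w : ℤ) : ℝ)) ∧
  (((⟨3, -2⟩ : GaussianInt) ^ n * w).re ≠ 0 →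
    C * (1 + Real.log |((((⟨3, -2⟩ : GaussianInt) ^ n * w).re : ℤ) : ℝ)|) ≤ n →
    (2.24 : ℝ) ^ (2 * n) ≤ ((Zsqrtd.norm w : ℤ) : ℝ))

/-- The recurrence. -/
def Rec5 (u : ℕ → ℤ) : Prop := ∀ n, u (n + 5) =
  9 * u (n + 4) - 10 * u (n + 3) + 522 * u (n + 2) - 4745 * u (n + 1) + 4225 * u n

/-- The size of the initial values. -/
def sz (u : ℕ → ℤ) : ℕ := (u 0).natAbs + (u 1).natAbs + (u 2).natAbs + (u 3).natAbs + (u 4).natAbs

/-- The multiple `3700 c` of the coefficient `c` of the characteristic root `1`. -/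
def C0 (u : ℕ → ℤ) : ℤ := u 4 - 8 * u 3 + 2 * u 2 - 520 * u 1 + 4225 * u 0

/-- The part with the other roots, times `3700`. -/
def vv (u : ℕ → ℤ) (n : ℕ) : ℤ := 3700 * u n - C0 u

/-- `420 vv u n = 2 Re (XX u n)`; `XX u` has the characteristic roots `8 - i`, `-4 + 7 i`. -/
def XX (u : ℕ → ℤ) (n : ℕ) : GaussianInt :=
  ⟨210 * vv u n, vv u (n + 3) + 2 * vv u (n + 2) - 13 * vv u (n + 1) - 510 * vv u n⟩

/-- The recurrence of `XX u`. -/
def RecX (X : ℕ → GaussianInt) : Prop := ∀ n, X (n + 2) = ⟨4, 6⟩ * X (n + 1) + ⟨25, -60⟩ * X n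

/-- [D2] -/
def Decomp : Prop := ∀ u : ℕ → ℤ, Rec5 u →
  RecX (XX u) ∧ (XX u 0).norm + (XX u 1).norm ≤ 10 ^ 14 * (sz u : ℤ) ^ 2 ∧
    |C0 u| ≤ 4225 * (sz u : ℤ) ∧ ((∀ k, XX u k = 0) → ∀ n, 3700 * u n = C0 u) ∧
    (sz u = 0 → u = 0)

/-- [D3] -/
def XFacts : Prop := ∀ X : ℕ → GaussianInt, RecX X →
  (∀ n, (⟨3, -2⟩ : GaussianInt) ^ n ∣ X (n + 1)) ∧
  (∀ n, (X n).norm ≤ 100 * ((X 0).norm + (X 1).norm) * 65 ^ n) ∧
  ∀ n, X n = 0 → 5 ^ n ≤ 1000 * ((X 0).norm + (X 1).norm) ∨ ∀ k, X k = 0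

/-- [D4] All zeros of all solutions. -/
def Zeros : Prop := ∃ C : ℕ, ∀ u : ℕ → ℤ, Rec5 u → u ≠ 0 → ∀ n, u n = 0 →
  (n : ℝ) ≤ C * (1 + Real.log (sz u))

end Pool.Agent.Work.MP_8d13b5_lc.Ex

end

section

/-!
# Item HcFac: the numbers `hc a k` are defined by an exact division
-/

open Finset

namespace Pool.Agent.Work.MP_8d13b5_lc.Ex

namespace HcFacX

theorem neg_one (k : ℕ) : (2 : ℤ) ^ k * ∏ i ∈ range k, ((-1 : ℤ) - 2 * (i : ℤ)) =
    (k.factorial : ℤ) * ((-1) ^ k * (k.centralBinom : ℤ)) := by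
  induction k with
  | zero => simp
  | succ k ih =>
    have h := Nat.succ_mul_centralBinom_succ k
    have h' : ((k : ℤ) + 1) * ((k + 1).centralBinom : ℤ) =
        2 * (2 * (k : ℤ) + 1) * (k.centralBinom : ℤ) := by exact_mod_cast h
    rw [prod_range_succ, Nat.factorial_succ]
    push_cast
    linear_combination (2 * ((-1 : ℤ) - 2 * (k : ℤ))) * ih +
      ((k.factorial : ℤ) * (-1) ^ k) * h'

theorem zero (k : ℕ) : (k.factorial : ℤ) ∣ 2 ^ k * ∏ i ∈ range k, ((0 : ℤ) - 2 * (i : ℤ)) := by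
  cases k with
  | zero => simp
  | succ k =>
    rw [prod_range_succ']
    simp

theorem shift (a : ℤ) (k : ℕ) :
    (2 : ℤ) ^ (k + 1) * ∏ i ∈ range (k + 1), ((a + 2) - 2 * (i : ℤ)) =
      2 ^ (k + 1) * ∏ i ∈ range (k + 1), (a - 2 * (i : ℤ)) +
        ((k + 1 : ℕ) : ℤ) * (2 ^ k * ∏ i ∈ range k, (a - 2 * (i : ℤ))) * 4 := by
  rw [prod_range_succ', prod_range_succ]
  have : ∏ i ∈ range k, ((a + 2) - 2 * ((i + 1 : ℕ) : ℤ)) = ∏ i ∈ range k, (a - 2 * (i : ℤ)) :=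
    prod_congr rfl fun i _ => by push_cast; ring
  rw [this]
  push_cast
  ring

theorem step (k : ℕ) (hk : ∀ a : ℤ, (k.factorial : ℤ) ∣ 2 ^ k * ∏ i ∈ range k, (a - 2 * (i : ℤ)))
    (a : ℤ) :
    (((k + 1).factorial : ℤ) ∣ 2 ^ (k + 1) * ∏ i ∈ range (k + 1), ((a + 2) - 2 * (i : ℤ))) ↔
      (((k + 1).factorial : ℤ) ∣ 2 ^ (k + 1) * ∏ i ∈ range (k + 1), (a - 2 * (i : ℤ))) := by
  rw [shift]
  refine (dvd_add_left (Dvd.dvd.mul_right ?_ 4))
  rw [Nat.factorial_succ]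
  push_cast
  exact mul_dvd_mul_left _ (hk a)

theorem dvd (k : ℕ) : ∀ a : ℤ, (k.factorial : ℤ) ∣ 2 ^ k * ∏ i ∈ range k, (a - 2 * (i : ℤ)) := by
  induction k with
  | zero => intro a; simp
  | succ k ih =>
    intro a
    have key : ∀ (c : ℤ),
        (((k + 1).factorial : ℤ) ∣ 2 ^ (k + 1) * ∏ i ∈ range (k + 1), (c - 2 * (i : ℤ))) →
        ∀ m : ℤ, (((k + 1).factorial : ℤ) ∣
          2 ^ (k + 1) * ∏ i ∈ range (k + 1), ((c + 2 * m) - 2 * (i : ℤ))) := by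
      intro c hc m
      induction m using Int.induction_on with
      | zero => simpa using hc
      | succ m hm =>
        have := (step k ih (c + 2 * (m : ℤ))).2 hm
        rwa [show c + 2 * ((m : ℤ) + 1) = c + 2 * (m : ℤ) + 2 by ring]
      | pred m hm =>
        refine (step k ih (c + 2 * (-(m : ℤ) - 1))).1 ?_
        rwa [show c + 2 * (-(m : ℤ) - 1) + 2 = c + 2 * -(m : ℤ) by ring]
    rcases Int.even_or_odd' a with ⟨m, hm | hm⟩
    · rw [hm, show (2 * m : ℤ) = 0 + 2 * m by ring]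
      exact key 0 (zero (k + 1)) m
    · rw [hm, show (2 * m + 1 : ℤ) = -1 + 2 * (m + 1) by ring]
      refine key (-1) ?_ (m + 1)
      rw [neg_one]
      exact Dvd.intro _ rfl

end HcFacX

theorem prfHcFac : HcFac := fun a k => Int.mul_ediv_cancel' (HcFacX.dvd k a)

end Pool.Agent.Work.MP_8d13b5_lc.Ex

end

section

/-! Item Vand: the Vandermonde identity for `hc`. -/


open Finset

namespace Pool.Agent.Work.MP_8d13b5_lc.Ex

namespace VandX

theorem smev (x : ℚ) (k : ℕ) :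
    (descPochhammer ℤ k).smeval x = ∏ i ∈ range k, (x - (i : ℚ)) := by
  induction k with
  | zero => simp
  | succ k ih =>
    rw [descPochhammer_succ_right, Polynomial.smeval_mul, ih, Finset.prod_range_succ,
      Polynomial.smeval_sub, Polynomial.smeval_X, Polynomial.smeval_natCast, pow_one, pow_zero]
    simp

theorem prod_two (a : ℤ) (k : ℕ) : (2 : ℚ) ^ k * ∏ i ∈ range k, ((a : ℚ) - 2 * (i : ℚ)) =
    4 ^ k * ∏ i ∈ range k, ((a : ℚ) / 2 - (i : ℚ)) := by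
  have h1 : ∀ i ∈ range k, ((a : ℚ) - 2 * (i : ℚ)) = 2 * ((a : ℚ) / 2 - (i : ℚ)) := by
    intro i _
    ring
  rw [Finset.prod_congr rfl h1, Finset.prod_mul_distrib, Finset.prod_const, Finset.card_range,
    ← mul_assoc, ← mul_pow]
  norm_num

theorem cast_hc (hFac : HcFac) (a : ℤ) (k : ℕ) :
    ((hc a k : ℤ) : ℚ) = 4 ^ k * Ring.choose ((a : ℚ) / 2) k := by
  have h1 := hFac a k
  have h2 : (k.factorial : ℚ) * ((hc a k : ℤ) : ℚ) =
      2 ^ k * ∏ i ∈ range k, ((a : ℚ) - 2 * (i : ℚ)) := by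
    have h3 := congrArg (fun t : ℤ => (t : ℚ)) h1
    push_cast at h3
    exact h3
  have hk : (k.factorial : ℚ) ≠ 0 := by exact_mod_cast k.factorial_ne_zero
  rw [Ring.choose_eq_smul, smev, smul_eq_mul]
  rw [prod_two] at h2
  have h4 : ((hc a k : ℤ) : ℚ) = (k.factorial : ℚ)⁻¹ *
      ((k.factorial : ℚ) * ((hc a k : ℤ) : ℚ)) := by
    rw [inv_mul_cancel_left₀ hk]
  rw [h4, h2]
  ring

end VandX

theorem prfVand (hFac : HcFac) : Vand := by
  intro a b k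
  have h : ((∑ ij ∈ antidiagonal k, hc a ij.1 * hc b ij.2 : ℤ) : ℚ) = ((hc (a + b) k : ℤ) : ℚ) := by
    push_cast
    rw [VandX.cast_hc hFac (a + b) k]
    have e : (((a + b : ℤ) : ℚ)) / 2 = (a : ℚ) / 2 + (b : ℚ) / 2 := by
      push_cast
      ring
    rw [e, Ring.add_choose_eq k (Commute.all _ _), Finset.mul_sum]
    refine Finset.sum_congr rfl fun ij hij => ?_
    rw [VandX.cast_hc hFac a, VandX.cast_hc hFac b, ← HasAntidiagonal.mem_antidiagonal.1 hij, pow_add]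
    ring
  exact_mod_cast h

end Pool.Agent.Work.MP_8d13b5_lc.Ex

end

section

/-! [A3] -/


open Finset

namespace Pool.Agent.Work.MP_8d13b5_lc.Ex

namespace HcMiscX

theorem prod_eq (n k : ℕ) : ∏ i ∈ range k, ((n : ℤ) - (i : ℤ)) = (n.descFactorial k : ℤ) := by
  induction k with
  | zero => simp
  | succ k ih =>
    rw [prod_range_succ, ih, Nat.descFactorial_succ]
    rcases le_or_gt k n with h | h
    · rw [Nat.cast_mul, Nat.cast_sub h]
      ring
    · rw [Nat.descFactorial_of_lt h]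
      simp

end HcMiscX

open HcMiscX in
theorem prfHcMisc (hFac : HcFac) : HcMisc := by
  constructor
  · intro n k
    have hk : (k.factorial : ℤ) ≠ 0 := by exact_mod_cast k.factorial_ne_zero
    apply mul_left_cancel₀ hk
    rw [hFac]
    have h1 : ∏ i ∈ range k, (2 * (n : ℤ) - 2 * (i : ℤ)) = 2 ^ k * (n.descFactorial k : ℤ) := by
      rw [← prod_eq]
      have h2 : ∏ i ∈ range k, (2 * (n : ℤ) - 2 * (i : ℤ)) =
          ∏ i ∈ range k, (2 * ((n : ℤ) - (i : ℤ))) :=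
        prod_congr rfl fun i _ => by ring
      rw [h2, prod_mul_distrib, prod_const, card_range]
    rw [h1, Nat.descFactorial_eq_factorial_mul_choose, Nat.cast_mul]
    have h3 : (4 : ℤ) ^ k = 2 ^ k * 2 ^ k := by
      rw [← mul_pow]
      norm_num
    rw [h3]
    ring
  · intro a k i hik
    obtain ⟨m, rfl⟩ := Nat.exists_eq_add_of_le hik
    rw [Nat.add_sub_cancel_left]
    have hi : (i.factorial : ℤ) ≠ 0 := by exact_mod_cast i.factorial_ne_zero
    have hm : (m.factorial : ℤ) ≠ 0 := by exact_mod_cast m.factorial_ne_zero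
    apply mul_left_cancel₀ (mul_ne_zero hi hm)
    have h1 : ((i + m).choose i : ℤ) * (i.factorial : ℤ) * (m.factorial : ℤ) =
        ((i + m).factorial : ℤ) := by
      have := Nat.choose_mul_factorial_mul_factorial (Nat.le_add_right i m)
      rw [Nat.add_sub_cancel_left] at this
      exact_mod_cast this
    have h2 := hFac a (i + m)
    have h3 := hFac a i
    have h4 := hFac (a - 2 * i) m
    have h5 : ∏ l ∈ range (i + m), (a - 2 * (l : ℤ)) =
        (∏ l ∈ range i, (a - 2 * (l : ℤ))) * ∏ l ∈ range m, (a - 2 * i - 2 * (l : ℤ)) := by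
      rw [prod_range_add]
      congr 1
      refine prod_congr rfl fun l _ => ?_
      push_cast
      ring
    calc (i.factorial : ℤ) * (m.factorial : ℤ) * (hc a (i + m) * ((i + m).choose i : ℤ))
        = (((i + m).choose i : ℤ) * (i.factorial : ℤ) * (m.factorial : ℤ)) * hc a (i + m) := by
          ring
      _ = ((i.factorial : ℤ) * hc a i) * ((m.factorial : ℤ) * hc (a - 2 * i) m) := by
          rw [h1, h2, h3, h4, h5, pow_add]
          ring
      _ = (i.factorial : ℤ) * (m.factorial : ℤ) * (hc a i * hc (a - 2 * i) m) := by ring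

end Pool.Agent.Work.MP_8d13b5_lc.Ex

end

section

/-! MP_8d13b5_lc, module Ex, item Pade: the Padé identity for the coefficients. -/


open Finset

namespace Pool.Agent.Work.MP_8d13b5_lc.Ex

namespace PadeX

theorem inner (hV : Vand) (hM : HcMisc) (A : ℤ) (i k : ℕ) :
    ∑ ij ∈ antidiagonal k, hc A ij.1 * (hc 1 ij.2 * (ij.2.choose i : ℤ)) =
      if i ≤ k then hc 1 i * hc (A + (1 - 2 * (i : ℤ))) (k - i) else 0 := by
  rw [Finset.Nat.sum_antidiagonal_eq_sum_range_succ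
    (fun a b => hc A a * (hc 1 b * (b.choose i : ℤ))) k]
  split_ifs with hik
  · obtain ⟨t, rfl⟩ := Nat.exists_eq_add_of_le hik
    have h1 : ∑ j ∈ range (t + 1), hc A j * (hc 1 (i + t - j) * ((i + t - j).choose i : ℤ)) =
        ∑ j ∈ range (i + t).succ, hc A j * (hc 1 (i + t - j) * ((i + t - j).choose i : ℤ)) := by
      apply Finset.sum_subset
      · intro j hj
        rw [Finset.mem_range] at hj ⊢
        omega
      · intro j hj' hj
        rw [Finset.mem_range] at hj hj'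
        rw [Nat.choose_eq_zero_of_lt (by omega : i + t - j < i)]
        simp
    rw [← h1, ← hV A (1 - 2 * (i : ℤ)) (i + t - i),
      Finset.Nat.sum_antidiagonal_eq_sum_range_succ
        (fun a b => hc A a * hc (1 - 2 * (i : ℤ)) b) (i + t - i), Finset.mul_sum]
    have h2 : i + t - i = t := by omega
    rw [h2]
    refine Finset.sum_congr rfl fun j hj => ?_
    rw [Finset.mem_range] at hj
    rw [hM.2 1 (i + t - j) i (by omega)]
    have h3 : i + t - j - i = t - j := by omega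
    rw [h3]
    ring
  · apply Finset.sum_eq_zero
    intro j hj
    rw [Nat.choose_eq_zero_of_lt (by omega : k - j < i)]
    simp

theorem choose_id (n₁ n₂ k i : ℕ) (hi : i ≤ k) (hk : k ≤ n₁) :
    (n₁ + n₂ - k).choose (n₁ - i) * (n₁ - i).choose (k - i) =
      (n₁ + n₂ - k).choose n₂ * n₂.choose (k - i) := by
  by_cases h : k - i ≤ n₂
  · rw [Nat.choose_mul (by omega : k - i ≤ n₁ - i), Nat.choose_mul h]
    congr 1
    have h1 : n₁ + n₂ - k - (k - i) = (n₁ - i - (k - i)) + (n₂ - (k - i)) := by omega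
    rw [h1]
    exact Nat.choose_symm_add
  · rw [Nat.choose_eq_zero_of_lt (by omega : n₂ < k - i),
      Nat.choose_eq_zero_of_lt (by omega : n₁ + n₂ - k < n₁ - i)]
    simp

end PadeX

theorem prfPade (hV : Vand) (hM : HcMisc) : Pade := by
  intro n₁ n₂ k hk
  have h1 : ∑ ij ∈ antidiagonal k, qc n₁ n₂ ij.1 * ((-1) ^ ij.2 * hc 1 ij.2) =
      (-1) ^ k * ∑ q ∈ antidiagonal n₁, ((n₁ + n₂ - k).choose q.2 : ℤ) *
        ∑ ij ∈ antidiagonal k, hc (2 * n₁ - 1) ij.1 * (hc 1 ij.2 * (ij.2.choose q.1 : ℤ)) := by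
    simp_rw [Finset.mul_sum]
    rw [Finset.sum_comm]
    refine Finset.sum_congr rfl fun ij hij => ?_
    rw [Finset.HasAntidiagonal.mem_antidiagonal] at hij
    have h2 : n₁ + n₂ - ij.1 = ij.2 + (n₁ + n₂ - k) := by omega
    unfold qc
    rw [h2, Nat.add_choose_eq, ← hij, pow_add]
    push_cast
    simp_rw [Finset.mul_sum, Finset.sum_mul]
    refine Finset.sum_congr rfl fun q _ => ?_
    ring
  rw [h1]
  simp_rw [PadeX.inner hV hM]
  unfold pc
  rw [mul_assoc]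
  congr 1
  by_cases hkn : k ≤ n₁
  · rw [Finset.Nat.sum_antidiagonal_eq_sum_range_succ
      (fun i a => ((n₁ + n₂ - k).choose a : ℤ) * if i ≤ k then
        hc 1 i * hc (2 * n₁ - 1 + (1 - 2 * (i : ℤ))) (k - i) else 0) n₁]
    have h3 : hc (2 * (n₂ : ℤ) + 1) k = ∑ i ∈ range k.succ, hc 1 i * hc (2 * (n₂ : ℤ)) (k - i) := by
      rw [← Finset.Nat.sum_antidiagonal_eq_sum_range_succ (fun i b => hc 1 i * hc (2 * (n₂ : ℤ)) b) k,
        hV, add_comm]
    rw [h3, Finset.sum_mul]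
    symm
    have h4 : range k.succ ⊆ range n₁.succ := by
      intro i hi
      rw [Finset.mem_range] at hi ⊢
      omega
    rw [← Finset.sum_subset h4]
    · refine Finset.sum_congr rfl fun i hi => ?_
      rw [Finset.mem_range] at hi
      rw [if_pos (by omega : i ≤ k)]
      have h5 : (2 * (n₁ : ℤ) - 1 + (1 - 2 * (i : ℤ))) = 2 * ((n₁ - i : ℕ) : ℤ) := by
        push_cast [Nat.cast_sub (by omega : i ≤ n₁)]
        ring
      rw [h5, hM.1 (n₁ - i) (k - i), hM.1 n₂ (k - i)]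
      have h6 := PadeX.choose_id n₁ n₂ k i (by omega) hkn
      have h7 : ((n₁ + n₂ - k).choose (n₁ - i) : ℤ) * ((n₁ - i).choose (k - i) : ℤ) =
          ((n₁ + n₂ - k).choose n₂ : ℤ) * (n₂.choose (k - i) : ℤ) := by exact_mod_cast h6
      linear_combination (-(hc 1 i * 4 ^ (k - i))) * h7
    · intro i _ hi
      rw [Finset.mem_range] at hi
      rw [if_neg (by omega)]
      simp
  · rw [Nat.choose_eq_zero_of_lt (by omega : n₁ + n₂ - k < n₂)]
    push_cast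
    rw [mul_zero]
    apply Finset.sum_eq_zero
    intro q hq
    rw [Finset.HasAntidiagonal.mem_antidiagonal] at hq
    have h5 : (2 * (n₁ : ℤ) - 1 + (1 - 2 * (q.1 : ℤ))) = 2 * ((q.2 : ℕ) : ℤ) := by
      rw [← hq]
      push_cast
      ring
    rw [h5, hM.1 q.2 (k - q.1), Nat.choose_eq_zero_of_lt (by omega : q.2 < k - q.1)]
    simp

end Pool.Agent.Work.MP_8d13b5_lc.Ex

end

section

/-! MP_8d13b5_lc, module Ex: the congruence for the Padé approximants (`Cong`). -/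


open Finset

namespace Pool.Agent.Work.MP_8d13b5_lc.Ex

namespace CongX

/-- the product of truncated sums when `x ^ (N + 1) = 0` -/
theorem trunc_mul {R : Type*} [CommRing R] (a c : ℕ → R) (x : R) (N : ℕ) (hx : x ^ (N + 1) = 0) :
    (∑ i ∈ range (N + 1), a i * x ^ i) * (∑ j ∈ range (N + 1), c j * x ^ j) =
      ∑ k ∈ range (N + 1), (∑ ij ∈ antidiagonal k, a ij.1 * c ij.2) * x ^ k := by
  classical
  set A : Polynomial R := ∑ i ∈ range (N + 1), Polynomial.monomial i (a i) with hA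
  set C : Polynomial R := ∑ i ∈ range (N + 1), Polynomial.monomial i (c i) with hC
  have hcA : ∀ k, k < N + 1 → A.coeff k = a k := by
    intro k hk
    rw [hA, Polynomial.finsetSum_coeff]
    simp only [Polynomial.coeff_monomial]
    rw [Finset.sum_ite_eq' (range (N + 1)) k, if_pos (Finset.mem_range.2 hk)]
  have hcC : ∀ k, k < N + 1 → C.coeff k = c k := by
    intro k hk
    rw [hC, Polynomial.finsetSum_coeff]
    simp only [Polynomial.coeff_monomial]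
    rw [Finset.sum_ite_eq' (range (N + 1)) k, if_pos (Finset.mem_range.2 hk)]
  have heA : A.eval x = ∑ i ∈ range (N + 1), a i * x ^ i := by
    rw [hA, Polynomial.eval_finsetSum]
    exact Finset.sum_congr rfl fun i _ => Polynomial.eval_monomial
  have heC : C.eval x = ∑ i ∈ range (N + 1), c i * x ^ i := by
    rw [hC, Polynomial.eval_finsetSum]
    exact Finset.sum_congr rfl fun i _ => Polynomial.eval_monomial
  have hM : (A * C).natDegree < (A * C).natDegree + (N + 1) := by omega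
  rw [← heA, ← heC, ← Polynomial.eval_mul, Polynomial.eval_eq_sum_range' hM]
  have hs : range (N + 1) ⊆ range ((A * C).natDegree + (N + 1)) := by
    intro k hk
    rw [Finset.mem_range] at hk ⊢
    omega
  rw [← Finset.sum_subset hs]
  · refine Finset.sum_congr rfl fun k hk => ?_
    rw [Finset.mem_range] at hk
    congr 1
    rw [Polynomial.coeff_mul]
    refine Finset.sum_congr rfl fun ij hij => ?_
    have h1 := Finset.HasAntidiagonal.mem_antidiagonal.1 hij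
    rw [hcA _ (by omega), hcC _ (by omega)]
  · intro k _ hk
    rw [Finset.mem_range, not_lt] at hk
    obtain ⟨d, rfl⟩ := Nat.exists_eq_add_of_le hk
    rw [pow_add, hx, zero_mul, mul_zero]

/-- everything in a general ring -/
theorem ring_part (hV : Vand) (hM : HcMisc) (hP : Pade) {R : Type*} [CommRing R]
    (n₁ n₂ : ℕ) (hn : n₂ ≤ n₁) (y b h : R) (h2 : 2 * h = 1) (hy : y ^ (n₁ + n₂ + 1) = 0)
    (hb : b ^ 2 + 1 = 2 * y) :
    ∃ j e : R, j ^ 2 = -1 ∧ j = -b + y * e ∧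
      (∑ k ∈ range (n₁ + 1), (pc n₁ n₂ k : R) * 2 ^ (n₁ - k) * y ^ k) =
        b * j * (∑ k ∈ range (n₂ + 1), (qc n₁ n₂ k : R) * 2 ^ (n₁ - k) * y ^ k) := by
  set N := n₁ + n₂ with hN
  set x : R := y * h with hx
  have hyx : y = 2 * x := by
    rw [hx]; linear_combination (-y) * h2
  have hx0 : x ^ (N + 1) = 0 := by rw [hx, mul_pow, hy, zero_mul]
  set t : R := ∑ k ∈ range (N + 1), (((-1) ^ k * hc 1 k : ℤ) : R) * x ^ k with ht
  have hpow : ∀ k, k ≤ n₁ → (2 : R) ^ (n₁ - k) * y ^ k = 2 ^ n₁ * x ^ k := by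
    intro k hk
    rw [hyx, mul_pow, ← mul_assoc, ← pow_add, Nat.sub_add_cancel hk]
  have hPP : (∑ k ∈ range (n₁ + 1), (pc n₁ n₂ k : R) * 2 ^ (n₁ - k) * y ^ k) =
      2 ^ n₁ * ∑ k ∈ range (N + 1), (pc n₁ n₂ k : R) * x ^ k := by
    have hs : range (n₁ + 1) ⊆ range (N + 1) := by
      intro k hk
      rw [Finset.mem_range] at hk ⊢
      omega
    rw [← Finset.sum_subset hs, Finset.mul_sum]
    · refine Finset.sum_congr rfl fun k hk => ?_
      rw [Finset.mem_range] at hk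
      rw [mul_assoc, hpow k (by omega)]
      ring
    · intro k hk hk'
      rw [Finset.mem_range] at hk hk'
      have : (n₁ + n₂ - k).choose n₂ = 0 := Nat.choose_eq_zero_of_lt (by omega)
      simp only [pc, this]
      simp
  have hQQ : (∑ k ∈ range (n₂ + 1), (qc n₁ n₂ k : R) * 2 ^ (n₁ - k) * y ^ k) =
      2 ^ n₁ * ∑ k ∈ range (N + 1), (qc n₁ n₂ k : R) * x ^ k := by
    have hs : range (n₂ + 1) ⊆ range (N + 1) := by
      intro k hk
      rw [Finset.mem_range] at hk ⊢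
      omega
    rw [← Finset.sum_subset hs, Finset.mul_sum]
    · refine Finset.sum_congr rfl fun k hk => ?_
      rw [Finset.mem_range] at hk
      rw [mul_assoc, hpow k (by omega)]
      ring
    · intro k hk hk'
      rw [Finset.mem_range] at hk hk'
      have : (n₁ + n₂ - k).choose n₁ = 0 := Nat.choose_eq_zero_of_lt (by omega)
      simp only [qc, this]
      simp
  have hPQ : (∑ k ∈ range (N + 1), (pc n₁ n₂ k : R) * x ^ k) =
      (∑ k ∈ range (N + 1), (qc n₁ n₂ k : R) * x ^ k) * t := by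
    rw [ht, trunc_mul _ _ x N hx0]
    refine Finset.sum_congr rfl fun k hk => ?_
    rw [Finset.mem_range] at hk
    rw [← hP n₁ n₂ k (by omega)]
    push_cast
    rfl
  have ht2 : t ^ 2 = 1 - 4 * x := by
    have h1 : t ^ 2 = ∑ k ∈ range (N + 1), (-1 : R) ^ k * (4 ^ k * (Nat.choose 1 k : R)) * x ^ k := by
      rw [sq, ht, trunc_mul _ _ x N hx0]
      refine Finset.sum_congr rfl fun k hk => ?_
      congr 1
      have h3 := hV 1 1 k
      have h4 := hM.1 1 k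
      have h5 : ∑ ij ∈ antidiagonal k, ((-1) ^ ij.1 * hc 1 ij.1) * ((-1) ^ ij.2 * hc 1 ij.2) =
          (-1) ^ k * (4 ^ k * (Nat.choose 1 k : ℤ)) := by
        rw [← h4]
        norm_num at h3 ⊢
        rw [← h3, Finset.mul_sum]
        refine Finset.sum_congr rfl fun ij hij => ?_
        rw [← Finset.HasAntidiagonal.mem_antidiagonal.1 hij, pow_add]
        ring
      have h6 := congrArg (fun z : ℤ => (z : R)) h5
      push_cast at h6 ⊢
      exact h6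
    rw [h1]
    rcases Nat.eq_zero_or_pos N with h0 | h0
    · have hx1 : x = 0 := by
        have := hx0
        rw [h0, zero_add, pow_one] at this
        exact this
      rw [h0, hx1]
      simp
    · obtain ⟨M, hM'⟩ : ∃ M, N = M + 1 := ⟨N - 1, by omega⟩
      rw [hM', Finset.sum_range_succ', Finset.sum_range_succ', Finset.sum_eq_zero]
      · simp
        ring
      · intro k _
        have : Nat.choose 1 (k + 1 + 1) = 0 := Nat.choose_eq_zero_of_lt (by omega)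
        rw [this]
        simp
  have ht1 : ∃ e1 : R, t = 1 + x * e1 := by
    refine ⟨∑ k ∈ range N, (((-1) ^ (k + 1) * hc 1 (k + 1) : ℤ) : R) * x ^ k, ?_⟩
    rw [ht, Finset.sum_range_succ', Finset.mul_sum, add_comm]
    congr 1
    · simp [hc]
    · refine Finset.sum_congr rfl fun k _ => ?_
      rw [pow_succ]
      ring
  obtain ⟨e1, he1⟩ := ht1
  set g : R := ∑ k ∈ range (N + 1), (2 * y) ^ k with hg
  have hg1 : g * (1 - 2 * y) = 1 := by
    have h1 : g * (2 * y - 1) = (2 * y) ^ (N + 1) - 1 := geom_sum_mul (2 * y) (N + 1)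
    rw [mul_pow, hy, mul_zero] at h1
    linear_combination -h1
  have hg2 : b ^ 2 * g = -1 := by
    linear_combination g * hb - hg1
  have hbg : b * (-(b * g * t)) = t := by
    linear_combination (-t) * hg2
  refine ⟨-(b * g * t), -(b * (2 * g + h * e1 + 2 * y * g * h * e1)), ?_, ?_, ?_⟩
  · have h4 : t ^ 2 = -b ^ 2 := by
      rw [ht2]
      linear_combination hb + 2 * hyx
    have h5 : (-(b * g * t)) ^ 2 = -(b ^ 2 * g) ^ 2 := by
      linear_combination b ^ 2 * g ^ 2 * h4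
    rw [h5, hg2]
    ring
  · have h4 : g = 1 + 2 * y * g := by linear_combination hg1
    have h5 : g * t = (1 + 2 * y * g) * (1 + x * e1) := by rw [← he1, ← h4]
    have h6 : -(b * g * t) = -b * ((1 + 2 * y * g) * (1 + x * e1)) := by rw [← h5]; ring
    rw [h6, hx]
    ring
  · rw [hPP, hQQ, hPQ, hbg]
    ring

end CongX

theorem prfCong (hV : Vand) (hM : HcMisc) (hP : Pade) : Cong := by
  intro n₁ n₂ y b hn hodd hb
  have hoN : Odd (y ^ (n₁ + n₂ + 1)) := hodd.pow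
  obtain ⟨m, hm⟩ := hoN
  have hy0 : ((y ^ (n₁ + n₂ + 1) : ℕ) : ZMod (y ^ (n₁ + n₂ + 1))) = 0 := ZMod.natCast_self _
  have h2 : (2 : ZMod (y ^ (n₁ + n₂ + 1))) * (-(m : ZMod (y ^ (n₁ + n₂ + 1)))) = 1 := by
    have h3 : ((2 * m + 1 : ℕ) : ZMod (y ^ (n₁ + n₂ + 1))) = 0 := by
      rw [← hm]; exact hy0
    push_cast at h3
    linear_combination (-1) * h3
  have hb' : (b : ZMod (y ^ (n₁ + n₂ + 1))) ^ 2 + 1 = 2 * (y : ZMod (y ^ (n₁ + n₂ + 1))) := by
    have := congrArg (fun z : ℤ => (z : ZMod (y ^ (n₁ + n₂ + 1)))) hb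
    push_cast at this
    exact this
  have hy1 : (y : ZMod (y ^ (n₁ + n₂ + 1))) ^ (n₁ + n₂ + 1) = 0 := by
    rw [← Nat.cast_pow]; exact hy0
  obtain ⟨j, e, hj, hje, hPQ⟩ := CongX.ring_part hV hM hP n₁ n₂ hn
    (y : ZMod (y ^ (n₁ + n₂ + 1))) (b : ZMod (y ^ (n₁ + n₂ + 1))) _ h2 hy1 hb'
  refine ⟨j, e, hj, hje, ?_⟩
  unfold PP QQ
  push_cast
  exact hPQ

end Pool.Agent.Work.MP_8d13b5_lc.Ex

end

section

/-! MP_8d13b5_lc, module Ex, item B1: non-vanishing of the linear form. -/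


open Finset

namespace Pool.Agent.Work.MP_8d13b5_lc.Ex

namespace NonVX

theorem two_pow_dvd_fac (k : ℕ) : 2 ^ k ∣ (2 * k).factorial := by
  induction k with
  | zero => simp
  | succ k ih =>
    have h : (2 * (k + 1)).factorial = 2 * ((k + 1) * (2 * k + 1)) * (2 * k).factorial := by
      have e : 2 * (k + 1) = (2 * k + 1) + 1 := by ring
      rw [e, Nat.factorial_succ, Nat.factorial_succ]
      ring
    rw [h, pow_succ, mul_comm (2 ^ k) 2]
    exact mul_dvd_mul (Dvd.intro _ rfl) ih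

theorem fac_split (s : ℕ) : ∃ A : ℕ, (10 * s).factorial = s.factorial * A ∧ 2 ^ (4 * s) ∣ A := by
  refine ⟨(s + 1).ascFactorial (9 * s), ?_, ?_⟩
  · rw [Nat.factorial_mul_ascFactorial]
    congr 1
    ring
  · have h1 : 2 ^ (4 * s) ∣ (2 * (4 * s)).factorial := two_pow_dvd_fac _
    have h2 : (2 * (4 * s)).factorial ∣ (9 * s).factorial := Nat.factorial_dvd_factorial (by omega)
    exact (h1.trans h2).trans (Nat.factorial_dvd_ascFactorial _ _)

/-- one term -/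
theorem term_eq (hFac : HcFac) (a : ℤ) (n n₁ k C : ℕ) (y : ℤ) (hk : k ≤ n) (hk1 : k ≤ n₁) :
    (n.factorial : ℤ) * ((-1) ^ k * hc a k * (C : ℤ) * 2 ^ (n₁ - k) * y ^ k) =
      2 ^ n₁ * ((-1) ^ k * (n.descFactorial (n - k) : ℤ) * (∏ i ∈ range k, (a - 2 * (i : ℤ))) *
        (C : ℤ) * y ^ k) := by
  have h1 : (k.factorial * n.descFactorial (n - k) : ℕ) = n.factorial := by
    have := Nat.factorial_mul_descFactorial (n := n) (k := n - k) (Nat.sub_le _ _)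
    rwa [Nat.sub_sub_self hk] at this
  have h2 := hFac a k
  have h3 : (2 : ℤ) ^ n₁ = 2 ^ k * 2 ^ (n₁ - k) := by
    rw [← pow_add]
    congr 1
    omega
  have h4 : (n.factorial : ℤ) = (k.factorial : ℤ) * (n.descFactorial (n - k) : ℤ) := by
    rw [← h1]
    push_cast
    ring
  calc (n.factorial : ℤ) * ((-1) ^ k * hc a k * (C : ℤ) * 2 ^ (n₁ - k) * y ^ k)
      = ((k.factorial : ℤ) * hc a k) *
          ((-1) ^ k * (n.descFactorial (n - k) : ℤ) * (C : ℤ) * 2 ^ (n₁ - k) * y ^ k) := by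
        rw [h4]
        ring
    _ = _ := by
        rw [h2, h3]
        ring

theorem PP_eq (hFac : HcFac) (s : ℕ) (y : ℤ) (hs : 1 ≤ s) (hy : Odd y) :
    ∃ W : ℤ, Odd W ∧ ((10 * s).factorial : ℤ) * PP (10 * s) s y = 2 ^ (10 * s) * W := by
  refine ⟨∑ k ∈ range (10 * s + 1), ((-1) ^ k * ((10 * s).descFactorial (10 * s - k) : ℤ) *
      (∏ i ∈ range k, ((2 * (s : ℤ) + 1) - 2 * (i : ℤ))) *
        (((10 * s + s - k).choose s : ℕ) : ℤ) * y ^ k), ?_, ?_⟩
  · rw [sum_range_succ]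
    apply Even.add_odd
    · apply even_sum
      intro k hk
      rw [mem_range] at hk
      have h1 : Even ((10 * s).descFactorial (10 * s - k) : ℤ) := by
        obtain ⟨m, hm⟩ : ∃ m, 10 * s = m + 1 := ⟨10 * s - 1, by omega⟩
        obtain ⟨j, hj⟩ : ∃ j, 10 * s - k = j + 1 := ⟨10 * s - k - 1, by omega⟩
        have h2 : (10 * s).descFactorial (10 * s - k) = (10 * s) * m.descFactorial j := by
          rw [hj]
          conv_lhs => rw [hm]
          rw [Nat.succ_descFactorial_succ, ← hm]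
        rw [h2]
        push_cast
        exact ⟨5 * (s : ℤ) * (m.descFactorial j : ℤ), by ring⟩
      obtain ⟨r, hr⟩ := h1
      rw [hr]
      exact ⟨(-1) ^ k * r * (∏ i ∈ range k, ((2 * (s : ℤ) + 1) - 2 * (i : ℤ))) *
        (((10 * s + s - k).choose s : ℕ) : ℤ) * y ^ k, by ring⟩
    · have h1 : 10 * s + s - 10 * s = s := by omega
      rw [Nat.sub_self, Nat.descFactorial_zero, h1, Nat.choose_self]
      have h2 : Odd (∏ i ∈ range (10 * s), ((2 * (s : ℤ) + 1) - 2 * (i : ℤ))) := by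
        apply Finset.prod_induction _ (fun z : ℤ => Odd z)
        · intro a b ha hb
          exact ha.mul hb
        · exact odd_one
        · intro i _
          exact ⟨(s : ℤ) - i, by ring⟩
      have h3 : Odd ((-1 : ℤ) ^ (10 * s)) := Odd.pow (by decide)
      have h4 : Odd (y ^ (10 * s)) := hy.pow
      push_cast
      simpa using (h3.mul h2).mul h4
  · unfold PP
    rw [mul_sum, mul_sum]
    apply sum_congr rfl
    intro k hk
    rw [mem_range] at hk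
    unfold pc
    have := term_eq hFac (2 * (s : ℤ) + 1) (10 * s) (10 * s) k ((10 * s + s - k).choose s) y
      (by omega) (by omega)
    exact this

theorem QQ_eq (hFac : HcFac) (s : ℕ) (y : ℤ) :
    ∃ W : ℤ, (s.factorial : ℤ) * QQ (10 * s) s y = 2 ^ (10 * s) * W := by
  refine ⟨∑ k ∈ range (s + 1), ((-1) ^ k * (s.descFactorial (s - k) : ℤ) *
      (∏ i ∈ range k, ((2 * ((10 * s : ℕ) : ℤ) - 1) - 2 * (i : ℤ))) *
        (((10 * s + s - k).choose (10 * s) : ℕ) : ℤ) * y ^ k), ?_⟩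
  unfold QQ
  rw [mul_sum, mul_sum]
  apply sum_congr rfl
  intro k hk
  rw [mem_range] at hk
  unfold qc
  exact term_eq hFac (2 * ((10 * s : ℕ) : ℤ) - 1) s (10 * s) k
    ((10 * s + s - k).choose (10 * s)) y (by omega) (by omega)

end NonVX

theorem prfNonV (hFac : HcFac) : NonV := by
  intro s y b c M hs hy hc hlt h0
  obtain ⟨W, hW, hP⟩ := NonVX.PP_eq hFac s y hs hy
  obtain ⟨W', hQ⟩ := NonVX.QQ_eq hFac s y
  obtain ⟨A, hA, hA2⟩ := NonVX.fac_split s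
  have h1 : c * (s.factorial : ℤ) * (2 ^ (10 * s) * W) +
      b * M * ((10 * s).factorial : ℤ) * (2 ^ (10 * s) * W') = 0 := by
    rw [← hP, ← hQ]
    have : ((10 * s).factorial : ℤ) * (s.factorial : ℤ) *
        (c * PP (10 * s) s y + b * M * QQ (10 * s) s y) = 0 := by
      rw [h0, mul_zero]
    linarith [this]
  have hA' : ((10 * s).factorial : ℤ) = (s.factorial : ℤ) * (A : ℤ) := by
    exact_mod_cast hA
  have hs0 : (s.factorial : ℤ) ≠ 0 := by
    exact_mod_cast Nat.factorial_ne_zero s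
  have h20 : (2 : ℤ) ^ (10 * s) ≠ 0 := pow_ne_zero _ two_ne_zero
  have h2 : c * W + b * M * (A : ℤ) * W' = 0 := by
    rw [hA'] at h1
    have h3 : ((s.factorial : ℤ) * 2 ^ (10 * s)) * (c * W + b * M * (A : ℤ) * W') = 0 := by
      linarith [h1]
    rcases mul_eq_zero.1 h3 with h4 | h4
    · exact absurd h4 (mul_ne_zero hs0 h20)
    · exact h4
  have hA3 : (2 : ℤ) ^ (4 * s) ∣ (A : ℤ) := by
    exact_mod_cast hA2
  have h5 : (2 : ℤ) ^ (4 * s) ∣ c * W := by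
    have h6 : c * W = -(b * M * W') * (A : ℤ) := by linarith [h2]
    rw [h6]
    exact Dvd.dvd.mul_left hA3 _
  have hco : IsCoprime ((2 : ℤ) ^ (4 * s)) W := by
    apply IsCoprime.pow_left
    obtain ⟨r, hr⟩ := hW
    exact ⟨-r, 1, by rw [hr]; ring⟩
  have h7 : (2 : ℤ) ^ (4 * s) ∣ c := hco.dvd_of_dvd_mul_right h5
  have h8 := Int.le_of_dvd (abs_pos.2 hc) ((dvd_abs _ _).2 h7)
  exact absurd hlt (not_lt.2 h8)

end Pool.Agent.Work.MP_8d13b5_lc.Ex

end

section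

/-!
# MP_8d13b5_lc, module Ex: the common prime factors of numerator and denominator
-/


open Finset

namespace Pool.Agent.Work.MP_8d13b5_lc.Ex

namespace ContentX

theorem prS_facts {s p : ℕ} (hp : p ∈ prS s) : p.Prime ∧ ∃ i : ℕ, 10 * s < (i + 1) * p ∧
    (2 * i + 1) * p + 1 ≤ 20 * s ∧ s < p ∧ p < 2 * s := by
  unfold prS at hp
  rw [mem_filter] at hp
  obtain ⟨-, hpp, i, hi, h1, h2⟩ := hp
  rw [mem_Icc] at hi
  refine ⟨hpp, i, h1, h2, ?_, ?_⟩
  · have : (i + 1) * p ≤ 10 * p := Nat.mul_le_mul_right _ (by omega)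
    omega
  · have : 11 * p ≤ (2 * i + 1) * p := Nat.mul_le_mul_right _ (by omega)
    omega

theorem dvd_hc (hFac : HcFac) {p k l : ℕ} {a : ℤ} (hp : p.Prime) (hk : k < p) (hl : l < k)
    (h : (p : ℤ) ∣ a - 2 * (l : ℤ)) : (p : ℤ) ∣ hc a k := by
  have h1 := hFac a k
  have h2 : (p : ℤ) ∣ (k.factorial : ℤ) * hc a k := by
    rw [h1]
    exact Dvd.dvd.mul_left (h.trans (dvd_prod_of_mem (fun i : ℕ => a - 2 * (i : ℤ))
      (mem_range.2 hl))) _
  rcases (Nat.prime_iff_prime_int.1 hp).dvd_or_dvd h2 with h3 | h3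
  · exfalso
    have h4 : p ∣ k.factorial := by exact_mod_cast h3
    have := (hp.dvd_factorial).1 h4
    omega
  · exact h3

theorem dvd_choose {p n k i r t : ℕ} (hp : p.Prime) (hn : n = (i + 1) * p + t) (htr : t < r)
    (hrp : r < p) (hk : k = i * p + r) : p ∣ n.choose k := by
  have : Fact p.Prime := ⟨hp⟩
  have h1 := Choose.choose_modEq_choose_mod_mul_choose_div_nat (p := p) (n := n) (k := k)
  have h2 : n % p = t := by
    rw [hn, Nat.add_comm, Nat.add_mul_mod_self_right, Nat.mod_eq_of_lt (by omega)]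
  have h3 : k % p = r := by
    rw [hk, Nat.add_comm, Nat.add_mul_mod_self_right, Nat.mod_eq_of_lt hrp]
  rw [h2, h3, Nat.choose_eq_zero_of_lt htr, zero_mul] at h1
  exact (Nat.modEq_zero_iff_dvd).1 h1

theorem dvd_qc (hFac : HcFac) {s p k : ℕ} (hp : p ∈ prS s) (hk : k ≤ s) :
    (p : ℤ) ∣ qc (10 * s) s k := by
  obtain ⟨hpp, i, h1, h2, h3, h4⟩ := prS_facts hp
  have hodd : p % 2 = 1 := by
    rcases hpp.eq_two_or_odd with h5 | h5
    · omega
    · exact h5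
  obtain ⟨m, hm⟩ : ∃ m, p = 2 * m + 1 := ⟨p / 2, by omega⟩
  have e1 : (i + 1) * p = i * p + p := by ring
  have e2 : (2 * i + 1) * p = 2 * (i * p) + p := by ring
  rw [e1] at h1
  rw [e2] at h2
  obtain ⟨r, hr⟩ : ∃ r, 10 * s = i * p + r := ⟨10 * s - i * p, by omega⟩
  unfold qc
  by_cases hki : r - (m + 1) < k
  · refine Dvd.dvd.mul_right (Dvd.dvd.mul_left ?_ _) _
    refine dvd_hc hFac hpp (by omega) hki ⟨2 * i + 1, ?_⟩
    have e3 : ((r - (m + 1) : ℕ) : ℤ) = (r : ℤ) - (m + 1) := by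
      have : m + 1 ≤ r := by omega
      push_cast [Nat.cast_sub this]
      ring
    have e4 : (10 : ℤ) * (s : ℤ) = i * p + r := by exact_mod_cast hr
    have e5 : (p : ℤ) = 2 * m + 1 := by exact_mod_cast hm
    rw [e3]
    push_cast
    linear_combination 2 * e4 - e5
  · have h5 : p ∣ (10 * s + s - k).choose (10 * s) :=
      dvd_choose (t := r + s - k - p) (r := r) (i := i) hpp (by rw [e1]; omega) (by omega)
        (by omega) hr
    exact Dvd.dvd.mul_left (by exact_mod_cast h5) _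

theorem dvd_qc' (hFac : HcFac) {s p : ℕ} (hp : p ∈ prS s) (k : ℕ) (hk : k ≤ 10 * s) :
    (p : ℤ) ∣ qc (10 * s) s k := by
  by_cases h : k ≤ s
  · exact dvd_qc hFac hp h
  · unfold qc
    rw [Nat.choose_eq_zero_of_lt (by omega), Nat.cast_zero, mul_zero]
    exact dvd_zero _

theorem dvd_pc (hFac : HcFac) (hP : Pade) {s p : ℕ} (hp : p ∈ prS s) (k : ℕ) (hk : k ≤ 10 * s) :
    (p : ℤ) ∣ pc (10 * s) s k := by
  rw [← hP (10 * s) s k (by omega)]
  refine dvd_sum fun ij hij => Dvd.dvd.mul_right (dvd_qc' hFac hp _ ?_) _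
  rw [HasAntidiagonal.mem_antidiagonal] at hij
  omega

end ContentX

open ContentX in
theorem prfContent (hFac : HcFac) (hP : Pade) : Content := by
  intro s p y hp
  constructor
  · unfold PP
    refine dvd_sum fun k hk => ?_
    rw [mem_range] at hk
    exact Dvd.dvd.mul_right (Dvd.dvd.mul_right (dvd_pc hFac hP hp k (by omega)) _) _
  · unfold QQ
    refine dvd_sum fun k hk => ?_
    rw [mem_range] at hk
    exact Dvd.dvd.mul_right (Dvd.dvd.mul_right (dvd_qc hFac hp (by omega)) _) _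

end Pool.Agent.Work.MP_8d13b5_lc.Ex

end

section

/-! Item SizeP of the Skolem example of order five: size of the numerator of the Padé approximant. -/


open Finset

namespace Pool.Agent.Work.MP_8d13b5_lc.Ex

namespace SizePX

theorem hc_rec (hFac : HcFac) (a : ℤ) (k : ℕ) :
    ((k : ℤ) + 1) * hc a (k + 1) = 2 * (a - 2 * k) * hc a k := by
  have h1 := hFac a (k + 1)
  have h2 := hFac a k
  rw [Finset.prod_range_succ, Nat.factorial_succ] at h1
  push_cast at h1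
  have hk : ((k.factorial : ℤ)) ≠ 0 := by exact_mod_cast k.factorial_ne_zero
  apply mul_left_cancel₀ hk
  calc (k.factorial : ℤ) * (((k : ℤ) + 1) * hc a (k + 1))
      = ((k : ℤ) + 1) * (k.factorial : ℤ) * hc a (k + 1) := by ring
    _ = 2 ^ (k + 1) * ((∏ i ∈ range k, (a - 2 * (i : ℤ))) * (a - 2 * k)) := h1
    _ = 2 * (a - 2 * k) * (2 ^ k * ∏ i ∈ range k, (a - 2 * (i : ℤ))) := by ring
    _ = 2 * (a - 2 * k) * ((k.factorial : ℤ) * hc a k) := by rw [h2]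
    _ = (k.factorial : ℤ) * (2 * (a - 2 * k) * hc a k) := by ring

theorem hc_zero (hFac : HcFac) (a : ℤ) : hc a 0 = 1 := by
  have := hFac a 0
  simpa using this

theorem abs_rec (hFac : HcFac) (s k : ℕ) :
    ((k : ℝ) + 1) * |(hc (2 * (s : ℤ) + 1) (k + 1) : ℝ)| =
      2 * |(2 * (s : ℝ) + 1 - 2 * k)| * |(hc (2 * (s : ℤ) + 1) k : ℝ)| := by
  have h := hc_rec hFac (2 * (s : ℤ) + 1) k
  have h' : ((k : ℝ) + 1) * (hc (2 * (s : ℤ) + 1) (k + 1) : ℝ) =
      2 * (2 * (s : ℝ) + 1 - 2 * k) * (hc (2 * (s : ℤ) + 1) k : ℝ) := by exact_mod_cast h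
  have h2 := congrArg abs h'
  rw [abs_mul, abs_mul, abs_mul, abs_of_nonneg (by positivity : (0 : ℝ) ≤ (k : ℝ) + 1),
    abs_two] at h2
  exact h2

theorem small (hFac : HcFac) (s k : ℕ) (hk : k ≤ s + 1) :
    |(hc (2 * (s : ℤ) + 1) k : ℝ)| ≤ 4 ^ k * ((s + 1).choose k : ℝ) := by
  induction k with
  | zero => simp [hc_zero hFac]
  | succ k ih =>
    have ih := ih (by omega)
    have hr := abs_rec hFac s k
    have hks : (k : ℝ) ≤ s := by exact_mod_cast (by omega : k ≤ s)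
    rw [abs_of_nonneg (by linarith : (0 : ℝ) ≤ 2 * (s : ℝ) + 1 - 2 * k)] at hr
    have hch : ((s + 1).choose (k + 1) : ℝ) * ((k : ℝ) + 1) =
        ((s + 1).choose k : ℝ) * ((s : ℝ) + 1 - k) := by
      have h1 := Nat.choose_succ_right_eq (s + 1) k
      have h2 : (((s + 1 - k : ℕ) : ℝ)) = (s : ℝ) + 1 - k := by
        rw [Nat.cast_sub (by omega)]; push_cast; ring
      rw [← h2]; exact_mod_cast h1
    have hpos : (0 : ℝ) < (k : ℝ) + 1 := by positivity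
    apply le_of_mul_le_mul_left _ hpos
    rw [hr]
    calc 2 * (2 * (s : ℝ) + 1 - 2 * k) * |(hc (2 * (s : ℤ) + 1) k : ℝ)|
        ≤ 2 * (2 * (s : ℝ) + 1 - 2 * k) * (4 ^ k * ((s + 1).choose k : ℝ)) := by
          apply mul_le_mul_of_nonneg_left ih; linarith
      _ ≤ 4 * ((s : ℝ) + 1 - k) * (4 ^ k * ((s + 1).choose k : ℝ)) := by
          apply mul_le_mul_of_nonneg_right _ (by positivity); linarith
      _ = 4 ^ (k + 1) * (((s + 1).choose k : ℝ) * ((s : ℝ) + 1 - k)) := by ring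
      _ = ((k : ℝ) + 1) * (4 ^ (k + 1) * ((s + 1).choose (k + 1) : ℝ)) := by rw [← hch]; ring

theorem big (hFac : HcFac) (s m : ℕ) :
    |(hc (2 * (s : ℤ) + 1) (s + 1 + m) : ℝ)| * ((s + 1 + m).choose s : ℝ) ≤
      4 ^ (s + 1 + m) * ((s : ℝ) + 1) := by
  induction m with
  | zero =>
    have h := small hFac s (s + 1) le_rfl
    rw [Nat.choose_self] at h
    have h1 : ((s + 1 + 0).choose s : ℝ) = (s : ℝ) + 1 := by simp
    rw [h1]
    have h2 := mul_le_mul_of_nonneg_right h (by positivity : (0 : ℝ) ≤ (s : ℝ) + 1)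
    simpa using h2
  | succ m ih =>
    have hr := abs_rec hFac s (s + 1 + m)
    have habs : |(2 * (s : ℝ) + 1 - 2 * ((s + 1 + m : ℕ) : ℝ))| = 2 * (m : ℝ) + 1 := by
      push_cast
      rw [abs_of_nonpos (by nlinarith [(Nat.cast_nonneg m : (0 : ℝ) ≤ (m : ℝ))])]
      ring
    rw [habs] at hr
    have hch : ((s + 1 + m).choose s : ℝ) * (((s + 1 + m : ℕ) : ℝ) + 1) =
        ((s + 1 + m + 1).choose s : ℝ) * ((m : ℝ) + 2) := by
      have h1 := Nat.choose_mul_succ_eq (s + 1 + m) s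
      have h2 : s + 1 + m + 1 - s = m + 2 := by omega
      rw [h2] at h1
      exact_mod_cast h1
    have e1 : s + 1 + (m + 1) = s + 1 + m + 1 := by ring
    rw [e1]
    set K : ℝ := ((s + 1 + m : ℕ) : ℝ) with hK
    set H : ℝ := |(hc (2 * (s : ℤ) + 1) (s + 1 + m) : ℝ)| with hH
    set H' : ℝ := |(hc (2 * (s : ℤ) + 1) (s + 1 + m + 1) : ℝ)| with hH'
    have hKpos : (0 : ℝ) < K + 1 := by positivity
    have hm : (0 : ℝ) < (m : ℝ) + 2 := by positivity
    have hpos : (0 : ℝ) < (K + 1) * ((m : ℝ) + 2) := by positivity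
    apply le_of_mul_le_mul_left _ hpos
    calc (K + 1) * ((m : ℝ) + 2) * (H' * ((s + 1 + m + 1).choose s : ℝ))
        = ((K + 1) * H') * (((s + 1 + m + 1).choose s : ℝ) * ((m : ℝ) + 2)) := by ring
      _ = (2 * (2 * (m : ℝ) + 1) * H) * (((s + 1 + m).choose s : ℝ) * (K + 1)) := by
          rw [hr, ← hch]
      _ = (2 * (2 * (m : ℝ) + 1) * (K + 1)) * (H * ((s + 1 + m).choose s : ℝ)) := by ring
      _ ≤ (2 * (2 * (m : ℝ) + 1) * (K + 1)) * (4 ^ (s + 1 + m) * ((s : ℝ) + 1)) := by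
          apply mul_le_mul_of_nonneg_left ih; positivity
      _ ≤ (4 * ((m : ℝ) + 2) * (K + 1)) * (4 ^ (s + 1 + m) * ((s : ℝ) + 1)) := by
          apply mul_le_mul_of_nonneg_right _ (by positivity)
          apply mul_le_mul_of_nonneg_right _ hKpos.le
          linarith
      _ = (K + 1) * ((m : ℝ) + 2) * (4 ^ (s + 1 + m + 1) * ((s : ℝ) + 1)) := by ring

theorem all (hFac : HcFac) (s k : ℕ) :
    |(hc (2 * (s : ℤ) + 1) k : ℝ)| ≤ 4 ^ k * 2 ^ (s + 1) := by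
  rcases Nat.lt_or_ge k (s + 2) with h | h
  · refine (small hFac s k (by omega)).trans ?_
    apply mul_le_mul_of_nonneg_left _ (by positivity)
    exact_mod_cast Nat.choose_le_two_pow (s + 1) k
  · obtain ⟨m, rfl⟩ : ∃ m, k = s + 1 + m := ⟨k - (s + 1), by omega⟩
    have h1 := big hFac s m
    have h2 : (1 : ℝ) ≤ ((s + 1 + m).choose s : ℝ) := by
      exact_mod_cast Nat.choose_pos (by omega : s ≤ s + 1 + m)
    have h3 : ((s : ℝ) + 1) ≤ 2 ^ (s + 1) := by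
      have := (Nat.lt_two_pow_self (n := s + 1)).le
      exact_mod_cast this
    calc |(hc (2 * (s : ℤ) + 1) (s + 1 + m) : ℝ)|
        ≤ |(hc (2 * (s : ℤ) + 1) (s + 1 + m) : ℝ)| * ((s + 1 + m).choose s : ℝ) :=
          le_mul_of_one_le_right (abs_nonneg _) h2
      _ ≤ 4 ^ (s + 1 + m) * ((s : ℝ) + 1) := h1
      _ ≤ 4 ^ (s + 1 + m) * 2 ^ (s + 1) := by
          apply mul_le_mul_of_nonneg_left h3 (by positivity)

theorem choose_step (s k j : ℕ) (h : 2 * s ≤ k + 1) :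
    ((k + j).choose s : ℝ) ≤ 2 ^ j * (k.choose s : ℝ) := by
  induction j with
  | zero => simp
  | succ j ih =>
    have h1 := Nat.choose_mul_succ_eq (k + j) s
    have h2 : ((k + j).choose s : ℝ) * (((k + j : ℕ) : ℝ) + 1) =
        ((k + j + 1).choose s : ℝ) * ((k + j + 1 - s : ℕ) : ℝ) := by exact_mod_cast h1
    have h3 : (((k + j : ℕ) : ℝ) + 1) ≤ 2 * ((k + j + 1 - s : ℕ) : ℝ) := by
      have : k + j + 1 ≤ 2 * (k + j + 1 - s) := by omega
      exact_mod_cast this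
    have hpos : (0 : ℝ) < ((k + j + 1 - s : ℕ) : ℝ) := by
      have : 0 < ((k + j : ℕ) : ℝ) + 1 := by positivity
      linarith
    have h4 : ((k + j + 1).choose s : ℝ) ≤ 2 * ((k + j).choose s : ℝ) := by
      apply le_of_mul_le_mul_right _ hpos
      rw [← h2]
      have h5 : (0 : ℝ) ≤ ((k + j).choose s : ℝ) := by positivity
      nlinarith
    rw [← add_assoc]
    calc ((k + j + 1).choose s : ℝ) ≤ 2 * ((k + j).choose s : ℝ) := h4
      _ ≤ 2 * (2 ^ j * (k.choose s : ℝ)) := by linarith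
      _ = 2 ^ (j + 1) * (k.choose s : ℝ) := by ring

theorem key (hFac : HcFac) (s k : ℕ) (hs : 1 ≤ s) (hk : k ≤ 10 * s) :
    |(hc (2 * (s : ℤ) + 1) k : ℝ)| * ((10 * s).choose s : ℝ) ≤ ((s : ℝ) + 1) * 4 ^ (10 * s) := by
  rcases Nat.lt_or_ge (4 * s) k with h | h
  · obtain ⟨m, rfl⟩ : ∃ m, k = s + 1 + m := ⟨k - (s + 1), by omega⟩
    obtain ⟨j, hj⟩ : ∃ j, 10 * s = s + 1 + m + j := ⟨10 * s - (s + 1 + m), by omega⟩
    have h1 := choose_step s (s + 1 + m) j (by omega)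
    rw [hj]
    have h2 := big hFac s m
    calc |(hc (2 * (s : ℤ) + 1) (s + 1 + m) : ℝ)| * ((s + 1 + m + j).choose s : ℝ)
        ≤ |(hc (2 * (s : ℤ) + 1) (s + 1 + m) : ℝ)| *
            (2 ^ j * ((s + 1 + m).choose s : ℝ)) :=
          mul_le_mul_of_nonneg_left h1 (abs_nonneg _)
      _ = 2 ^ j * (|(hc (2 * (s : ℤ) + 1) (s + 1 + m) : ℝ)| *
            ((s + 1 + m).choose s : ℝ)) := by ring
      _ ≤ 2 ^ j * (4 ^ (s + 1 + m) * ((s : ℝ) + 1)) :=
          mul_le_mul_of_nonneg_left h2 (by positivity)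
      _ ≤ 4 ^ j * (4 ^ (s + 1 + m) * ((s : ℝ) + 1)) := by
          apply mul_le_mul_of_nonneg_right _ (by positivity)
          exact pow_le_pow_left₀ (by norm_num) (by norm_num) j
      _ = ((s : ℝ) + 1) * 4 ^ (s + 1 + m + j) := by rw [pow_add]; ring
  · have h1 := all hFac s k
    have h2 : ((10 * s).choose s : ℝ) ≤ 2 ^ (10 * s) := by
      exact_mod_cast Nat.choose_le_two_pow (10 * s) s
    have h3 : (4 : ℝ) ^ k ≤ 4 ^ (4 * s) := pow_le_pow_right₀ (by norm_num) h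
    calc |(hc (2 * (s : ℤ) + 1) k : ℝ)| * ((10 * s).choose s : ℝ)
        ≤ (4 ^ k * 2 ^ (s + 1)) * 2 ^ (10 * s) :=
          mul_le_mul h1 h2 (by positivity) (by positivity)
      _ ≤ (4 ^ (4 * s) * 2 ^ (s + 1)) * 2 ^ (10 * s) := by
          apply mul_le_mul_of_nonneg_right _ (by positivity)
          exact mul_le_mul_of_nonneg_right h3 (by positivity)
      _ = 2 ^ (19 * s + 1) := by
          rw [show (4 : ℝ) = 2 ^ 2 by norm_num, ← pow_mul, ← pow_add, ← pow_add]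
          congr 1; ring
      _ ≤ 2 ^ (20 * s) := pow_le_pow_right₀ (by norm_num) (by omega)
      _ = 4 ^ (10 * s) := by
          rw [show (4 : ℝ) = 2 ^ 2 by norm_num, ← pow_mul]
          congr 1; ring
      _ ≤ ((s : ℝ) + 1) * 4 ^ (10 * s) := by
          apply le_mul_of_one_le_left (by positivity)
          have : (0 : ℝ) ≤ s := Nat.cast_nonneg s
          linarith

theorem choose_bd (s j : ℕ) :
    ((s + j).choose s : ℝ) ≤ (1.01 : ℝ) ^ (s + j) * 100 ^ j := by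
  have h1 : (1 / 100 : ℝ) ^ j * 1 ^ (s + j - j) * ((s + j).choose j : ℝ) ≤
      (1 / 100 + 1 : ℝ) ^ (s + j) := by
    rw [add_pow]
    exact Finset.single_le_sum (f := fun m => (1 / 100 : ℝ) ^ m * 1 ^ (s + j - m) *
      ((s + j).choose m : ℝ)) (fun m _ => by positivity)
      (Finset.mem_range.2 (by omega))
  have h2 : (s + j).choose j = (s + j).choose s := by
    rw [← Nat.choose_symm_of_eq_add (by ring : s + j = s + j)]
  rw [h2, one_pow, mul_one] at h1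
  have h3 : (1 / 100 + 1 : ℝ) = 1.01 := by norm_num
  rw [h3] at h1
  have h4 : ((s + j).choose s : ℝ) = (1 / 100 : ℝ) ^ j * ((s + j).choose s : ℝ) * 100 ^ j := by
    rw [mul_right_comm, ← mul_pow]; norm_num
  rw [h4]
  exact mul_le_mul_of_nonneg_right h1 (by positivity)

theorem term (hFac : HcFac) (s k : ℕ) (y : ℝ) (hs : 1 ≤ s) (hk : k ≤ 10 * s) (hy : 0 < y) :
    |(hc (2 * (s : ℤ) + 1) k : ℝ)| * ((10 * s + s - k).choose s : ℝ) * 2 ^ (10 * s - k) * y ^ k *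
      ((10 * s).choose s : ℝ) ≤
      ((s : ℝ) + 1) * (1.01 : ℝ) ^ s * (4 * y) ^ (10 * s) * (202 / y) ^ (10 * s - k) := by
  obtain ⟨j, hj⟩ : ∃ j, 10 * s = k + j := ⟨10 * s - k, by omega⟩
  have h1 := key hFac s k hs hk
  have e1 : 10 * s + s - k = s + j := by omega
  have e2 : 10 * s - k = j := by omega
  rw [e1, e2]
  have h2 := choose_bd s j
  have h3 : (202 / y) ^ j * y ^ (10 * s) = 202 ^ j * y ^ k := by
    rw [hj, pow_add, div_pow]; field_simp
  calc |(hc (2 * (s : ℤ) + 1) k : ℝ)| * ((s + j).choose s : ℝ) * 2 ^ j * y ^ k *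
      ((10 * s).choose s : ℝ)
      = (|(hc (2 * (s : ℤ) + 1) k : ℝ)| * ((10 * s).choose s : ℝ)) *
          (((s + j).choose s : ℝ)) * (2 ^ j * y ^ k) := by ring
    _ ≤ (((s : ℝ) + 1) * 4 ^ (10 * s)) * ((1.01 : ℝ) ^ (s + j) * 100 ^ j) * (2 ^ j * y ^ k) := by
        apply mul_le_mul_of_nonneg_right _ (by positivity)
        exact mul_le_mul h1 h2 (by positivity) (by positivity)
    _ = (((s : ℝ) + 1) * 4 ^ (10 * s)) * (1.01 : ℝ) ^ s * ((1.01 * 100 * 2) ^ j * y ^ k) := by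
        rw [pow_add, mul_pow, mul_pow]; ring
    _ = (((s : ℝ) + 1) * 4 ^ (10 * s)) * (1.01 : ℝ) ^ s * (202 ^ j * y ^ k) := by norm_num
    _ = (((s : ℝ) + 1) * 4 ^ (10 * s)) * (1.01 : ℝ) ^ s * ((202 / y) ^ j * y ^ (10 * s)) := by
        rw [h3]
    _ = ((s : ℝ) + 1) * (1.01 : ℝ) ^ s * (4 * y) ^ (10 * s) * (202 / y) ^ j := by
        rw [mul_pow]; ring

theorem geom (r : ℝ) (h0 : 0 ≤ r) (h1 : r ≤ 1 / 2) (n : ℕ) : ∑ j ∈ range n, r ^ j ≤ 4 := by
  have h := geom_sum_mul_neg r n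
  have h2 : 0 ≤ r ^ n := pow_nonneg h0 n
  have h3 : 0 ≤ ∑ j ∈ range n, r ^ j := Finset.sum_nonneg fun j _ => pow_nonneg h0 j
  nlinarith

end SizePX

open SizePX

theorem prfSizeP (hFac : HcFac) : SizeP := by
  intro s y hs hy
  have hyR : (28561 : ℝ) ≤ (y : ℝ) := by exact_mod_cast hy
  have hy0 : (0 : ℝ) < (y : ℝ) := by linarith
  have hPP : (PP (10 * s) s y : ℝ) = ∑ k ∈ range (10 * s + 1),
      ((-1) ^ k * (hc (2 * (s : ℤ) + 1) k : ℝ) * ((10 * s + s - k).choose s : ℝ)) *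
        2 ^ (10 * s - k) * (y : ℝ) ^ k := by
    unfold PP pc
    push_cast
    rfl
  rw [hPP]
  have habs : |∑ k ∈ range (10 * s + 1),
      ((-1) ^ k * (hc (2 * (s : ℤ) + 1) k : ℝ) * ((10 * s + s - k).choose s : ℝ)) *
        2 ^ (10 * s - k) * (y : ℝ) ^ k| ≤ ∑ k ∈ range (10 * s + 1),
      |(hc (2 * (s : ℤ) + 1) k : ℝ)| * ((10 * s + s - k).choose s : ℝ) * 2 ^ (10 * s - k) *
        (y : ℝ) ^ k := by
    refine (Finset.abs_sum_le_sum_abs _ _).trans (Finset.sum_le_sum fun k _ => le_of_eq ?_)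
    rw [abs_mul, abs_mul, abs_mul, abs_mul, abs_pow, abs_neg, abs_one, one_pow, one_mul,
      abs_of_nonneg (by positivity : (0 : ℝ) ≤ ((10 * s + s - k).choose s : ℝ)),
      abs_of_nonneg (by positivity : (0 : ℝ) ≤ (2 : ℝ) ^ (10 * s - k)),
      abs_of_nonneg (by positivity : (0 : ℝ) ≤ (y : ℝ) ^ k)]
  have hc0 : (0 : ℝ) ≤ ((10 * s).choose s : ℝ) := by positivity
  have hr1 : (202 / (y : ℝ)) ≤ 1 / 2 := by
    rw [div_le_iff₀ hy0]; linarith
  calc _ ≤ (∑ k ∈ range (10 * s + 1),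
      |(hc (2 * (s : ℤ) + 1) k : ℝ)| * ((10 * s + s - k).choose s : ℝ) * 2 ^ (10 * s - k) *
        (y : ℝ) ^ k) * ((10 * s).choose s : ℝ) := mul_le_mul_of_nonneg_right habs hc0
    _ = ∑ k ∈ range (10 * s + 1),
      |(hc (2 * (s : ℤ) + 1) k : ℝ)| * ((10 * s + s - k).choose s : ℝ) * 2 ^ (10 * s - k) *
        (y : ℝ) ^ k * ((10 * s).choose s : ℝ) := by rw [Finset.sum_mul]
    _ ≤ ∑ k ∈ range (10 * s + 1), ((s : ℝ) + 1) * (1.01 : ℝ) ^ s * (4 * (y : ℝ)) ^ (10 * s) *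
        (202 / (y : ℝ)) ^ (10 * s - k) :=
        Finset.sum_le_sum fun k hk => term hFac s k y hs
          (by have := Finset.mem_range.1 hk; omega) hy0
    _ = ((s : ℝ) + 1) * (1.01 : ℝ) ^ s * (4 * (y : ℝ)) ^ (10 * s) *
        ∑ j ∈ range (10 * s + 1), (202 / (y : ℝ)) ^ j := by
        rw [← Finset.mul_sum, Finset.sum_flip (fun j => (202 / (y : ℝ)) ^ j)]
    _ ≤ ((s : ℝ) + 1) * (1.01 : ℝ) ^ s * (4 * (y : ℝ)) ^ (10 * s) * 4 :=
        mul_le_mul_of_nonneg_left (geom _ (by positivity) hr1 _) (by positivity)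
    _ = _ := by ring

end Pool.Agent.Work.MP_8d13b5_lc.Ex

end

section

/-!
# Item SizeQ: upper bound for the denominators
-/

open Finset

namespace Pool.Agent.Work.MP_8d13b5_lc.Ex

namespace SizeQX

/-- Size of the coefficients `hc`. -/
theorem hc_le (hFac : HcFac) (n k : ℕ) (hk : k ≤ n) :
    |hc (2 * n - 1) k| ≤ 4 ^ k * (n.choose k : ℤ) := by
  have h0 : (0 : ℤ) < (k.factorial : ℤ) := by exact_mod_cast k.factorial_pos
  have h1 := hFac (2 * n - 1) k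
  have h2 : ∀ i ∈ range k, (0 : ℤ) ≤ 2 * n - 1 - 2 * (i : ℤ) := by
    intro i hi
    have := mem_range.1 hi
    omega
  have h3 : 0 ≤ (k.factorial : ℤ) * hc (2 * n - 1) k := by
    rw [h1]
    exact mul_nonneg (by positivity) (prod_nonneg h2)
  have h4 : 0 ≤ hc (2 * n - 1) k := nonneg_of_mul_nonneg_right h3 h0
  rw [abs_of_nonneg h4]
  refine le_of_mul_le_mul_left ?_ h0
  rw [h1]
  have h5 : ∏ i ∈ range k, (2 * (n : ℤ) - 1 - 2 * (i : ℤ)) ≤
      ∏ i ∈ range k, (2 * ((n - i : ℕ) : ℤ)) := by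
    refine prod_le_prod h2 fun i hi => ?_
    have := mem_range.1 hi
    rw [Nat.cast_sub (by omega)]
    linarith
  have h6 : ∏ i ∈ range k, (2 * ((n - i : ℕ) : ℤ)) = 2 ^ k * (n.descFactorial k : ℤ) := by
    rw [prod_mul_distrib, prod_const, card_range, Nat.descFactorial_eq_prod_range]
    push_cast
    rfl
  have h7 : (n.descFactorial k : ℤ) = k.factorial * n.choose k := by
    exact_mod_cast Nat.descFactorial_eq_factorial_mul_choose n k
  calc (2 : ℤ) ^ k * ∏ i ∈ range k, (2 * (n : ℤ) - 1 - 2 * (i : ℤ))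
      ≤ 2 ^ k * (2 ^ k * (n.descFactorial k : ℤ)) := by
        rw [← h6]
        exact mul_le_mul_of_nonneg_left h5 (by positivity)
    _ = k.factorial * (4 ^ k * (n.choose k : ℤ)) := by
        rw [h7, show (4 : ℤ) = 2 * 2 by norm_num, mul_pow]
        ring

/-- Binomial coefficients increase below the middle. -/
theorem choose_mono {n : ℕ} : ∀ {b : ℕ}, 2 * b ≤ n → ∀ {a : ℕ}, a ≤ b →
    n.choose a ≤ n.choose b := by
  intro b
  induction b with
  | zero => intro _ a ha; rw [Nat.le_zero.1 ha]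
  | succ b ih =>
    intro hb a ha
    rcases Nat.lt_or_ge a (b + 1) with h | h
    · exact (ih (by omega) (by omega)).trans (Nat.choose_le_succ_of_lt_half_left (by omega))
    · rw [le_antisymm ha h]

theorem choose_bound (m j : ℕ) :
    ((m + j).choose j : ℝ) ≤ (1.01 : ℝ) ^ m * 101 ^ j := by
  have h1 : ((m + j).choose j : ℝ) * (1 / 100 : ℝ) ^ j ≤ (1.01 : ℝ) ^ (m + j) := by
    have h2 := add_pow (1 / 100 : ℝ) 1 (m + j)
    have h3 : (1 / 100 : ℝ) + 1 = 1.01 := by norm_num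
    rw [h3] at h2
    rw [h2]
    have h4 := single_le_sum (f := fun i => (1 / 100 : ℝ) ^ i * 1 ^ (m + j - i) *
      ((m + j).choose i : ℝ)) (s := range (m + j + 1)) (fun i _ => by positivity)
      (mem_range.2 (show j < m + j + 1 by omega))
    refine le_trans (le_of_eq ?_) h4
    simp only [one_pow, mul_one]
    ring
  have h5 : (1.01 : ℝ) ^ (m + j) = (1.01 ^ m * 101 ^ j) * (1 / 100 : ℝ) ^ j := by
    rw [pow_add, mul_assoc, ← mul_pow]
    norm_num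
  rw [h5] at h1
  exact le_of_mul_le_mul_right h1 (by positivity)

theorem term (hFac : HcFac) {s j : ℕ} {y : ℤ} (hs : 1 ≤ s) (hj : j ≤ s) (hy : 28561 ≤ y) :
    |((qc (10 * s) s (s - j) * 2 ^ (10 * s - (s - j)) * y ^ (s - j) : ℤ) : ℝ)| ≤
      ((1.01 : ℝ) ^ (10 * s) * 2 ^ (11 * s) * (y : ℝ) ^ s * ((10 * s).choose s : ℝ)) *
        (1 / 2) ^ j := by
  obtain ⟨k, rfl⟩ : ∃ k, s = k + j := ⟨s - j, by omega⟩
  have hyR : (28561 : ℝ) ≤ y := by exact_mod_cast hy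
  rw [Nat.add_sub_cancel]
  set s := k + j with hsdef
  have e1 : ((10 * s + s - k).choose (10 * s) : ℝ) ≤ (1.01 : ℝ) ^ (10 * s) * 101 ^ j := by
    have : 10 * s + s - k = 10 * s + j := by omega
    rw [this, show (10 * s + j).choose (10 * s) = (10 * s + j).choose j from
      Nat.choose_symm_of_eq_add rfl]
    exact choose_bound _ _
  have e2 : |((hc (2 * (10 * s : ℕ) - 1) k : ℤ) : ℝ)| ≤ 4 ^ k * ((10 * s).choose s : ℝ) := by
    have h1 := hc_le hFac (10 * s) k (by omega)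
    have h2 : ((|hc (2 * (10 * s : ℕ) - 1) k| : ℤ) : ℝ) ≤
        ((4 ^ k * ((10 * s).choose k : ℤ) : ℤ) : ℝ) := by exact_mod_cast h1
    rw [Int.cast_abs] at h2
    refine h2.trans ?_
    push_cast
    refine mul_le_mul_of_nonneg_left ?_ (by positivity)
    exact_mod_cast choose_mono (by omega) (by omega)
  have e3 : |((qc (10 * s) s k * 2 ^ (10 * s - k) * y ^ k : ℤ) : ℝ)| =
      |((hc (2 * (10 * s : ℕ) - 1) k : ℤ) : ℝ)| * ((10 * s + s - k).choose (10 * s) : ℝ) *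
        2 ^ (10 * s - k) * (y : ℝ) ^ k := by
    unfold qc
    push_cast
    rw [abs_mul, abs_mul, abs_mul, abs_mul, abs_pow, abs_neg, abs_one, one_pow, one_mul,
      Nat.abs_cast, abs_pow, abs_pow, abs_of_pos (show (0 : ℝ) < 2 by norm_num),
      abs_of_pos (show (0 : ℝ) < y by linarith)]
  rw [e3]
  have e4 : (101 : ℝ) ^ j ≤ (y : ℝ) ^ j := pow_le_pow_left₀ (by norm_num) (by linarith) j
  have e5 : (4 : ℝ) ^ k * 2 ^ (10 * s - k) * 2 ^ j = 2 ^ (11 * s) := by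
    rw [show (4 : ℝ) = 2 * 2 by norm_num, mul_pow, ← pow_add, ← pow_add, ← pow_add]
    congr 1
    omega
  have hy0 : (0 : ℝ) ≤ (y : ℝ) := by linarith
  calc |((hc (2 * (10 * s : ℕ) - 1) k : ℤ) : ℝ)| * ((10 * s + s - k).choose (10 * s) : ℝ) *
        2 ^ (10 * s - k) * (y : ℝ) ^ k
      ≤ (4 ^ k * ((10 * s).choose s : ℝ)) * ((1.01 : ℝ) ^ (10 * s) * 101 ^ j) *
        2 ^ (10 * s - k) * (y : ℝ) ^ k := by
        gcongr
    _ ≤ (4 ^ k * ((10 * s).choose s : ℝ)) * ((1.01 : ℝ) ^ (10 * s) * (y : ℝ) ^ j) *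
        2 ^ (10 * s - k) * (y : ℝ) ^ k := by
        gcongr
    _ = ((1.01 : ℝ) ^ (10 * s) * 2 ^ (11 * s) * (y : ℝ) ^ s * ((10 * s).choose s : ℝ)) *
        (1 / 2) ^ j := by
        rw [← e5, hsdef, pow_add (y : ℝ) k j]
        have : (2 : ℝ) ^ j * (1 / 2) ^ j = 1 := by
          rw [← mul_pow]
          norm_num
        linear_combination (-(4 ^ k * ((10 * (k + j)).choose (k + j) : ℝ) *
          (1.01 : ℝ) ^ (10 * (k + j)) * (y : ℝ) ^ j * 2 ^ (10 * (k + j) - k) * (y : ℝ) ^ k)) * this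

end SizeQX

theorem prfSizeQ (hFac : HcFac) : SizeQ := by
  intro s y hs hy
  have hyR : (28561 : ℝ) ≤ y := by exact_mod_cast hy
  unfold QQ
  rw [← sum_flip, Int.cast_sum]
  refine (abs_sum_le_sum_abs _ _).trans ?_
  refine (sum_le_sum fun j hj => SizeQX.term hFac hs (Nat.lt_succ_iff.1 (mem_range.1 hj)) hy).trans
    ?_
  rw [← mul_sum]
  have h1 := sum_geometric_two_le (s + 1)
  have h2 : (0 : ℝ) ≤ (1.01 : ℝ) ^ (10 * s) * 2 ^ (11 * s) * (y : ℝ) ^ s *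
      ((10 * s).choose s : ℝ) := by
    have : (0 : ℝ) ≤ y := by linarith
    positivity
  have h3 := mul_le_mul_of_nonneg_left h1 h2
  linarith

end Pool.Agent.Work.MP_8d13b5_lc.Ex

end

section

open Finset

namespace Pool.Agent.Work.MP_8d13b5_lc.Ex

namespace BinomX

/-- the terms of the binomial sum -/
def tm (s k : ℕ) : ℕ := (10 * s).choose k * 9 ^ (10 * s - k)

theorem sum_tm (s : ℕ) : 10 ^ (10 * s) = ∑ k ∈ range (10 * s + 1), tm s k := by
  have h := add_pow (1 : ℕ) 9 (10 * s)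
  rw [show (1 : ℕ) + 9 = 10 by norm_num] at h
  rw [h]
  refine Finset.sum_congr rfl fun k _ => ?_
  unfold tm
  rw [one_pow, one_mul, mul_comm]
  rfl

/-- ratio of consecutive terms -/
theorem ratio {s k : ℕ} (hk : k < 10 * s) :
    tm s (k + 1) * (9 * (k + 1)) = tm s k * (10 * s - k) := by
  unfold tm
  have h1 := Nat.choose_succ_right_eq (10 * s) k
  have h2 : 10 * s - k = (10 * s - (k + 1)) + 1 := by omega
  have h3 : 9 ^ (10 * s - k) = 9 ^ (10 * s - (k + 1)) * 9 := by rw [h2, pow_succ]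
  calc (10 * s).choose (k + 1) * 9 ^ (10 * s - (k + 1)) * (9 * (k + 1))
      = ((10 * s).choose (k + 1) * (k + 1)) * (9 ^ (10 * s - (k + 1)) * 9) := by ring
    _ = ((10 * s).choose k * (10 * s - k)) * 9 ^ (10 * s - k) := by rw [h1, h3]
    _ = (10 * s).choose k * 9 ^ (10 * s - k) * (10 * s - k) := by ring

theorem up {s k : ℕ} (hk : k < s) : tm s k ≤ tm s (k + 1) := by
  have h1 := ratio (s := s) (k := k) (by omega)
  have h2 : 9 * (k + 1) ≤ 10 * s - k := by omega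
  have h3 : tm s k * (9 * (k + 1)) ≤ tm s (k + 1) * (9 * (k + 1)) := by
    rw [h1]; exact Nat.mul_le_mul_left _ h2
  exact Nat.le_of_mul_le_mul_right h3 (by omega)

theorem down {s k : ℕ} (hk : s ≤ k) (hk' : k < 10 * s) : tm s (k + 1) ≤ tm s k := by
  have h1 := ratio (s := s) (k := k) hk'
  have h2 : 10 * s - k ≤ 9 * (k + 1) := by omega
  have h3 : tm s (k + 1) * (9 * (k + 1)) ≤ tm s k * (9 * (k + 1)) := by
    rw [h1]; exact Nat.mul_le_mul_left _ h2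
  exact Nat.le_of_mul_le_mul_right h3 (by omega)

theorem le_left {s : ℕ} : ∀ d k : ℕ, k + d = s → tm s k ≤ tm s s
  | 0, k, h => by rw [show k = s by omega]
  | d + 1, k, h => (up (by omega)).trans (le_left d (k + 1) (by omega))

theorem le_right {s : ℕ} : ∀ d : ℕ, s + d ≤ 10 * s → tm s (s + d) ≤ tm s s
  | 0, _ => le_rfl
  | d + 1, h => (down (s := s) (k := s + d) (by omega) (by omega)).trans (le_right d (by omega))

theorem le_top {s k : ℕ} (hk : k ≤ 10 * s) : tm s k ≤ tm s s := by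
  rcases le_total k s with h | h
  · exact le_left (s - k) k (by omega)
  · have := le_right (s := s) (k - s) (by omega)
    rwa [show s + (k - s) = k by omega] at this

theorem tm_self (s : ℕ) : tm s s = (10 * s).choose s * 9 ^ (9 * s) := by
  unfold tm
  rw [show 10 * s - s = 9 * s by omega]

end BinomX

theorem prfBinom : Binom := by
  intro s
  rw [← BinomX.tm_self, BinomX.sum_tm]
  constructor
  · exact Finset.single_le_sum (f := fun k => BinomX.tm s k) (fun _ _ => Nat.zero_le _)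
      (Finset.mem_range.2 (by omega))
  · have h := Finset.sum_le_card_nsmul (range (10 * s + 1)) (fun k => BinomX.tm s k)
      (BinomX.tm s s) (fun k hk => BinomX.le_top (by
        have := Finset.mem_range.1 hk
        omega))
    rw [Finset.card_range, smul_eq_mul] at h
    exact h

end Pool.Agent.Work.MP_8d13b5_lc.Ex

end

section

open Finset

namespace Pool.Agent.Work.MP_8d13b5_lc.Ex

namespace CoreIneqX

/-- the element of the quotient ring of a Gaussian integer -/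
theorem vanish {R : Type*} [CommRing R] {j e y : R} {u : ℤ} {n : ℕ} (hj : j ^ 2 = -1)
    (hje : j = -((2 * u - 1 : ℤ) : R) + y * e) (hy : y = ((2 * u ^ 2 - 2 * u + 1 : ℤ) : R))
    (hyn : y ^ n = 0) {z : GaussianInt} (hz : bet u ^ n ∣ z) :
    (z.re : R) + (z.im : R) * j = 0 := by
  have hjj : j * j = ((-1 : ℤ) : R) := by
    rw [← sq, hj]; push_cast; ring
  have hl : ∀ w : GaussianInt, Zsqrtd.lift ⟨j, hjj⟩ w = (w.re : R) + (w.im : R) * j := fun w => rfl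
  obtain ⟨t, rfl⟩ := hz
  rw [← hl, map_mul, map_pow, hl]
  have h1 : ((bet u).re : R) + ((bet u).im : R) * j = y * (1 + (1 - (u : R)) * e) := by
    have e1 : (bet u).re = u := rfl
    have e2 : (bet u).im = 1 - u := rfl
    rw [e1, e2]
    have e3 : (u : R) + ((1 - u : ℤ) : R) * j
        = (u : R) + (1 - (u : R)) * (-((2 * u - 1 : ℤ) : R) + y * e) := by
      rw [← hje]; push_cast; ring
    rw [e3]
    have e4 : y = 2 * (u : R) ^ 2 - 2 * (u : R) + 1 := by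
      rw [hy]; push_cast; ring
    push_cast
    linear_combination (1 : R) * (- e4)
  rw [h1, mul_pow, hyn, zero_mul, zero_mul]

/-- combination of the divisibilities -/
theorem count {S : Finset ℕ} (hS : ∀ p ∈ S, p.Prime) {y k D : ℕ} (hy : 0 < y) (hD : D ≠ 0)
    (h1 : ∀ p ∈ S, p ∣ D) (h2 : y ^ (k + 1) ∣ D) : (∏ p ∈ S, p) * y ^ k ≤ D := by
  have hsplit := Finset.prod_filter_mul_prod_filter_not S (fun p => p ∣ y) (fun p => p)
  have hB : ∏ p ∈ S.filter (fun p => p ∣ y), p ∣ y :=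
    Finset.prod_primes_dvd y (fun p hp => (hS p (Finset.mem_filter.1 hp).1).prime)
      (fun p hp => (Finset.mem_filter.1 hp).2)
  have hA : ∏ p ∈ S.filter (fun p => ¬ p ∣ y), p ∣ D :=
    Finset.prod_primes_dvd D (fun p hp => (hS p (Finset.mem_filter.1 hp).1).prime)
      (fun p hp => h1 p (Finset.mem_filter.1 hp).1)
  have hcop : Nat.Coprime (∏ p ∈ S.filter (fun p => ¬ p ∣ y), p) (y ^ (k + 1)) := by
    apply Nat.Coprime.pow_right
    apply Nat.Coprime.prod_left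
    intro p hp
    rw [Finset.mem_filter] at hp
    exact (Nat.Prime.coprime_iff_not_dvd (hS p hp.1)).2 hp.2
  have h3 := hcop.mul_dvd_of_dvd_of_dvd hA h2
  have h4 := Nat.le_of_dvd (Nat.pos_of_ne_zero hD) h3
  have h5 := Nat.le_of_dvd hy hB
  calc (∏ p ∈ S, p) * y ^ k
      = (∏ p ∈ S.filter (fun p => p ∣ y), p) * ((∏ p ∈ S.filter (fun p => ¬ p ∣ y), p) * y ^ k) := by
        rw [← mul_assoc, hsplit]
    _ ≤ y * ((∏ p ∈ S.filter (fun p => ¬ p ∣ y), p) * y ^ k) := Nat.mul_le_mul_right _ h5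
    _ = (∏ p ∈ S.filter (fun p => ¬ p ∣ y), p) * y ^ (k + 1) := by rw [pow_succ]; ring
    _ ≤ D := h4

end CoreIneqX

theorem prfCoreIneq (hC : Cong) (hN : NonV) (hK : Content) : CoreIneq := by
  intro s u z hs hu hz hre hre2
  have hpos : (0 : ℤ) ≤ u ^ 2 + (u - 1) ^ 2 := by positivity
  have hyZ : ((yy u : ℕ) : ℤ) = u ^ 2 + (u - 1) ^ 2 := by
    unfold yy
    rw [Int.natCast_natAbs, abs_of_nonneg hpos]
  have hy2 : ((yy u : ℕ) : ℤ) = 2 * (u ^ 2 - u) + 1 := by rw [hyZ]; ring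
  have hodd : Odd ((yy u : ℕ) : ℤ) := ⟨u ^ 2 - u, hy2⟩
  have hoddN : Odd (yy u) := by exact_mod_cast hodd
  have hy0 : 0 < yy u := hoddN.pos
  have hC' := hC (10 * s) s (yy u) (2 * u - 1) (by omega) hoddN (by
    rw [hyZ]; ring)
  obtain ⟨n, hn⟩ : ∃ n, n = 10 * s + s + 1 := ⟨_, rfl⟩
  rw [← hn] at hC'
  obtain ⟨j, e, hj, hje, hPQ⟩ := hC'
  have hyn : ((yy u : ℕ) : ZMod (yy u ^ n)) ^ n = 0 := by
    rw [← Nat.cast_pow]
    exact ZMod.natCast_self _
  have h0 := CoreIneqX.vanish (R := ZMod (yy u ^ n)) (u := u) (n := n) (z := z) hj hje (by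
    have : ((yy u : ℕ) : ZMod (yy u ^ n)) = (((yy u : ℕ) : ℤ) : ZMod (yy u ^ n)) := by push_cast; rfl
    rw [this, hyZ]
    congr 1
    ring) hyn (by rw [hn, show 10 * s + s + 1 = 11 * s + 1 by ring]; exact hz)
  have h1 : (z.im : ZMod (yy u ^ n)) = z.re * j := by
    have h2 := congrArg (· * j) h0
    simp only [zero_mul] at h2
    have h3 : (z.im : ZMod (yy u ^ n)) * j ^ 2 = - (z.im : ZMod (yy u ^ n)) := by rw [hj]; ring
    linear_combination h3 - h2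
  obtain ⟨Δ, hΔ⟩ : ∃ Δ : ℤ, Δ = z.re * PP (10 * s) s (yy u)
      - (2 * u - 1) * z.im * QQ (10 * s) s (yy u) := ⟨_, rfl⟩
  rw [← hΔ]
  have hΔ0 : (Δ : ZMod (yy u ^ n)) = 0 := by
    rw [hΔ]
    push_cast
    push_cast at hPQ
    rw [hPQ, h1]
    ring
  have hdvd : ((yy u ^ n : ℕ) : ℤ) ∣ Δ := (ZMod.intCast_zmod_eq_zero_iff_dvd _ _).1 hΔ0
  have hdvdN : yy u ^ (11 * s + 1) ∣ Δ.natAbs := by
    rw [show 11 * s + 1 = n by rw [hn]; ring]
    exact Int.natCast_dvd.1 hdvd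
  have hne : Δ ≠ 0 := by
    have := hN s (yy u) (2 * u - 1) z.re (- z.im) hs hodd hre hre2
    intro h
    apply this
    rw [← h, hΔ]
    ring
  refine CoreIneqX.count (fun p hp => ?_) hy0 (Int.natAbs_ne_zero.2 hne) (fun p hp => ?_) hdvdN
  · unfold prS at hp
    exact (Finset.mem_filter.1 hp).2.1
  · obtain ⟨h5, h6⟩ := hK s p (yy u) hp
    apply Int.natCast_dvd.1
    rw [hΔ]
    exact dvd_sub (Dvd.dvd.mul_left h5 _) (Dvd.dvd.mul_left h6 _)

end Pool.Agent.Work.MP_8d13b5_lc.Ex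

end

section

open Finset

namespace Pool.Agent.Work.MP_8d13b5_lc.Ex

namespace BoundX

theorem exp_ge : (1.568 : ℝ) ≤ Real.exp 0.45 := by
  have h := Real.sum_le_exp_of_nonneg (x := (0.45 : ℝ)) (by norm_num) 6
  refine le_trans ?_ h
  norm_num [Finset.sum_range_succ, Nat.factorial]

theorem numA : (1.01 : ℝ) * 4 ^ 10 * 9 ^ 9 ≤ 0.93 * (10 ^ 10 * Real.exp 0.45 * 28561) := by
  have := exp_ge
  nlinarith

theorem numD : (1.01 : ℝ) * (1.01 ^ 10 * 2 ^ 11 * 10 ^ 10) ≤ 38000 * (Real.exp 0.45 * 9 ^ 9) := by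
  have := exp_ge
  nlinarith

theorem ev1 : ∃ s₁ : ℕ, ∀ s : ℕ, s₁ ≤ s → 8 * ((s : ℝ) + 1) * (10 * (s : ℝ) + 1) * 0.94 ^ s ≤ 1 := by
  have h0 := tendsto_pow_const_mul_const_pow_of_abs_lt_one 2 (r := (0.94 : ℝ)) (by
    rw [abs_of_pos] <;> norm_num)
  have h1 := tendsto_pow_const_mul_const_pow_of_abs_lt_one 1 (r := (0.94 : ℝ)) (by
    rw [abs_of_pos] <;> norm_num)
  have h2 := tendsto_pow_const_mul_const_pow_of_abs_lt_one 0 (r := (0.94 : ℝ)) (by
    rw [abs_of_pos] <;> norm_num)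
  have h3 := ((h0.const_mul 80).add (h1.const_mul 88)).add (h2.const_mul 8)
  have h4 : ∀ᶠ n : ℕ in Filter.atTop, 80 * ((n : ℝ) ^ 2 * 0.94 ^ n) + 88 * ((n : ℝ) ^ 1 * 0.94 ^ n)
      + 8 * ((n : ℝ) ^ 0 * 0.94 ^ n) ≤ 1 :=
    h3.eventually_le_const (by norm_num)
  obtain ⟨s₁, hs⟩ := Filter.eventually_atTop.1 h4
  refine ⟨s₁, fun s h => ?_⟩
  have := hs s h
  refine le_trans (le_of_eq ?_) this
  ring

theorem ev2 : ∃ s₂ : ℕ, ∀ s : ℕ, s₂ ≤ s → 8 * (1.005 : ℝ) ^ s ≤ 1.01 ^ s := by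
  have h0 : Filter.Tendsto (fun n : ℕ => (1.005 / 1.01 : ℝ) ^ n) Filter.atTop (nhds 0) :=
    tendsto_pow_atTop_nhds_zero_of_lt_one (by norm_num) (by norm_num)
  have h1 : ∀ᶠ n : ℕ in Filter.atTop, (1.005 / 1.01 : ℝ) ^ n ≤ 1 / 8 :=
    h0.eventually_le_const (by norm_num)
  obtain ⟨s₂, hs⟩ := Filter.eventually_atTop.1 h1
  refine ⟨s₂, fun s h => ?_⟩
  have h2 := hs s h
  rw [div_pow, div_le_iff₀ (by positivity)] at h2
  linarith

theorem exp_le {C s : ℕ} (hC : 201 ≤ C) : Real.exp ((s : ℝ) / C) ≤ 1.005 ^ s := by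
  have hC' : (201 : ℝ) ≤ C := by exact_mod_cast hC
  have h1 : Real.exp (1 / (C : ℝ)) ≤ 1.005 := by
    have h2 : 1 / (C : ℝ) ≤ 1 / 201 := one_div_le_one_div_of_le (by norm_num) hC'
    have h3 : Real.exp (1 / (C : ℝ)) ≤ Real.exp (1 / 201) := Real.exp_le_exp.2 h2
    have h4 := Real.exp_bound_div_one_sub_of_interval (x := (1 / 201 : ℝ)) (by norm_num)
      (by norm_num)
    refine (h3.trans h4).trans ?_
    norm_num
  have h5 : (s : ℝ) / C = (s : ℝ) * (1 / (C : ℝ)) := by ring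
  rw [h5, Real.exp_nat_mul]
  exact pow_le_pow_left₀ (Real.exp_pos _).le h1 s

/-- the numerator is small -/
theorem stepA {c P ch y : ℝ} {s : ℕ} (hc : 0 ≤ c) (hP : 0 ≤ P) (hy : 28561 ≤ y)
    (h1 : P * ch ≤ 4 * ((s : ℝ) + 1) * (1.01 : ℝ) ^ s * (4 * y) ^ (10 * s))
    (h2 : (10 : ℝ) ^ (10 * s) ≤ (10 * (s : ℝ) + 1) * (ch * 9 ^ (9 * s)))
    (h3 : 8 * c * ((s : ℝ) + 1) * (10 * (s : ℝ) + 1) * 0.93 ^ s ≤ 1) :
    c * P ≤ 1 / 2 * (Real.exp 0.45 ^ s * y ^ (11 * s)) := by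
  have hX : (0 : ℝ) < 10 ^ (10 * s) := by positivity
  have hy0 : 0 < y := by linarith
  have e1 : c * P * 10 ^ (10 * s) ≤ c * ((10 * (s : ℝ) + 1) * 9 ^ (9 * s)) *
      (4 * ((s : ℝ) + 1) * (1.01 : ℝ) ^ s * (4 * y) ^ (10 * s)) := by
    calc c * P * 10 ^ (10 * s) ≤ c * P * ((10 * (s : ℝ) + 1) * (ch * 9 ^ (9 * s))) :=
          mul_le_mul_of_nonneg_left h2 (by positivity)
      _ = c * ((10 * (s : ℝ) + 1) * 9 ^ (9 * s)) * (P * ch) := by ring
      _ ≤ _ := mul_le_mul_of_nonneg_left h1 (by positivity)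
  have e2 : c * ((10 * (s : ℝ) + 1) * 9 ^ (9 * s)) *
      (4 * ((s : ℝ) + 1) * (1.01 : ℝ) ^ s * (4 * y) ^ (10 * s))
      = 1 / 2 * (8 * c * ((s : ℝ) + 1) * (10 * (s : ℝ) + 1) *
        ((1.01 : ℝ) * 4 ^ 10 * 9 ^ 9) ^ s) * y ^ (10 * s) := by
    rw [mul_pow (4 : ℝ) y, mul_pow, mul_pow, ← pow_mul, ← pow_mul]
    ring
  have e3 : ((1.01 : ℝ) * 4 ^ 10 * 9 ^ 9) ^ s ≤
      0.93 ^ s * (10 ^ 10 * Real.exp 0.45 * 28561) ^ s := by
    rw [← mul_pow]
    exact pow_le_pow_left₀ (by positivity) numA s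
  have e4 : 8 * c * ((s : ℝ) + 1) * (10 * (s : ℝ) + 1) * ((1.01 : ℝ) * 4 ^ 10 * 9 ^ 9) ^ s ≤
      (10 ^ 10 * Real.exp 0.45 * 28561) ^ s := by
    calc 8 * c * ((s : ℝ) + 1) * (10 * (s : ℝ) + 1) * ((1.01 : ℝ) * 4 ^ 10 * 9 ^ 9) ^ s
        ≤ 8 * c * ((s : ℝ) + 1) * (10 * (s : ℝ) + 1) *
          (0.93 ^ s * (10 ^ 10 * Real.exp 0.45 * 28561) ^ s) :=
          mul_le_mul_of_nonneg_left e3 (by positivity)
      _ = (8 * c * ((s : ℝ) + 1) * (10 * (s : ℝ) + 1) * 0.93 ^ s) *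
          (10 ^ 10 * Real.exp 0.45 * 28561) ^ s := by ring
      _ ≤ 1 * (10 ^ 10 * Real.exp 0.45 * 28561) ^ s :=
          mul_le_mul_of_nonneg_right h3 (by positivity)
      _ = _ := one_mul _
  have e5 : (10 ^ 10 * Real.exp 0.45 * 28561) ^ s ≤
      10 ^ (10 * s) * (Real.exp 0.45 ^ s * y ^ s) := by
    rw [mul_pow, mul_pow, ← pow_mul, mul_assoc]
    have : (28561 : ℝ) ^ s ≤ y ^ s := pow_le_pow_left₀ (by norm_num) hy s
    exact mul_le_mul_of_nonneg_left (mul_le_mul_of_nonneg_left this (by positivity)) hX.le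
  have e6 : c * P * 10 ^ (10 * s) ≤
      (1 / 2 * (Real.exp 0.45 ^ s * y ^ (11 * s))) * 10 ^ (10 * s) := by
    refine e1.trans ?_
    rw [e2]
    calc 1 / 2 * (8 * c * ((s : ℝ) + 1) * (10 * (s : ℝ) + 1) *
        ((1.01 : ℝ) * 4 ^ 10 * 9 ^ 9) ^ s) * y ^ (10 * s)
        ≤ 1 / 2 * (10 ^ (10 * s) * (Real.exp 0.45 ^ s * y ^ s)) * y ^ (10 * s) :=
          mul_le_mul_of_nonneg_right (mul_le_mul_of_nonneg_left (e4.trans e5) (by norm_num))
            (by positivity)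
      _ = _ := by
        rw [show 11 * s = s + 10 * s by ring, pow_add]
        ring
  exact le_of_mul_le_mul_right e6 hX

/-- the second term is large -/
theorem stepB {b M Q ch y : ℝ} {s : ℕ} (hb : 0 < b) (hM : 0 ≤ M) (hy : 28561 ≤ y)
    (_hch : 0 ≤ ch)
    (h1 : Q ≤ 2 * (1.01 : ℝ) ^ (10 * s) * 2 ^ (11 * s) * y ^ s * ch)
    (h2 : ch * 9 ^ (9 * s) ≤ (10 : ℝ) ^ (10 * s))
    (h3 : 4 * b ≤ 1.01 ^ s)
    (h4 : 1 / 2 * (Real.exp 0.45 ^ s * y ^ (11 * s)) ≤ b * M * Q) :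
    (y ^ 10 / 38000) ^ s ≤ M := by
  have hy0 : 0 < y := by linarith
  have hE := Real.exp_pos (0.45 : ℝ)
  have e1 : 1 / 2 * (Real.exp 0.45 ^ s * y ^ (11 * s)) * 9 ^ (9 * s) ≤
      b * M * (2 * (1.01 : ℝ) ^ (10 * s) * 2 ^ (11 * s) * y ^ s * 10 ^ (10 * s)) := by
    calc 1 / 2 * (Real.exp 0.45 ^ s * y ^ (11 * s)) * 9 ^ (9 * s)
        ≤ b * M * Q * 9 ^ (9 * s) := mul_le_mul_of_nonneg_right h4 (by positivity)
      _ ≤ b * M * (2 * (1.01 : ℝ) ^ (10 * s) * 2 ^ (11 * s) * y ^ s * ch) * 9 ^ (9 * s) :=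
          mul_le_mul_of_nonneg_right (mul_le_mul_of_nonneg_left h1 (by positivity)) (by positivity)
      _ = b * M * (2 * (1.01 : ℝ) ^ (10 * s) * 2 ^ (11 * s) * y ^ s * (ch * 9 ^ (9 * s))) := by
          ring
      _ ≤ _ := by
          refine mul_le_mul_of_nonneg_left ?_ (by positivity)
          exact mul_le_mul_of_nonneg_left h2 (by positivity)
  have e2 : (Real.exp 0.45 * 9 ^ 9) ^ s * y ^ (10 * s) ≤
      4 * b * M * (1.01 ^ 10 * 2 ^ 11 * 10 ^ 10) ^ s := by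
    have h5 : (Real.exp 0.45 * 9 ^ 9) ^ s * y ^ (10 * s) * (1 / 2 * y ^ s) ≤
        4 * b * M * (1.01 ^ 10 * 2 ^ 11 * 10 ^ 10) ^ s * (1 / 2 * y ^ s) := by
      rw [mul_pow (Real.exp 0.45), mul_pow, mul_pow, ← pow_mul, ← pow_mul, ← pow_mul, ← pow_mul]
      refine le_trans (le_of_eq ?_) (e1.trans (le_of_eq ?_))
      · rw [show 11 * s = s + 10 * s by ring, pow_add]; ring
      · ring
    exact le_of_mul_le_mul_right h5 (by positivity)
  have e3 : (1.01 : ℝ) ^ s * (1.01 ^ 10 * 2 ^ 11 * 10 ^ 10) ^ s ≤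
      38000 ^ s * (Real.exp 0.45 * 9 ^ 9) ^ s := by
    rw [← mul_pow, ← mul_pow]
    exact pow_le_pow_left₀ (by positivity) numD s
  obtain ⟨G, hG⟩ : ∃ G : ℝ, G = (1.01 ^ 10 * 2 ^ 11 * 10 ^ 10) ^ s := ⟨_, rfl⟩
  have hG0 : 0 < G := by rw [hG]; positivity
  rw [← hG] at e2 e3
  have e4 : 4 * b * y ^ (10 * s) * G ≤ 38000 ^ s * (4 * b * M * G) := by
    calc 4 * b * y ^ (10 * s) * G ≤ 1.01 ^ s * y ^ (10 * s) * G :=
          mul_le_mul_of_nonneg_right (mul_le_mul_of_nonneg_right h3 (by positivity)) hG0.le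
      _ = (1.01 ^ s * G) * y ^ (10 * s) := by ring
      _ ≤ (38000 ^ s * (Real.exp 0.45 * 9 ^ 9) ^ s) * y ^ (10 * s) :=
          mul_le_mul_of_nonneg_right e3 (by positivity)
      _ = 38000 ^ s * ((Real.exp 0.45 * 9 ^ 9) ^ s * y ^ (10 * s)) := by ring
      _ ≤ _ := mul_le_mul_of_nonneg_left e2 (by positivity)
  have e5 : y ^ (10 * s) ≤ 38000 ^ s * M := by
    have h6 : y ^ (10 * s) * (4 * b * G) ≤ 38000 ^ s * M * (4 * b * G) := by
      refine le_trans (le_of_eq ?_) (e4.trans (le_of_eq ?_)) <;> ring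
    exact le_of_mul_le_mul_right h6 (by positivity)
  rw [div_pow, div_le_iff₀ (by positivity), ← pow_mul, mul_comm M]
  exact e5

end BoundX

theorem prfBound (h1 : CoreIneq) (h2 : PrimeProd) (h3 : SizeP) (h4 : SizeQ) (h5 : Binom) :
    Bound := by
  obtain ⟨s₀, hs₀⟩ := h2
  obtain ⟨s₁, hs₁⟩ := BoundX.ev1
  obtain ⟨s₂, hs₂⟩ := BoundX.ev2
  refine ⟨201 + s₀ + s₁ + s₂, ?_⟩
  intro s u z hs hu hz hre hlog
  obtain ⟨C, hC⟩ : ∃ C : ℕ, C = 201 + s₀ + s₁ + s₂ := ⟨_, rfl⟩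
  rw [← hC] at hlog
  have hC201 : 201 ≤ C := by omega
  have hCr : (201 : ℝ) ≤ C := by exact_mod_cast hC201
  have huR : (120 : ℝ) ≤ u := by exact_mod_cast hu
  have hlu : 0 ≤ Real.log u := Real.log_nonneg (by linarith)
  have hc1 : (1 : ℝ) ≤ |(z.re : ℝ)| := by
    have := Int.one_le_abs hre
    exact_mod_cast this
  have hlc : 0 ≤ Real.log |(z.re : ℝ)| := Real.log_nonneg hc1
  have hCs : (C : ℝ) ≤ s := by nlinarith
  have hCs' : C ≤ s := by exact_mod_cast hCs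
  have hdiv : 1 + Real.log u + Real.log |(z.re : ℝ)| ≤ (s : ℝ) / C := by
    rw [le_div_iff₀ (by linarith)]
    linarith
  have hexp := BoundX.exp_le (C := C) (s := s) hC201
  have hcE : |(z.re : ℝ)| ≤ 1.005 ^ s := by
    refine le_trans ?_ hexp
    rw [← Real.exp_log (show 0 < |(z.re : ℝ)| by linarith)]
    exact Real.exp_le_exp.2 (by linarith)
  have huE : (u : ℝ) ≤ 1.005 ^ s := by
    refine le_trans ?_ hexp
    rw [← Real.exp_log (show 0 < (u : ℝ) by linarith)]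
    exact Real.exp_le_exp.2 (by linarith)
  have hre16 : |z.re| < 2 ^ (4 * s) := by
    have e1 : (1.005 : ℝ) ^ s < 16 ^ s := pow_lt_pow_left₀ (by norm_num) (by norm_num) (by omega)
    have e2 : ((|z.re| : ℤ) : ℝ) < 2 ^ (4 * s) := by
      rw [pow_mul]
      push_cast
      norm_num
      norm_num at hcE e1
      linarith
    exact_mod_cast e2
  have hcore := h1 s u z hs hu hz hre hre16
  have hprod := hs₀ s (by omega)
  have hyZ : ((yy u : ℕ) : ℤ) = u ^ 2 + (u - 1) ^ 2 := by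
    unfold yy
    rw [Int.natCast_natAbs, abs_of_nonneg (by positivity)]
  have hy28 : (28561 : ℤ) ≤ (yy u : ℕ) := by rw [hyZ]; nlinarith
  have hy28R : (28561 : ℝ) ≤ (yy u : ℕ) := by exact_mod_cast hy28
  have hP := h3 s (yy u : ℕ) hs hy28
  have hQ := h4 s (yy u : ℕ) hs hy28
  obtain ⟨hb1, hb2⟩ := h5 s
  have hb1R : ((10 * s).choose s : ℝ) * 9 ^ (9 * s) ≤ 10 ^ (10 * s) := by exact_mod_cast hb1
  have hb2R : (10 : ℝ) ^ (10 * s) ≤ (10 * (s : ℝ) + 1) * (((10 * s).choose s : ℝ) * 9 ^ (9 * s)) := by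
    exact_mod_cast hb2
  have hA := BoundX.stepA (c := |(z.re : ℝ)|) (s := s) (abs_nonneg _) (abs_nonneg _) hy28R
    (by simpa using hP) hb2R (by
      have e1 := hs₁ s (by omega)
      have e2 : (1.005 : ℝ) ^ s * 0.93 ^ s ≤ 0.94 ^ s := by
        rw [← mul_pow]
        exact pow_le_pow_left₀ (by norm_num) (by norm_num) s
      calc 8 * |(z.re : ℝ)| * ((s : ℝ) + 1) * (10 * (s : ℝ) + 1) * 0.93 ^ s
          = 8 * ((s : ℝ) + 1) * (10 * (s : ℝ) + 1) * (|(z.re : ℝ)| * 0.93 ^ s) := by ring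
        _ ≤ 8 * ((s : ℝ) + 1) * (10 * (s : ℝ) + 1) * (1.005 ^ s * 0.93 ^ s) :=
            mul_le_mul_of_nonneg_left (mul_le_mul_of_nonneg_right hcE (by positivity))
              (by positivity)
        _ ≤ 8 * ((s : ℝ) + 1) * (10 * (s : ℝ) + 1) * 0.94 ^ s :=
            mul_le_mul_of_nonneg_left e2 (by positivity)
        _ ≤ 1 := e1)
  refine BoundX.stepB (b := 2 * (u : ℝ) - 1) (Q := |(QQ (10 * s) s (yy u : ℕ) : ℝ)|)
    (ch := ((10 * s).choose s : ℝ)) (by linarith) (abs_nonneg _) hy28R (Nat.cast_nonneg _)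
    (by simpa using hQ) hb1R ?_ ?_
  · have e1 := hs₂ s (by omega)
    have : 4 * (2 * (u : ℝ) - 1) ≤ 8 * u := by linarith
    linarith
  · -- the core inequality in reals
    have e1 : ((∏ p ∈ prS s, p : ℕ) : ℝ) * ((yy u : ℕ) : ℝ) ^ (11 * s) ≤
        |(z.re : ℝ)| * |(PP (10 * s) s (yy u : ℕ) : ℝ)|
          + (2 * (u : ℝ) - 1) * |(z.im : ℝ)| * |(QQ (10 * s) s (yy u : ℕ) : ℝ)| := by
      have e2 : (((∏ p ∈ prS s, p) * yy u ^ (11 * s) : ℕ) : ℝ) ≤
          |((z.re * PP (10 * s) s (yy u) - (2 * u - 1) * z.im * QQ (10 * s) s (yy u) : ℤ) : ℝ)| := by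
        rw [← Int.cast_abs, Int.abs_eq_natAbs]
        exact_mod_cast hcore
      push_cast at e2
      push_cast
      refine e2.trans ((abs_sub _ _).trans (le_of_eq ?_))
      rw [abs_mul, abs_mul, abs_mul, abs_of_pos (show 0 < 2 * (u : ℝ) - 1 by linarith)]
    have e3 : Real.exp (0.45 * s) = Real.exp 0.45 ^ s := by
      rw [mul_comm, Real.exp_nat_mul]
    rw [e3] at hprod
    have e4 : Real.exp 0.45 ^ s * ((yy u : ℕ) : ℝ) ^ (11 * s) ≤
        ((∏ p ∈ prS s, p : ℕ) : ℝ) * ((yy u : ℕ) : ℝ) ^ (11 * s) := by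
      push_cast
      exact mul_le_mul_of_nonneg_right hprod (by positivity)
    linarith

end Pool.Agent.Work.MP_8d13b5_lc.Ex

end

section

/-!
# MP_8d13b5_lc, module Ex: the main theorem from the bound
-/


open Finset

namespace Pool.Agent.Work.MP_8d13b5_lc.Ex

namespace MainX

theorem yy_real (u : ℤ) : (yy u : ℝ) = (u : ℝ) ^ 2 + ((u : ℝ) - 1) ^ 2 := by
  have h : ((yy u : ℕ) : ℤ) = u ^ 2 + (u - 1) ^ 2 := by
    unfold yy
    rw [Int.natAbs_of_nonneg (by positivity)]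
  have h2 : ((yy u : ℕ) : ℝ) = (((yy u : ℕ) : ℤ) : ℝ) := by push_cast; rfl
  rw [h2, h]
  push_cast
  ring

theorem one_le_abs {x : ℤ} (hx : x ≠ 0) : (1 : ℝ) ≤ |(x : ℝ)| := by
  have := Int.one_le_abs hx
  rw [← Int.cast_abs]
  exact_mod_cast this

/-- the numerical inequality -/
theorem num {Y l : ℝ} {s : ℕ} (hY : 0 < Y) (hl : Real.log Y ≤ 1 + 2 * l)
    (hs : 200 + 400 * l ≤ s) : (38 / 40 : ℝ) ^ (11 * s) * (Y ^ 10 / 40000) ^ 11 ≤ 1 := by
  have h1 : (38 / 40 : ℝ) ≤ Real.exp (-(1 / 20)) := by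
    have := Real.one_sub_le_exp_neg (1 / 20)
    linarith
  have h2 : (38 / 40 : ℝ) ^ (11 * s) ≤ Real.exp (-(11 / 20 * s)) := by
    calc (38 / 40 : ℝ) ^ (11 * s) ≤ Real.exp (-(1 / 20)) ^ (11 * s) := by gcongr
      _ = Real.exp (-(11 / 20 * s)) := by
          rw [← Real.exp_nat_mul]
          congr 1
          push_cast
          ring
  have h3 : (Y ^ 10 / 40000) ^ 11 ≤ Real.exp (11 / 20 * s) := by
    have h4 : Y ^ 110 = Real.exp (110 * Real.log Y) := by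
      rw [← Real.rpow_natCast, Real.rpow_def_of_pos hY]
      congr 1
      push_cast
      ring
    calc (Y ^ 10 / 40000) ^ 11 ≤ (Y ^ 10) ^ 11 := by
          refine pow_le_pow_left₀ (by positivity) ?_ 11
          exact div_le_self (by positivity) (by norm_num)
      _ = Real.exp (110 * Real.log Y) := by rw [← pow_mul, h4]
      _ ≤ Real.exp (11 / 20 * s) := Real.exp_le_exp.2 (by linarith)
  calc (38 / 40 : ℝ) ^ (11 * s) * (Y ^ 10 / 40000) ^ 11
      ≤ Real.exp (-(11 / 20 * s)) * Real.exp (11 / 20 * s) := by gcongr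
    _ = 1 := by rw [← Real.exp_add, neg_add_cancel, Real.exp_zero]

end MainX

open MainX

theorem prfMain (h : Bound) : Main := by
  obtain ⟨C, hC⟩ := h
  refine ⟨11 * (C + 400) + 22, ?_⟩
  intro m u z hu hz hre hm
  have hur : (120 : ℝ) ≤ u := by exact_mod_cast hu
  have hlu : 0 ≤ Real.log u := Real.log_nonneg (by linarith)
  have hlr : 0 ≤ Real.log |(z.re : ℝ)| := Real.log_nonneg (one_le_abs hre)
  set L : ℝ := 1 + Real.log u + Real.log |(z.re : ℝ)| with hL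
  have hL1 : 1 ≤ L := by linarith
  push_cast at hm
  have hC0 : (0 : ℝ) ≤ C := Nat.cast_nonneg C
  have hCL : 0 ≤ (C : ℝ) * L := by positivity
  set s : ℕ := (m - 1) / 11 with hs
  have hm1 : 1 ≤ m := by
    have h1 : (1 : ℝ) ≤ m := by
      refine le_trans ?_ hm
      nlinarith
    exact_mod_cast h1
  have hs1 : 11 * s + 1 ≤ m := by omega
  have hs2 : m ≤ 11 * s + 11 := by omega
  have hs2r : (m : ℝ) ≤ 11 * s + 11 := by exact_mod_cast hs2
  have hsL : ((C : ℝ) + 400) * L + 1 ≤ s := by nlinarith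
  have hs0 : 1 ≤ s := by
    have h1 : (1 : ℝ) ≤ s := by
      refine le_trans ?_ hsL
      have : 0 ≤ ((C : ℝ) + 400) * L := by positivity
      linarith
    exact_mod_cast h1
  have hdiv : bet u ^ (11 * s + 1) ∣ z := (pow_dvd_pow _ hs1).trans hz
  have hb := hC s u z hs0 hu hdiv hre (by
    change (C : ℝ) * L ≤ s
    nlinarith)
  have hYr := yy_real u
  set Y : ℝ := (yy u : ℝ) with hYdef
  have hY1 : 14400 ≤ Y := by
    rw [hYr]
    nlinarith
  have hY0 : 0 < Y := by linarith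
  have hY2 : Y ≤ 2 * (u : ℝ) ^ 2 := by
    rw [hYr]
    nlinarith
  have hlog : Real.log Y ≤ 1 + 2 * Real.log u := by
    have h1 : Real.log Y ≤ Real.log (2 * (u : ℝ) ^ 2) := Real.log_le_log hY0 hY2
    have h2 : Real.log (2 * (u : ℝ) ^ 2) = Real.log 2 + 2 * Real.log u := by
      rw [Real.log_mul (by norm_num) (by positivity), Real.log_pow]
      norm_num
    have h3 : Real.log 2 ≤ 1 := by
      have := Real.log_two_lt_d9
      linarith
    linarith
  have hnum := num (s := s) hY0 hlog (by nlinarith)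
  have hbase : 1 ≤ Y ^ 10 / 40000 := by
    rw [le_div_iff₀ (by norm_num)]
    calc (1 : ℝ) * 40000 ≤ 14400 ^ 10 := by norm_num
      _ ≤ Y ^ 10 := by gcongr
  have hsplit : (Y ^ 10 / 40000) ^ (11 * s) = (Y ^ 10 / 38000) ^ (11 * s) * (38 / 40) ^ (11 * s) := by
    rw [← mul_pow]
    congr 1
    ring
  calc (Y ^ 10 / 40000) ^ m ≤ (Y ^ 10 / 40000) ^ (11 * s + 11) := pow_le_pow_right₀ hbase hs2
    _ = (Y ^ 10 / 38000) ^ (11 * s) * ((38 / 40) ^ (11 * s) * (Y ^ 10 / 40000) ^ 11) := by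
        rw [pow_add, hsplit, mul_assoc]
    _ ≤ (Y ^ 10 / 38000) ^ (11 * s) * 1 := by gcongr
    _ = ((Y ^ 10 / 38000) ^ s) ^ 11 := by rw [mul_one, ← pow_mul, mul_comm]
    _ ≤ |(z.im : ℝ)| ^ 11 := by gcongr

end Pool.Agent.Work.MP_8d13b5_lc.Ex

end

section

/-!
# Item D1: the bound for the powers of `3 + 2 i`
-/


open Finset

namespace Pool.Agent.Work.MP_8d13b5_lc.Ex

namespace RhoBoundX

lemma rho4 : (⟨3, -2⟩ : GaussianInt) ^ 4 = ⟨0, -1⟩ * bet 120 := by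
  unfold bet
  rw [show (4 : ℕ) = 2 + 2 from rfl, pow_add, pow_two]
  ext <;> simp [Zsqrtd.re_mul, Zsqrtd.im_mul]

lemma bet_dvd (n : ℕ) (w : GaussianInt) : bet 120 ^ (n / 4) ∣ (⟨3, -2⟩ : GaussianInt) ^ n * w := by
  have h : (⟨3, -2⟩ : GaussianInt) ^ n
      = (⟨0, -1⟩ ^ (n / 4) * bet 120 ^ (n / 4)) * (⟨3, -2⟩ : GaussianInt) ^ (n % 4) := by
    rw [← mul_pow, ← rho4, ← pow_mul, ← pow_add, Nat.div_add_mod]
  rw [h]
  refine Dvd.intro_left (⟨0, -1⟩ ^ (n / 4) * (⟨3, -2⟩ : GaussianInt) ^ (n % 4) * w) ?_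
  ring

lemma yy120 : yy 120 = 28561 := by
  unfold yy
  norm_num

lemma norm_rho (n : ℕ) (w : GaussianInt) :
    Zsqrtd.norm ((⟨3, -2⟩ : GaussianInt) ^ n * w) = 13 ^ n * Zsqrtd.norm w := by
  have h1 : Zsqrtd.norm (⟨3, -2⟩ : GaussianInt) = 13 := by
    rw [Zsqrtd.norm_def]
    norm_num
  have h2 : ∀ k : ℕ, Zsqrtd.norm ((⟨3, -2⟩ : GaussianInt) ^ k) = 13 ^ k := by
    intro k
    induction k with
    | zero => simp
    | succ k ih => rw [pow_succ, Zsqrtd.norm_mul, ih, h1, pow_succ]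
  rw [Zsqrtd.norm_mul, h2]

lemma im_sq_le (z : GaussianInt) : ((z.im : ℤ) : ℝ) ^ 2 ≤ ((Zsqrtd.norm z : ℤ) : ℝ) := by
  rw [Zsqrtd.norm_def]
  push_cast
  nlinarith [sq_nonneg ((z.re : ℤ) : ℝ)]

lemma num1 : (1.15 : ℝ) * 2.24 ^ 88 * (40000 ^ 2 * 28561 ^ 11) ≤ (28561 ^ 10) ^ 2 := by
  norm_num

lemma num2 (m : ℕ) (hm : 1000 ≤ m) : (13 : ℝ) ^ 33 * 2.24 ^ 66 ≤ 1.15 ^ m := by
  have h1 : (4 : ℝ) ≤ 1.15 ^ 10 := by norm_num
  have h2 : (13 : ℝ) ^ 33 * 2.24 ^ 66 ≤ 4 ^ 100 := by norm_num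
  calc (13 : ℝ) ^ 33 * 2.24 ^ 66 ≤ 4 ^ 100 := h2
    _ ≤ ((1.15 : ℝ) ^ 10) ^ 100 := by gcongr
    _ = 1.15 ^ 1000 := by rw [← pow_mul]
    _ ≤ 1.15 ^ m := pow_le_pow_right₀ (by norm_num) hm

/-- the real inequality -/
lemma final (m r n : ℕ) (hn : n = 4 * m + r) (hr : r ≤ 3) (hm : 1000 ≤ m) (x w : ℝ)
    (hw : 0 ≤ w) (_hx : 0 ≤ x) (h1 : ((28561 : ℝ) ^ 10 / 40000) ^ m ≤ x ^ 11)
    (h2 : x ^ 2 ≤ 13 ^ n * w) : (2.24 : ℝ) ^ (2 * n) ≤ w := by
  have h3 : (((28561 : ℝ) ^ 10 / 40000) ^ m) ^ 2 ≤ (13 ^ n * w) ^ 11 := by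
    calc (((28561 : ℝ) ^ 10 / 40000) ^ m) ^ 2 ≤ (x ^ 11) ^ 2 := by gcongr
      _ = (x ^ 2) ^ 11 := by ring
      _ ≤ (13 ^ n * w) ^ 11 := by gcongr
  have h4 : ((13 : ℝ) ^ n) ^ 11 ≤ (28561 ^ 11) ^ m * 13 ^ 33 := by
    have e : ((13 : ℝ) ^ n) ^ 11 = (28561 ^ 11) ^ m * 13 ^ (11 * r) := by
      rw [hn, show (28561 : ℝ) = 13 ^ 4 by norm_num, ← pow_mul, ← pow_mul, ← pow_mul, ← pow_add]
      congr 1
      ring
    rw [e]
    have : (13 : ℝ) ^ (11 * r) ≤ 13 ^ 33 := pow_le_pow_right₀ (by norm_num) (by omega)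
    gcongr
  have h5 : (2.24 : ℝ) ^ (22 * n) ≤ (2.24 ^ 88) ^ m * 2.24 ^ 66 := by
    have e : (2.24 : ℝ) ^ (22 * n) = (2.24 ^ 88) ^ m * 2.24 ^ (22 * r) := by
      rw [hn, ← pow_mul, ← pow_add]
      congr 1
      ring
    rw [e]
    have : (2.24 : ℝ) ^ (22 * r) ≤ 2.24 ^ 66 := pow_le_pow_right₀ (by norm_num) (by omega)
    gcongr
  have h6 : ((1.15 : ℝ) * 2.24 ^ 88 * (40000 ^ 2 * 28561 ^ 11)) ^ m ≤ ((28561 ^ 10) ^ 2) ^ m := by
    have := num1
    gcongr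
  have h7 := num2 m hm
  -- combine
  have h8 : (2.24 : ℝ) ^ (22 * n) * (13 ^ n) ^ 11 ≤ (13 ^ n) ^ 11 * w ^ 11 := by
    calc (2.24 : ℝ) ^ (22 * n) * (13 ^ n) ^ 11
        ≤ ((2.24 ^ 88) ^ m * 2.24 ^ 66) * ((28561 ^ 11) ^ m * 13 ^ 33) := by gcongr
      _ = ((2.24 ^ 88) ^ m * (28561 ^ 11) ^ m) * (13 ^ 33 * 2.24 ^ 66) := by ring
      _ ≤ ((2.24 ^ 88) ^ m * (28561 ^ 11) ^ m) * 1.15 ^ m := by gcongr
      _ = ((1.15 : ℝ) * 2.24 ^ 88 * (40000 ^ 2 * 28561 ^ 11)) ^ m / (40000 ^ 2) ^ m := by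
          rw [mul_pow, mul_pow, mul_pow]
          field_simp
      _ ≤ ((28561 ^ 10) ^ 2) ^ m / (40000 ^ 2) ^ m := by gcongr
      _ = (((28561 : ℝ) ^ 10 / 40000) ^ m) ^ 2 := by
          rw [← div_pow, ← div_pow, pow_right_comm]
      _ ≤ (13 ^ n * w) ^ 11 := h3
      _ = (13 ^ n) ^ 11 * w ^ 11 := by rw [mul_pow]
  have h9 : ((2.24 : ℝ) ^ (2 * n)) ^ 11 ≤ w ^ 11 := by
    have hp : (0 : ℝ) < (13 ^ n) ^ 11 := by positivity
    rw [← pow_mul, show 2 * n * 11 = 22 * n by ring]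
    rw [mul_comm] at h8
    exact le_of_mul_le_mul_left h8 hp
  exact le_of_pow_le_pow_left₀ (by norm_num) hw h9

lemma key (C : ℕ) (hC : ∀ (m : ℕ) (u : ℤ) (z : GaussianInt), 120 ≤ u →
    bet u ^ m ∣ z → z.re ≠ 0 → C * (1 + Real.log u + Real.log |(z.re : ℝ)|) ≤ m →
    ((yy u : ℝ) ^ 10 / 40000) ^ m ≤ |(z.im : ℝ)| ^ 11) (n : ℕ) (w : GaussianInt)
    (h0 : ((⟨3, -2⟩ : GaussianInt) ^ n * w).re ≠ 0)
    (hn : ((24 * C + 4003 : ℕ) : ℝ) *
      (1 + Real.log |((((⟨3, -2⟩ : GaussianInt) ^ n * w).re : ℤ) : ℝ)|) ≤ n) :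
    (2.24 : ℝ) ^ (2 * n) ≤ ((Zsqrtd.norm w : ℤ) : ℝ) := by
  set z : GaussianInt := (⟨3, -2⟩ : GaussianInt) ^ n * w with hz
  have hlog : 0 ≤ Real.log |((z.re : ℤ) : ℝ)| := by
    apply Real.log_nonneg
    have : (1 : ℤ) ≤ |z.re| := Int.one_le_abs h0
    exact_mod_cast this
  set a : ℝ := Real.log |((z.re : ℤ) : ℝ)| with ha
  have hCnn : (0 : ℝ) ≤ C := Nat.cast_nonneg C
  have hmr : (n : ℝ) = 4 * ((n / 4 : ℕ) : ℝ) + ((n % 4 : ℕ) : ℝ) := by
    have := Nat.div_add_mod n 4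
    exact_mod_cast this.symm
  have hr3 : ((n % 4 : ℕ) : ℝ) ≤ 3 := by
    have : n % 4 ≤ 3 := by omega
    exact_mod_cast this
  push_cast at hn
  have hm1 : 6 * C * (1 + a) + 1000 * (1 + a) ≤ ((n / 4 : ℕ) : ℝ) := by
    nlinarith
  have hm2 : (1000 : ℝ) ≤ ((n / 4 : ℕ) : ℝ) := by
    nlinarith [mul_nonneg hCnn hlog]
  have hm3 : 1000 ≤ n / 4 := by exact_mod_cast hm2
  have hl120 : Real.log ((120 : ℤ) : ℝ) ≤ 5 := by
    have h1 : ((120 : ℤ) : ℝ) = 120 := by norm_num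
    rw [h1, Real.log_le_iff_le_exp (by norm_num)]
    have h2 : (2.7182818283 : ℝ) < Real.exp 1 := Real.exp_one_gt_d9
    have h3 : Real.exp 5 = Real.exp 1 ^ 5 := by
      rw [← Real.exp_nat_mul]
      norm_num
    rw [h3]
    calc (120 : ℝ) ≤ 2.7 ^ 5 := by norm_num
      _ ≤ Real.exp 1 ^ 5 := by
        have : (2.7 : ℝ) ≤ Real.exp 1 := by linarith
        gcongr
  have hm4 : C * (1 + Real.log ((120 : ℤ) : ℝ) + a) ≤ ((n / 4 : ℕ) : ℝ) := by
    have h1 : C * (1 + Real.log ((120 : ℤ) : ℝ) + a) ≤ C * (6 * (1 + a)) := by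
      apply mul_le_mul_of_nonneg_left _ hCnn
      linarith
    have h2 : (C : ℝ) * (6 * (1 + a)) = 6 * C * (1 + a) := by ring
    have h3 : (0 : ℝ) ≤ 1000 * (1 + a) := by linarith
    refine h1.trans ?_
    rw [h2]
    linarith
  have hmain := hC (n / 4) 120 z le_rfl (bet_dvd n w) h0 hm4
  rw [yy120] at hmain
  have hnorm : (0 : ℝ) ≤ ((Zsqrtd.norm w : ℤ) : ℝ) := by
    have : 0 ≤ Zsqrtd.norm w := Zsqrtd.norm_nonneg (by norm_num) w
    exact_mod_cast this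
  refine final (n / 4) (n % 4) n (by omega) (by omega) hm3 |((z.im : ℤ) : ℝ)| _ hnorm
    (abs_nonneg _) (by exact_mod_cast hmain) ?_
  rw [sq_abs]
  refine (im_sq_le z).trans (le_of_eq ?_)
  rw [hz, norm_rho]
  push_cast
  ring

end RhoBoundX

open RhoBoundX in
theorem prfRhoBound (h : Main) : RhoBound := by
  obtain ⟨C, hC⟩ := h
  refine ⟨24 * C + 4003, fun n w => ⟨?_, fun h0 hn => key C hC n w h0 hn⟩⟩
  intro h0 hn
  have e : (⟨3, -2⟩ : GaussianInt) ^ n * star w = star ((⟨3, 2⟩ : GaussianInt) ^ n * w) := by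
    rw [star_mul', star_pow]
    rfl
  have e2 : ((⟨3, -2⟩ : GaussianInt) ^ n * star w).re = ((⟨3, 2⟩ : GaussianInt) ^ n * w).re := by
    rw [e, Zsqrtd.re_star]
  have := key C hC n (star w) (by rw [e2]; exact h0) (by rw [e2]; exact hn)
  rwa [Zsqrtd.norm_conj] at this

end Pool.Agent.Work.MP_8d13b5_lc.Ex

end

section

/-!
# Decomposition of the solutions of the order five recurrence
-/


namespace Pool.Agent.Work.MP_8d13b5_lc.Ex

namespace DecompX

theorem inv {u : ℕ → ℤ} (hu : Rec5 u) (n : ℕ) :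
    u (n + 4) - 8 * u (n + 3) + 2 * u (n + 2) - 520 * u (n + 1) + 4225 * u n = C0 u := by
  induction n with
  | zero => rfl
  | succ n ih =>
    have h := hu n
    have e1 : u (n + 1 + 4) = u (n + 5) := rfl
    have e2 : u (n + 1 + 3) = u (n + 4) := rfl
    have e3 : u (n + 1 + 2) = u (n + 3) := rfl
    have e4 : u (n + 1 + 1) = u (n + 2) := rfl
    rw [e1, e2, e3, e4]
    linarith

theorem vrec {u : ℕ → ℤ} (hu : Rec5 u) (n : ℕ) :
    vv u (n + 4) = 8 * vv u (n + 3) - 2 * vv u (n + 2) + 520 * vv u (n + 1) - 4225 * vv u n := by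
  have h := inv hu n
  unfold vv
  linarith

theorem recX {u : ℕ → ℤ} (hu : Rec5 u) : RecX (XX u) := by
  intro n
  have h1 := vrec hu n
  have h2 := vrec hu (n + 1)
  have e1 : n + 1 + 4 = n + 5 := rfl
  have e2 : n + 1 + 3 = n + 4 := rfl
  have e3 : n + 1 + 2 = n + 3 := rfl
  have e4 : n + 1 + 1 = n + 2 := rfl
  have e5 : n + 2 + 3 = n + 5 := rfl
  have e6 : n + 2 + 2 = n + 4 := rfl
  have e7 : n + 2 + 1 = n + 3 := rfl
  rw [e1, e2, e3, e4] at h2
  unfold XX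
  rw [Zsqrtd.ext_iff]
  simp only [Zsqrtd.re_add, Zsqrtd.im_add, Zsqrtd.re_mul, Zsqrtd.im_mul, e2, e3, e4, e5]
  constructor
  · linarith
  · linarith

theorem abs_u_le (u : ℕ → ℤ) {i : ℕ} (hi : i ≤ 4) : |u i| ≤ (sz u : ℤ) := by
  unfold sz
  push_cast
  have h0 := abs_nonneg (u 0)
  have h1 := abs_nonneg (u 1)
  have h2 := abs_nonneg (u 2)
  have h3 := abs_nonneg (u 3)
  have h4 := abs_nonneg (u 4)
  interval_cases i <;> linarith

theorem abs_C0_le (u : ℕ → ℤ) : |C0 u| ≤ 4225 * (sz u : ℤ) := by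
  unfold sz C0
  push_cast
  have h0 := abs_le.1 (le_refl |u 0|)
  have h1 := abs_le.1 (le_refl |u 1|)
  have h2 := abs_le.1 (le_refl |u 2|)
  have h3 := abs_le.1 (le_refl |u 3|)
  have h4 := abs_le.1 (le_refl |u 4|)
  have g0 := abs_nonneg (u 0)
  have g1 := abs_nonneg (u 1)
  have g2 := abs_nonneg (u 2)
  have g3 := abs_nonneg (u 3)
  have g4 := abs_nonneg (u 4)
  rw [abs_le]
  constructor
  · linarith
  · linarith

theorem abs_vv_le (u : ℕ → ℤ) {i : ℕ} (hi : i ≤ 4) : |vv u i| ≤ 7925 * (sz u : ℤ) := by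
  have h1 := abs_le.1 (abs_u_le u hi)
  have h2 := abs_le.1 (abs_C0_le u)
  unfold vv
  rw [abs_le]
  constructor
  · linarith
  · linarith

theorem norm_le (u : ℕ → ℤ) {n : ℕ} (hn : n ≤ 1) :
    (XX u n).norm ≤ 5 * 10 ^ 13 * (sz u : ℤ) ^ 2 := by
  have h0 := abs_le.1 (abs_vv_le u (i := n) (by omega))
  have h1 := abs_le.1 (abs_vv_le u (i := n + 1) (by omega))
  have h2 := abs_le.1 (abs_vv_le u (i := n + 2) (by omega))
  have h3 := abs_le.1 (abs_vv_le u (i := n + 3) (by omega))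
  set S : ℤ := (sz u : ℤ) with hS
  have hS0 : 0 ≤ S := by rw [hS]; positivity
  have hre : |210 * vv u n| ≤ 210 * 7925 * S := by
    rw [abs_le]
    constructor <;> linarith
  have him : |vv u (n + 3) + 2 * vv u (n + 2) - 13 * vv u (n + 1) - 510 * vv u n| ≤
      526 * 7925 * S := by
    rw [abs_le]
    constructor <;> linarith
  have h4 : (210 * vv u n) ^ 2 ≤ (210 * 7925 * S) ^ 2 := by
    rw [← sq_abs (210 * vv u n)]
    exact pow_le_pow_left₀ (abs_nonneg _) hre 2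
  have h5 : (vv u (n + 3) + 2 * vv u (n + 2) - 13 * vv u (n + 1) - 510 * vv u n) ^ 2 ≤
      (526 * 7925 * S) ^ 2 := by
    rw [← sq_abs (vv u (n + 3) + 2 * vv u (n + 2) - 13 * vv u (n + 1) - 510 * vv u n)]
    exact pow_le_pow_left₀ (abs_nonneg _) him 2
  have h6 : (XX u n).norm = (210 * vv u n) ^ 2 +
      (vv u (n + 3) + 2 * vv u (n + 2) - 13 * vv u (n + 1) - 510 * vv u n) ^ 2 := by
    rw [Zsqrtd.norm_def]
    unfold XX
    ring
  have h7 : 0 ≤ S ^ 2 := sq_nonneg S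
  rw [h6]
  nlinarith

end DecompX

open DecompX in
theorem prfDecomp : Decomp := by
  intro u hu
  refine ⟨recX hu, ?_, abs_C0_le u, ?_, ?_⟩
  · have h0 := norm_le u (n := 0) (by omega)
    have h1 := norm_le u (n := 1) (by omega)
    linarith
  · intro h n
    have h1 := congrArg Zsqrtd.re (h n)
    have h2 : 210 * vv u n = 0 := h1
    unfold vv at h2
    linarith
  · intro hs
    have hz : u 0 = 0 ∧ u 1 = 0 ∧ u 2 = 0 ∧ u 3 = 0 ∧ u 4 = 0 := by
      unfold sz at hs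
      refine ⟨?_, ?_, ?_, ?_, ?_⟩ <;> rw [← Int.natAbs_eq_zero] <;> omega
    have key : ∀ n, u n = 0 ∧ u (n + 1) = 0 ∧ u (n + 2) = 0 ∧ u (n + 3) = 0 ∧ u (n + 4) = 0 := by
      intro n
      induction n with
      | zero => exact hz
      | succ n ih =>
        obtain ⟨h0, h1, h2, h3, h4⟩ := ih
        refine ⟨h1, h2, h3, h4, ?_⟩
        have h5 := hu n
        rw [h0, h1, h2, h3, h4] at h5
        simpa using h5
    funext n
    exact (key n).1

end Pool.Agent.Work.MP_8d13b5_lc.Ex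

end

section

/-!
# Item XFacts: the recurrence with the characteristic roots `8 - i`, `-4 + 7 i`
-/


namespace Pool.Agent.Work.MP_8d13b5_lc.Ex

namespace XFactsX

theorem norm_pow (x : GaussianInt) (n : ℕ) : (x ^ n).norm = x.norm ^ n :=
  map_pow (Zsqrtd.normMonoidHom (d := -1)) x n

theorem norm_sub_le (a b : GaussianInt) : (a - b).norm ≤ 2 * a.norm + 2 * b.norm := by
  rw [Zsqrtd.norm_def, Zsqrtd.norm_def, Zsqrtd.norm_def, Zsqrtd.re_sub, Zsqrtd.im_sub]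
  nlinarith [sq_nonneg (a.re + b.re), sq_nonneg (a.im + b.im)]

theorem e46 : (⟨4, 6⟩ : GaussianInt) = ⟨3, -2⟩ * ⟨0, 2⟩ := by decide

theorem e2560 : (⟨25, -60⟩ : GaussianInt) = ⟨3, -2⟩ ^ 2 * 5 := by decide

theorem esum : (⟨4, 6⟩ : GaussianInt) = ⟨8, -1⟩ + ⟨-4, 7⟩ := by decide

theorem eprod : (⟨25, -60⟩ : GaussianInt) = -(⟨8, -1⟩ * ⟨-4, 7⟩) := by decide

theorem dvd {X : ℕ → GaussianInt} (h : RecX X) : ∀ n, (⟨3, -2⟩ : GaussianInt) ^ n ∣ X (n + 1) ∧
    (⟨3, -2⟩ : GaussianInt) ^ (n + 1) ∣ X (n + 2)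
  | 0 => by
    refine ⟨by rw [pow_zero]; exact one_dvd _, ?_⟩
    rw [h 0, e46, e2560, zero_add, pow_one]
    refine dvd_add ?_ ?_
    · rw [mul_assoc]; exact dvd_mul_right _ _
    · rw [pow_two, mul_assoc, mul_assoc]; exact dvd_mul_right _ _
  | n + 1 => by
    obtain ⟨h1, h2⟩ := dvd h n
    refine ⟨h2, ?_⟩
    rw [h (n + 1), e46, e2560]
    refine dvd_add ?_ ?_
    · obtain ⟨c, hc⟩ := h2
      rw [show n + 1 + 1 = n + 2 from rfl, hc]
      exact ⟨⟨0, 2⟩ * c, by ring⟩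
    · obtain ⟨c, hc⟩ := h1
      rw [hc]
      exact ⟨5 * c, by ring⟩

theorem stepA {X : ℕ → GaussianInt} (h : RecX X) : ∀ n,
    X (n + 1) - ⟨-4, 7⟩ * X n = ⟨8, -1⟩ ^ n * (X 1 - ⟨-4, 7⟩ * X 0)
  | 0 => by rw [pow_zero, one_mul]
  | n + 1 => by
    have ih := stepA h n
    rw [pow_succ', mul_assoc, ← ih, h n, esum, eprod]
    ring

theorem stepB {X : ℕ → GaussianInt} (h : RecX X) : ∀ n,
    X (n + 1) - ⟨8, -1⟩ * X n = ⟨-4, 7⟩ ^ n * (X 1 - ⟨8, -1⟩ * X 0)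
  | 0 => by rw [pow_zero, one_mul]
  | n + 1 => by
    have ih := stepB h n
    rw [pow_succ', mul_assoc, ← ih, h n, esum, eprod]
    ring

theorem diff {X : ℕ → GaussianInt} (h : RecX X) (n : ℕ) :
    ⟨12, -8⟩ * X n = ⟨8, -1⟩ ^ n * (X 1 - ⟨-4, 7⟩ * X 0) -
      ⟨-4, 7⟩ ^ n * (X 1 - ⟨8, -1⟩ * X 0) := by
  rw [← stepA h n, ← stepB h n, show (⟨12, -8⟩ : GaussianInt) = ⟨8, -1⟩ - ⟨-4, 7⟩ by decide]
  ring

theorem norm_AB (x y r : GaussianInt) (hr : r.norm = 65) :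
    (y - r * x).norm ≤ 2 * y.norm + 130 * x.norm := by
  have h := norm_sub_le y (r * x)
  rw [Zsqrtd.norm_mul, hr] at h
  linarith

theorem n12 : (⟨12, -8⟩ : GaussianInt).norm = 208 := by decide

theorem n8 : (⟨8, -1⟩ : GaussianInt).norm = 65 := by decide

theorem n4 : (⟨-4, 7⟩ : GaussianInt).norm = 65 := by decide

theorem n2 : (⟨2, 1⟩ : GaussianInt).norm = 5 := by decide

theorem bound {X : ℕ → GaussianInt} (h : RecX X) (n : ℕ) :
    (X n).norm ≤ 100 * ((X 0).norm + (X 1).norm) * 65 ^ n := by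
  have h1 := congrArg Zsqrtd.norm (diff h n)
  rw [Zsqrtd.norm_mul, n12] at h1
  have h2 := norm_sub_le (⟨8, -1⟩ ^ n * (X 1 - ⟨-4, 7⟩ * X 0))
    (⟨-4, 7⟩ ^ n * (X 1 - ⟨8, -1⟩ * X 0))
  rw [Zsqrtd.norm_mul, Zsqrtd.norm_mul, norm_pow, norm_pow, n8, n4] at h2
  have h3 := norm_AB (X 0) (X 1) _ n4
  have h4 := norm_AB (X 0) (X 1) _ n8
  have h5 : (0 : ℤ) < 65 ^ n := by positivity
  have h6 := GaussianInt.norm_nonneg (X 0)
  have h7 := GaussianInt.norm_nonneg (X 1)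
  have h8 := mul_le_mul_of_nonneg_left h3 h5.le
  have h9 := mul_le_mul_of_nonneg_left h4 h5.le
  have h10 := mul_nonneg h5.le h6
  have h11 := mul_nonneg h5.le h7
  nlinarith

theorem zero {X : ℕ → GaussianInt} (h : RecX X) (h0 : X 0 = 0) (h1 : X 1 = 0) :
    ∀ k, X k = 0 ∧ X (k + 1) = 0
  | 0 => ⟨h0, h1⟩
  | k + 1 => by
    obtain ⟨h2, h3⟩ := zero h h0 h1 k
    refine ⟨h3, ?_⟩
    rw [h k, h2, h3, mul_zero, mul_zero, add_zero]

end XFactsX

open XFactsX in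
theorem prfXFacts : XFacts := by
  intro X h
  refine ⟨fun n => (dvd h n).1, bound h, fun n hn => ?_⟩
  have h1 := diff h n
  rw [hn, mul_zero, show (⟨8, -1⟩ : GaussianInt) ^ n = ⟨3, -2⟩ ^ n * ⟨2, 1⟩ ^ n by
      rw [← mul_pow]; congr 1, show (⟨-4, 7⟩ : GaussianInt) ^ n = ⟨3, -2⟩ ^ n * ⟨-2, 1⟩ ^ n by
      rw [← mul_pow]; congr 1, mul_assoc, mul_assoc, ← mul_sub] at h1
  set A : GaussianInt := X 1 - ⟨-4, 7⟩ * X 0 with hA
  set B : GaussianInt := X 1 - ⟨8, -1⟩ * X 0 with hB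
  have h2 : (⟨2, 1⟩ : GaussianInt) ^ n * A = ⟨-2, 1⟩ ^ n * B := by
    rcases mul_eq_zero.1 h1.symm with h3 | h3
    · have h4 : (⟨3, -2⟩ : GaussianInt) = 0 := eq_zero_of_pow_eq_zero h3
      exact absurd h4 (by decide)
    · exact sub_eq_zero.1 h3
  have hco : IsCoprime ((⟨2, 1⟩ : GaussianInt) ^ n) (⟨-2, 1⟩ ^ n) := by
    apply IsCoprime.pow
    exact ⟨⟨1, -1⟩, 1, by decide⟩
  by_cases hB0 : B = 0
  · right
    rw [hB0, mul_zero] at h2
    have hA0 : A = 0 := by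
      rcases mul_eq_zero.1 h2 with h3 | h3
      · have h4 : (⟨2, 1⟩ : GaussianInt) = 0 := eq_zero_of_pow_eq_zero h3
        exact absurd h4 (by decide)
      · exact h3
    have h3 : (⟨12, -8⟩ : GaussianInt) * X 0 = 0 := by
      have h4 : (⟨12, -8⟩ : GaussianInt) * X 0 = A - B := by
        rw [hA, hB, show (⟨12, -8⟩ : GaussianInt) = ⟨8, -1⟩ - ⟨-4, 7⟩ by decide]
        ring
      rw [h4, hA0, hB0, sub_zero]
    have h5 : X 0 = 0 := by
      rcases mul_eq_zero.1 h3 with h6 | h6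
      · exact absurd h6 (by decide)
      · exact h6
    have h6 : X 1 = 0 := by
      rw [h5, mul_zero, sub_zero] at hA
      rw [← hA]; exact hA0
    exact fun k => (zero h h5 h6 k).1
  · left
    have h3 : (⟨2, 1⟩ : GaussianInt) ^ n ∣ B :=
      hco.dvd_of_dvd_mul_left (by rw [← h2]; exact dvd_mul_right _ _)
    obtain ⟨c, hc⟩ := h3
    have h4 : B.norm = 5 ^ n * c.norm := by
      rw [hc, Zsqrtd.norm_mul, norm_pow, n2]
    have h5 : c ≠ 0 := by
      rintro rfl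
      rw [mul_zero] at hc
      exact hB0 hc
    have h6 : 1 ≤ c.norm := by
      have := GaussianInt.norm_pos.2 h5
      omega
    have h7 : (0 : ℤ) < 5 ^ n := by positivity
    have h8 : B.norm ≤ 2 * (X 1).norm + 130 * (X 0).norm := norm_AB (X 0) (X 1) _ n8
    have h9 := GaussianInt.norm_nonneg (X 0)
    have h10 := GaussianInt.norm_nonneg (X 1)
    nlinarith

end Pool.Agent.Work.MP_8d13b5_lc.Ex

end

section

/-! [D4] All zeros of all solutions of the recurrence of order five. -/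


namespace Pool.Agent.Work.MP_8d13b5_lc.Ex

namespace ZerosX

/-- Exponential growth against a square. -/
lemma expo (q : ℝ) (hq0 : 0 < q) (hq : 1 / 300 ≤ Real.log q) (m S : ℕ) (hS : 1 ≤ S)
    (h : q ^ m ≤ 10 ^ 18 * (S : ℝ) ^ 2) : (m : ℝ) ≤ 300 * (60 + 2 * Real.log S) := by
  have hS0 : (0 : ℝ) < S := by exact_mod_cast hS
  have h1 : Real.log (q ^ m) ≤ Real.log (10 ^ 18 * (S : ℝ) ^ 2) :=
    Real.log_le_log (pow_pos hq0 m) h
  rw [Real.log_pow, Real.log_mul (by positivity) (by positivity), Real.log_pow (S : ℝ) 2] at h1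
  have h2 : Real.log ((10 : ℝ) ^ 18) ≤ 60 := by
    have h3 : Real.log ((10 : ℝ) ^ 18) ≤ Real.log ((2 : ℝ) ^ 60) :=
      Real.log_le_log (by positivity) (by norm_num)
    rw [Real.log_pow 2 60] at h3
    have h4 : Real.log 2 ≤ 1 := by
      have := Real.log_two_lt_d9
      linarith
    have h5 : ((60 : ℕ) : ℝ) * Real.log 2 ≤ 60 := by
      push_cast
      linarith
    linarith
  have h6 : (m : ℝ) * (1 / 300) ≤ m * Real.log q :=
    mul_le_mul_of_nonneg_left hq (Nat.cast_nonneg m)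
  push_cast at h1
  linarith

/-- `3 + 2 i` and `3 - 2 i` are coprime. -/
lemma cop : IsCoprime (⟨3, 2⟩ : GaussianInt) (⟨3, -2⟩ : GaussianInt) := by
  refine ⟨⟨1, -2⟩, ⟨-2, 0⟩, ?_⟩
  ext <;> simp

/-- The norm of a power of `3 - 2 i`. -/
lemma norm_pow (m : ℕ) : ((⟨3, -2⟩ : GaussianInt) ^ m).norm = 13 ^ m := by
  induction m with
  | zero => simp
  | succ m ih =>
    rw [pow_succ, Zsqrtd.norm_mul, ih, pow_succ]
    congr 1

/-- Divisibility of purely imaginary Gaussian integers. -/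
lemma divim (m : ℕ) (z : GaussianInt) (h : (⟨3, -2⟩ : GaussianInt) ^ m ∣ z) (hz : z.re = 0) :
    (13 : ℤ) ^ m ∣ z.im := by
  have h1 : (⟨3, 2⟩ : GaussianInt) ^ m ∣ z := by
    obtain ⟨w, hw⟩ := h
    refine ⟨-star w, ?_⟩
    have h2 : star z = -z := by
      ext
      · simp [hz]
      · simp
    have h3 : star z = (⟨3, 2⟩ : GaussianInt) ^ m * star w := by
      rw [hw, star_mul', star_pow]
      congr 2
    rw [mul_neg, ← h3, h2, neg_neg]
  have h4 : (⟨3, 2⟩ : GaussianInt) ^ m * (⟨3, -2⟩ : GaussianInt) ^ m ∣ z :=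
    (IsCoprime.pow cop).mul_dvd h1 h
  rw [← mul_pow] at h4
  have h5 : ((⟨3, 2⟩ : GaussianInt) * (⟨3, -2⟩ : GaussianInt)) = ((13 : ℤ) : GaussianInt) := by
    ext <;> simp
  rw [h5, ← Int.cast_pow, Zsqrtd.intCast_dvd] at h4
  exact h4.2

lemma log_one (q : ℝ) (hq : 1.0035 ≤ q) : 1 / 300 ≤ Real.log q := by
  have h := Real.one_sub_inv_le_log_of_pos (show 0 < q by linarith)
  have h2 : q⁻¹ ≤ (1.0035 : ℝ)⁻¹ := inv_anti₀ (by norm_num) hq
  norm_num at h2 ⊢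
  linarith

end ZerosX

theorem prfZeros (h1 : RhoBound) (h2 : Decomp) (h3 : XFacts) : Zeros := by
  obtain ⟨C1, hC1⟩ := h1
  refine ⟨18002 + 21 * C1, ?_⟩
  intro u hu hu0 n hn
  obtain ⟨hX, hnorm, hC0, hall, hsz⟩ := h2 u hu
  obtain ⟨hdiv, hgrow, hzero⟩ := h3 (XX u) hX
  have hS : 1 ≤ sz u := by
    rcases Nat.eq_zero_or_pos (sz u) with h | h
    · exact absurd (hsz h) hu0
    · exact h
  have hS' : (1 : ℝ) ≤ (sz u : ℝ) := by exact_mod_cast hS
  have hL : 0 ≤ Real.log (sz u) := Real.log_nonneg hS'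
  have hC1' : (0 : ℝ) ≤ (C1 : ℝ) := Nat.cast_nonneg C1
  have hCL : 0 ≤ (C1 : ℝ) * Real.log (sz u) := mul_nonneg hC1' hL
  push_cast
  -- it is enough to have one of two bounds
  suffices hmain : (n : ℝ) ≤ 1 + 300 * (60 + 2 * Real.log (sz u)) ∨
      (n : ℝ) ≤ 1 + C1 * (21 + Real.log (sz u)) by
    rcases hmain with h | h
    · nlinarith
    · nlinarith
  have hN : ∀ k, (XX u k).norm ≤ 10 ^ 16 * (sz u : ℤ) ^ 2 * 65 ^ k := by
    intro k
    refine (hgrow k).trans ?_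
    refine mul_le_mul_of_nonneg_right ?_ (by positivity)
    linarith
  by_cases hn0 : n = 0
  · left
    rw [hn0]
    push_cast
    linarith
  obtain ⟨m, rfl⟩ := Nat.exists_eq_succ_of_ne_zero hn0
  rw [Nat.succ_eq_add_one] at *
  have hre : (XX u (m + 1)).re = -210 * C0 u := by
    simp only [XX, vv, hn]
    ring
  have hNm : (((XX u (m + 1)).norm : ℤ) : ℝ) ≤ 10 ^ 16 * (sz u : ℝ) ^ 2 * 65 ^ (m + 1) := by
    exact_mod_cast hN (m + 1)
  by_cases hc : C0 u = 0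
  · -- the real part vanishes
    have hre0 : (XX u (m + 1)).re = 0 := by rw [hre, hc, mul_zero]
    have hd := ZerosX.divim m _ (hdiv m) hre0
    by_cases him : (XX u (m + 1)).im = 0
    · have hXz : XX u (m + 1) = 0 := by
        ext
        · exact hre0
        · exact him
      rcases hzero (m + 1) hXz with h | h
      · left
        have h5 : (5 : ℤ) ^ (m + 1) ≤ 10 ^ 18 * (sz u : ℤ) ^ 2 := by
          have : (0 : ℤ) ≤ (sz u : ℤ) ^ 2 := by positivity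
          refine h.trans ?_
          linarith
        have h6 : (5 : ℝ) ^ (m + 1) ≤ 10 ^ 18 * (sz u : ℝ) ^ 2 := by exact_mod_cast h5
        have h7 := ZerosX.expo 5 (by norm_num) (ZerosX.log_one 5 (by norm_num)) (m + 1) (sz u) hS h6
        linarith
      · exfalso
        apply hu0
        funext k
        have h8 := hall h k
        rw [hc] at h8
        simp only [Pi.zero_apply]
        omega
    · left
      have h9 : (13 : ℤ) ^ m ≤ |(XX u (m + 1)).im| :=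
        Int.le_of_dvd (abs_pos.mpr him) ((dvd_abs _ _).mpr hd)
      have h10 : ((13 : ℤ) ^ m) ^ 2 ≤ (XX u (m + 1)).norm := by
        have h11 : (XX u (m + 1)).norm = |(XX u (m + 1)).im| ^ 2 := by
          rw [Zsqrtd.norm_def, hre0, sq_abs]
          ring
        rw [h11]
        exact pow_le_pow_left₀ (by positivity) h9 2
      have h12 : ((13 : ℝ) ^ m) ^ 2 ≤ (((XX u (m + 1)).norm : ℤ) : ℝ) := by exact_mod_cast h10
      have h13 : ((13 : ℝ) ^ m) ^ 2 = (13 / 5) ^ m * 65 ^ m := by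
        rw [← mul_pow, ← pow_mul, mul_comm m 2, pow_mul]
        norm_num
      have h14 : ((13 : ℝ) / 5) ^ m ≤ 10 ^ 18 * (sz u : ℝ) ^ 2 := by
        have h15 : ((13 : ℝ) / 5) ^ m * 65 ^ m ≤ (10 ^ 18 * (sz u : ℝ) ^ 2) * 65 ^ m := by
          rw [← h13]
          refine (h12.trans hNm).trans ?_
          rw [pow_succ (65 : ℝ) m]
          have : (0 : ℝ) ≤ (sz u : ℝ) ^ 2 * 65 ^ m := by positivity
          nlinarith
        exact le_of_mul_le_mul_right h15 (by positivity)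
      have h16 := ZerosX.expo (13 / 5) (by norm_num) (ZerosX.log_one _ (by norm_num)) m (sz u) hS h14
      push_cast
      linarith
  · -- the real part does not vanish
    have hre1 : (XX u (m + 1)).re ≠ 0 := by
      rw [hre]
      exact mul_ne_zero (by norm_num) hc
    obtain ⟨Y, hY⟩ := hdiv m
    have hR := (hC1 m Y).2
    rw [← hY] at hR
    have hR2 := hR hre1
    by_cases hlog : (C1 : ℝ) * (1 + Real.log |(((XX u (m + 1)).re : ℤ) : ℝ)|) ≤ m
    · left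
      have h20 := hR2 hlog
      have h21 : (XX u (m + 1)).norm = 13 ^ m * Y.norm := by
        rw [hY, Zsqrtd.norm_mul, ZerosX.norm_pow]
      have h22 : (13 : ℝ) ^ m * ((Y.norm : ℤ) : ℝ) = (((XX u (m + 1)).norm : ℤ) : ℝ) := by
        rw [h21]
        push_cast
        ring
      have h23 : (1.00352 : ℝ) ^ m * 65 ^ m = 13 ^ m * (2.24 : ℝ) ^ (2 * m) := by
        rw [pow_mul, ← mul_pow, ← mul_pow]
        norm_num
      have h24 : (1.00352 : ℝ) ^ m ≤ 10 ^ 18 * (sz u : ℝ) ^ 2 := by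
        have h25 : (1.00352 : ℝ) ^ m * 65 ^ m ≤ (10 ^ 18 * (sz u : ℝ) ^ 2) * 65 ^ m := by
          rw [h23]
          have h26 : (13 : ℝ) ^ m * (2.24 : ℝ) ^ (2 * m) ≤ 13 ^ m * ((Y.norm : ℤ) : ℝ) :=
            mul_le_mul_of_nonneg_left h20 (by positivity)
          rw [h22] at h26
          refine (h26.trans hNm).trans ?_
          rw [pow_succ (65 : ℝ) m]
          have : (0 : ℝ) ≤ (sz u : ℝ) ^ 2 * 65 ^ m := by positivity
          nlinarith
        exact le_of_mul_le_mul_right h25 (by positivity)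
      have h27 := ZerosX.expo 1.00352 (by norm_num) (ZerosX.log_one _ (by norm_num)) m (sz u) hS h24
      push_cast
      linarith
    · right
      have h30 : |(XX u (m + 1)).re| ≤ 2 ^ 20 * (sz u : ℤ) := by
        rw [hre, abs_mul]
        have : |(-210 : ℤ)| = 210 := by norm_num
        rw [this]
        have : (0 : ℤ) ≤ (sz u : ℤ) := by positivity
        linarith
      have h31 : |(((XX u (m + 1)).re : ℤ) : ℝ)| ≤ 2 ^ 20 * (sz u : ℝ) := by exact_mod_cast h30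
      have h32 : 0 < |(((XX u (m + 1)).re : ℤ) : ℝ)| := abs_pos.mpr (by exact_mod_cast hre1)
      have h33 : Real.log |(((XX u (m + 1)).re : ℤ) : ℝ)| ≤ 20 + Real.log (sz u) := by
        refine (Real.log_le_log h32 h31).trans ?_
        rw [Real.log_mul (by norm_num) (by positivity), Real.log_pow]
        have h4 : Real.log 2 ≤ 1 := by
          have := Real.log_two_lt_d9
          linarith
        push_cast
        linarith
      have h34 : (m : ℝ) ≤ C1 * (1 + Real.log |(((XX u (m + 1)).re : ℤ) : ℝ)|) := (not_le.mp hlog).le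
      have h35 : (C1 : ℝ) * (1 + Real.log |(((XX u (m + 1)).re : ℤ) : ℝ)|) ≤
          C1 * (21 + Real.log (sz u)) := mul_le_mul_of_nonneg_left (by linarith) hC1'
      push_cast
      linarith

end Pool.Agent.Work.MP_8d13b5_lc.Ex

end
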