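import Pool.Agent.Work.MP_8d13b5_lc.Ex.PartA
import Pool.Agent.Work.WI.W5
import Pool.Agent.Work.MP_8d13b5_lc.USMain
import Pool.Agent.Work.MP_8d13b5_lc.Pd.Sol

/-!
# MP_8d13b5_lc, module Ex, part B (merged from the item files)
-/

set_option autoImplicit false

section

/-!
# MP_8d13b5_lc, module Ex: the family theorem
-/


open Finset

namespace Pool.Agent.Work.MP_8d13b5_lc.Ex

/-- [D5] All sequences `Re (ρ ^ n w n)`, where `ρ ^ T` is a unit times `u - (u - 1) i` or its
conjugate and `|w n| ≤ A R ^ n`. -/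
def FamT : Prop := ∀ (ρ : GaussianInt) (T : ℕ) (u : ℤ) (R : ℝ), 1 ≤ T → 120 ≤ u →
  (Associated (ρ ^ T) (bet u) ∨ Associated (ρ ^ T) (star (bet u))) → 1 ≤ R →
  40000 ^ 2 * R ^ (22 * T) < (yy u : ℝ) ^ 9 →
  ∃ C : ℕ, ∀ (A : ℝ) (w : ℕ → GaussianInt), 1 ≤ A →
    (∀ n, ((w n).norm : ℝ) ≤ (A * R ^ n) ^ 2) → ∀ n, (ρ ^ n * w n).re ≠ 0 →
    (n : ℝ) ≤ C * (1 + Real.log |((ρ ^ n * w n).re : ℝ)| + Real.log A)

end Pool.Agent.Work.MP_8d13b5_lc.Ex

end

section

/-!
# MP_8d13b5_lc, module Ex: linear recurrence sequences of all orders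
-/


open Finset Polynomial

namespace Pool.Agent.Work.MP_8d13b5_lc.Ex

/-- `s` satisfies the linear recurrence with characteristic polynomial `f`. -/
def RecP {A : Type} [CommRing A] (f : A[X]) (s : ℕ → A) : Prop :=
  ∀ n, ∑ i ∈ range (f.natDegree + 1), f.coeff i * s (n + i) = 0

/-- The conjugate polynomial. -/
noncomputable def cj (f : GaussianInt[X]) : GaussianInt[X] := f.map (starRingEnd GaussianInt)

/-- [F1] Growth of linear recurrence sequences. -/
def Growth : Prop := ∀ (h : ℂ[X]) (R : ℝ), h.Monic → 1 ≤ R → (∀ z : ℂ, h.eval z = 0 → ‖z‖ < R) →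
  ∃ C : ℝ, 1 ≤ C ∧ ∀ (s : ℕ → ℂ) (U : ℝ), RecP h s → 0 ≤ U → (∀ i < h.natDegree, ‖s i‖ ≤ U) →
    ∀ n, ‖s n‖ ≤ C * U * R ^ n

/-- [F2] Splitting of a real sequence: `D x (n + d - 1) = 2 Re (ρ ^ n W n)`. -/
def SplitW : Prop := ∀ (h : GaussianInt[X]) (ρ : GaussianInt) (G : ℤ[X]), h.Monic →
  1 ≤ h.natDegree → ρ ≠ 0 → G.Monic →
  G.map (Int.castRingHom GaussianInt) = h.scaleRoots ρ * cj (h.scaleRoots ρ) →
  IsCoprime ((h.scaleRoots ρ).map GaussianInt.toComplex)
    ((cj (h.scaleRoots ρ)).map GaussianInt.toComplex) →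
  ∃ D B : ℤ, 0 < D ∧ 0 < B ∧ ∀ x : ℕ → ℤ, RecP G x → ∃ W : ℕ → GaussianInt, RecP h W ∧
    (∀ n, D * x (n + (h.natDegree - 1)) = 2 * (ρ ^ n * W n).re) ∧
    ∀ i < h.natDegree, (W i).norm ≤ B * (∑ j ∈ range G.natDegree, |x j|) ^ 2

/-- [F3] The Skolem problem for the families. -/
def LrsFam : Prop := ∀ (ρ : GaussianInt) (T : ℕ) (u : ℤ) (R : ℝ) (h : GaussianInt[X]) (G : ℤ[X]),
  1 ≤ T → 120 ≤ u → (Associated (ρ ^ T) (bet u) ∨ Associated (ρ ^ T) (star (bet u))) → 1 ≤ R →
  40000 ^ 2 * R ^ (22 * T) < (yy u : ℝ) ^ 9 →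
  h.Monic → 1 ≤ h.natDegree → (∀ z : ℂ, (h.map GaussianInt.toComplex).eval z = 0 → ‖z‖ < R) →
  G.map (Int.castRingHom GaussianInt) = h.scaleRoots ρ * cj (h.scaleRoots ρ) →
  IsCoprime ((h.scaleRoots ρ).map GaussianInt.toComplex)
    ((cj (h.scaleRoots ρ)).map GaussianInt.toComplex) → G.eval 1 ≠ 0 →
  ∃ C : ℕ, ∀ v : ℕ → ℤ, RecP ((X - 1) * G) v → ¬ RecP G v → ∀ n, v n = 0 →
    (n : ℝ) ≤ C * (1 + Real.log (∑ j ∈ range (G.natDegree + 1), |(v j : ℝ)|))

end Pool.Agent.Work.MP_8d13b5_lc.Ex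

end

section

/-!
# MP_8d13b5_lc, module Ex: the product of the primes of `prS s` (helper48)
-/


open Finset Filter Topology

namespace Pool.Agent.Work.MP_8d13b5_lc.Ex

namespace PrimeProdX

/-- The primes of one interval. -/
def IS (i s : ℕ) : Finset ℕ := (range (2 * s + 1)).filter fun p =>
  p.Prime ∧ 10 * s < (i + 1) * p ∧ (2 * i + 1) * p + 1 ≤ 20 * s

theorem theta_tendsto : Tendsto (fun x : ℝ => Chebyshev.theta x / x) atTop (𝓝 1) := by
  have h := WI.psi_tendsto.sub WI.psi_sub_theta_div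
  rw [sub_zero] at h
  refine h.congr fun x => ?_
  rw [← sub_div]
  congr 1
  ring

theorem theta_lin (a b : ℝ) (ha : 0 < a) :
    Tendsto (fun s : ℕ => Chebyshev.theta (a * s - b) / s) atTop (𝓝 a) := by
  have h1 : Tendsto (fun s : ℕ => a * (s : ℝ) - b) atTop atTop := by
    have h := tendsto_atTop_add_const_right atTop (-b)
      ((tendsto_natCast_atTop_atTop (R := ℝ)).const_mul_atTop ha)
    exact h.congr fun s => by ring
  have h2 := theta_tendsto.comp h1
  have h3 : Tendsto (fun s : ℕ => (a * (s : ℝ) - b) / s) atTop (𝓝 a) := by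
    have h : Tendsto (fun s : ℕ => a - b / (s : ℝ)) atTop (𝓝 (a - 0)) :=
      tendsto_const_nhds.sub (tendsto_const_div_atTop_nhds_zero_nat b)
    rw [sub_zero] at h
    refine h.congr' ?_
    filter_upwards [eventually_gt_atTop 0] with s hs
    have hs' : (s : ℝ) ≠ 0 := by positivity
    field_simp
  have h4 := h2.mul h3
  rw [one_mul] at h4
  refine h4.congr' ?_
  filter_upwards [eventually_gt_atTop 0, h1.eventually_gt_atTop 0] with s hs hs'
  have hs1 : (s : ℝ) ≠ 0 := by positivity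
  have hs2 : a * (s : ℝ) - b ≠ 0 := hs'.ne'
  simp only [Function.comp]
  rw [div_mul_div_cancel₀ hs2]

/-- Lower bound for the sum over one interval. -/
theorem theta_sub_le (i s : ℕ) (hi : 5 ≤ i) (hi' : i ≤ 9) (hs : 1 ≤ s) :
    Chebyshev.theta (20 / (2 * i + 1) * s - 1 / (2 * i + 1)) -
      Chebyshev.theta (10 / (i + 1) * s - 0) ≤ ∑ p ∈ IS i s, Real.log (p : ℝ) := by
  set B : Finset ℕ := (Ioc 0 ⌊(20 / (2 * i + 1) * s - 1 / (2 * i + 1) : ℝ)⌋₊).filter Nat.Prime
  set A : Finset ℕ := (Ioc 0 ⌊(10 / (i + 1) * s - 0 : ℝ)⌋₊).filter Nat.Prime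
  have hs1 : (1 : ℝ) ≤ s := by exact_mod_cast hs
  have hi1 : (5 : ℝ) ≤ i := by exact_mod_cast hi
  have hi2 : (i : ℝ) ≤ 9 := by exact_mod_cast hi'
  have hp1 : (0 : ℝ) < i + 1 := by linarith
  have hp2 : (0 : ℝ) < 2 * i + 1 := by linarith
  have hle : (10 / (i + 1) * s - 0 : ℝ) ≤ 20 / (2 * i + 1) * s - 1 / (2 * i + 1) := by
    have e1 : (10 / (i + 1) * s - 0 : ℝ) = 10 * s / (i + 1) := by ring
    have e2 : (20 / (2 * i + 1) * s - 1 / (2 * i + 1) : ℝ) = (20 * s - 1) / (2 * i + 1) := by ring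
    rw [e1, e2, div_le_div_iff₀ hp1 hp2]
    nlinarith
  have hAB : A ⊆ B := by
    refine Finset.filter_subset_filter _ ?_
    exact Finset.Ioc_subset_Ioc_right (Nat.floor_le_floor hle)
  have hsub : B \ A ⊆ IS i s := by
    intro p hp
    rw [Finset.mem_sdiff] at hp
    obtain ⟨hpB, hpA⟩ := hp
    have hpB' := Finset.mem_filter.mp hpB
    obtain ⟨hpI, hpp⟩ := hpB'
    rw [Finset.mem_Ioc] at hpI
    have h1 : (p : ℝ) ≤ 20 / (2 * i + 1) * s - 1 / (2 * i + 1) := by
      refine (Nat.le_floor_iff' hpp.ne_zero).mp hpI.2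
    have h2 : (10 / (i + 1) * s - 0 : ℝ) < p := by
      by_contra hcon
      push Not at hcon
      refine hpA (Finset.mem_filter.mpr ⟨Finset.mem_Ioc.mpr ⟨hpp.pos, ?_⟩, hpp⟩)
      exact (Nat.le_floor_iff' hpp.ne_zero).mpr hcon
    have e1 : (10 / (i + 1) * s - 0 : ℝ) = 10 * s / (i + 1) := by ring
    have e2 : (20 / (2 * i + 1) * s - 1 / (2 * i + 1) : ℝ) = (20 * s - 1) / (2 * i + 1) := by ring
    rw [e2, le_div_iff₀ hp2] at h1
    rw [e1, div_lt_iff₀ hp1] at h2
    have h1' : (2 * i + 1) * p + 1 ≤ 20 * s := by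
      have : (((2 * i + 1) * p + 1 : ℕ) : ℝ) ≤ ((20 * s : ℕ) : ℝ) := by
        push_cast
        linarith
      exact_mod_cast this
    have h2' : 10 * s < (i + 1) * p := by
      have : ((10 * s : ℕ) : ℝ) < (((i + 1) * p : ℕ) : ℝ) := by
        push_cast
        linarith
      exact_mod_cast this
    refine Finset.mem_filter.mpr ⟨Finset.mem_range.mpr ?_, hpp, h2', h1'⟩
    nlinarith
  have h3 : ∑ p ∈ B \ A, Real.log (p : ℝ) + ∑ p ∈ A, Real.log (p : ℝ) =
      ∑ p ∈ B, Real.log (p : ℝ) := Finset.sum_sdiff hAB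
  have h4 : ∑ p ∈ B \ A, Real.log (p : ℝ) ≤ ∑ p ∈ IS i s, Real.log (p : ℝ) :=
    Finset.sum_le_sum_of_subset_of_nonneg hsub fun p _ _ => Real.log_natCast_nonneg p
  have h5 : Chebyshev.theta (20 / (2 * i + 1) * s - 1 / (2 * i + 1)) =
      ∑ p ∈ B, Real.log (p : ℝ) := rfl
  have h6 : Chebyshev.theta (10 / (i + 1) * s - 0) = ∑ p ∈ A, Real.log (p : ℝ) := rfl
  rw [h5, h6]
  linarith

theorem disj (s : ℕ) : ((Icc 5 9 : Finset ℕ) : Set ℕ).PairwiseDisjoint fun i => IS i s := by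
  have key : ∀ i j : ℕ, i < j → Disjoint (IS i s) (IS j s) := by
    intro i j hij
    rw [Finset.disjoint_left]
    intro p hp hq
    obtain ⟨_, _, h1, _⟩ := Finset.mem_filter.mp hp
    obtain ⟨_, _, _, h2⟩ := Finset.mem_filter.mp hq
    have h3 : (2 * i + 3) * p ≤ (2 * j + 1) * p := Nat.mul_le_mul_right _ (by omega)
    nlinarith
  intro i _ j _ hij
  rcases Nat.lt_or_gt_of_ne hij with h | h
  · exact key i j h
  · exact (key j i h).symm

theorem sum_le (s : ℕ) :
    ∑ i ∈ (Icc 5 9 : Finset ℕ), ∑ p ∈ IS i s, Real.log (p : ℝ) ≤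
      ∑ p ∈ prS s, Real.log (p : ℝ) := by
  rw [← Finset.sum_biUnion (disj s)]
  refine Finset.sum_le_sum_of_subset_of_nonneg ?_ fun p _ _ => Real.log_natCast_nonneg p
  intro p hp
  obtain ⟨i, hi, hpi⟩ := Finset.mem_biUnion.mp hp
  obtain ⟨h0, h1, h2, h3⟩ := Finset.mem_filter.mp hpi
  exact Finset.mem_filter.mpr ⟨h0, h1, i, hi, h2, h3⟩

theorem lim : Tendsto (fun s : ℕ => ∑ i ∈ (Icc 5 9 : Finset ℕ),
    (Chebyshev.theta (20 / (2 * i + 1) * s - 1 / (2 * i + 1)) / s -
      Chebyshev.theta (10 / (i + 1) * s - 0) / s)) atTop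
    (𝓝 (∑ i ∈ (Icc 5 9 : Finset ℕ), ((20 : ℝ) / (2 * i + 1) - 10 / (i + 1)))) := by
  refine tendsto_finsetSum _ fun i _ => ?_
  exact (theta_lin _ _ (by positivity)).sub (theta_lin _ _ (by positivity))

theorem lim_val : (0.45 : ℝ) < ∑ i ∈ (Icc 5 9 : Finset ℕ), ((20 : ℝ) / (2 * i + 1) - 10 / (i + 1)) := by
  have : (Icc 5 9 : Finset ℕ) = {5, 6, 7, 8, 9} := by decide
  rw [this]
  norm_num

end PrimeProdX

open PrimeProdX in
theorem prfPrimeProd : PrimeProd := by
  have h := (lim.eventually_const_lt lim_val).and (eventually_ge_atTop 1)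
  obtain ⟨s₀, hs₀⟩ := eventually_atTop.mp h
  refine ⟨s₀, fun s hs => ?_⟩
  obtain ⟨h1, h2⟩ := hs₀ s hs
  have hs1 : (0 : ℝ) < s := by exact_mod_cast h2
  have h3 : (0.45 : ℝ) * s ≤ ∑ i ∈ (Icc 5 9 : Finset ℕ),
      (Chebyshev.theta (20 / (2 * i + 1) * s - 1 / (2 * i + 1)) -
        Chebyshev.theta (10 / (i + 1) * s - 0)) := by
    have h4 := mul_lt_mul_of_pos_right h1 hs1
    rw [Finset.sum_mul] at h4
    refine h4.le.trans_eq (Finset.sum_congr rfl fun i _ => ?_)
    rw [sub_mul, div_mul_cancel₀ _ hs1.ne', div_mul_cancel₀ _ hs1.ne']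
  have h5 : (0.45 : ℝ) * s ≤ ∑ p ∈ prS s, Real.log (p : ℝ) := by
    refine h3.trans ((Finset.sum_le_sum fun i hi => ?_).trans (sum_le s))
    rw [Finset.mem_Icc] at hi
    exact theta_sub_le i s hi.1 hi.2 h2
  have h6 : ∏ p ∈ prS s, (p : ℝ) = Real.exp (∑ p ∈ prS s, Real.log (p : ℝ)) := by
    rw [Real.exp_sum]
    refine Finset.prod_congr rfl fun p hp => ?_
    obtain ⟨_, hpp, _⟩ := Finset.mem_filter.mp hp
    rw [Real.exp_log]
    exact_mod_cast hpp.pos
  rw [h6]
  exact Real.exp_le_exp.mpr h5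

end Pool.Agent.Work.MP_8d13b5_lc.Ex

end

section

/-!
# MP_8d13b5_lc, module Ex: the family theorem, proof
-/


open Finset

namespace Pool.Agent.Work.MP_8d13b5_lc.Ex

namespace FamTX

lemma norm_eq (z : GaussianInt) : z.norm = z.re ^ 2 + z.im ^ 2 := by
  rw [Zsqrtd.norm_def]
  ring

lemma norm_pow' (z : GaussianInt) (n : ℕ) : (z ^ n).norm = z.norm ^ n := by
  induction n with
  | zero => simp [Zsqrtd.norm_one]
  | succ n ih => rw [pow_succ, Zsqrtd.norm_mul, ih, pow_succ]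

lemma yy_cast (u : ℤ) : ((yy u : ℕ) : ℤ) = u ^ 2 + (u - 1) ^ 2 := by
  unfold yy
  rw [Int.natCast_natAbs, abs_of_nonneg (by positivity)]

lemma norm_bet (u : ℤ) : (bet u).norm = (yy u : ℤ) := by
  rw [yy_cast, norm_eq]
  simp only [bet]
  ring

lemma star_norm (z : GaussianInt) : (star z).norm = z.norm := by
  rw [norm_eq, norm_eq, Zsqrtd.re_star, Zsqrtd.im_star]
  ring

lemma yy_ge {u : ℤ} (hu : 120 ≤ u) : (28561 : ℝ) ≤ (yy u : ℝ) := by
  have h : (28561 : ℤ) ≤ (yy u : ℤ) := by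
    rw [yy_cast]
    nlinarith
  exact_mod_cast h

/-- The estimate for one `z` divisible by a power of `bet u`. -/
lemma key {y q K : ℝ} {C0 : ℕ} {L : ℝ} (m : ℕ) (hq : 1 < q) (hK : 1 ≤ K) (hL : 0 ≤ L)
    (h : (C0 : ℝ) * (1 + L) ≤ m → q ^ m ≤ K) :
    (m : ℝ) ≤ C0 * (1 + L) + Real.log K / Real.log q := by
  have hlq : 0 < Real.log q := Real.log_pos hq
  have h0 : 0 ≤ Real.log K / Real.log q := div_nonneg (Real.log_nonneg hK) hlq.le
  have h1 : (0 : ℝ) ≤ C0 * (1 + L) := by positivity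
  by_cases hm : (C0 : ℝ) * (1 + L) ≤ m
  · have h2 := h hm
    have h3 : Real.log (q ^ m) ≤ Real.log K := Real.log_le_log (by positivity) h2
    rw [Real.log_pow] at h3
    have h4 : (m : ℝ) ≤ Real.log K / Real.log q := (le_div_iff₀ hlq).2 h3
    linarith
  · push Not at hm
    linarith

lemma comb {y q K N A R : ℝ} {T m n r : ℕ} (hN : 1 ≤ N) (hy : 0 < y) (hA : 0 < A) (hR : 1 ≤ R)
    (hNT : N ^ T = y) (hn : n = T * m + r) (hr : r < T)
    (hq : q = y ^ 9 / (40000 ^ 2 * R ^ (22 * T))) (hK : K = y ^ 11 * A ^ 22 * R ^ (22 * T))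
    (h2 : ((y ^ 10 / 40000) ^ m) ^ 2 ≤ (N ^ n * (A * R ^ n) ^ 2) ^ 11) : q ^ m ≤ K := by
  have hR0 : 0 < R := by linarith
  have hN0 : 0 < N := by linarith
  have h3 : N ^ n ≤ y ^ m * y := by
    rw [hn, pow_add, pow_mul, hNT]
    refine mul_le_mul_of_nonneg_left ?_ (by positivity)
    rw [← hNT]
    exact pow_le_pow_right₀ hN hr.le
  have h4 : R ^ n ≤ (R ^ T) ^ m * R ^ T := by
    rw [hn, pow_add, pow_mul]
    exact mul_le_mul_of_nonneg_left (pow_le_pow_right₀ hR hr.le) (by positivity)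
  have h5 : (N ^ n * (A * R ^ n) ^ 2) ^ 11 ≤
      (y ^ m * y * (A * ((R ^ T) ^ m * R ^ T)) ^ 2) ^ 11 := by
    refine pow_le_pow_left₀ (by positivity) ?_ 11
    refine mul_le_mul h3 ?_ (by positivity) (by positivity)
    refine pow_le_pow_left₀ (by positivity) ?_ 2
    exact mul_le_mul_of_nonneg_left h4 hA.le
  have h6 := h2.trans h5
  have e0 : R ^ (22 * T) = (R ^ T) ^ 22 := by rw [← pow_mul, mul_comm]
  rw [e0] at hq hK
  obtain ⟨P, hP⟩ : ∃ P : ℝ, P = R ^ T := ⟨_, rfl⟩
  rw [← hP] at h6 hq hK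
  have hP0 : 0 < P := by rw [hP]; positivity
  have e2 : ((y ^ 10 / 40000) ^ m) ^ 2 = (y ^ 11 * P ^ 22) ^ m * q ^ m := by
    rw [hq, ← pow_mul, mul_comm m 2, pow_mul, ← mul_pow]
    congr 1
    field_simp
  have e3 : (y ^ m * y * (A * (P ^ m * P)) ^ 2) ^ 11 = (y ^ 11 * P ^ 22) ^ m * K := by
    rw [hK, mul_pow (y ^ 11) _ m, ← pow_mul y 11 m, ← pow_mul P 22 m]
    ring
  rw [e2, e3] at h6
  exact le_of_mul_le_mul_left h6 (by positivity)

lemma fin {m T n c a l g U D C1 : ℝ} (hT1 : 1 ≤ T) (hc : 0 ≤ c) (ha : 0 ≤ a) (hl : 0 ≤ l)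
    (hg : 0 < g) (hU : 0 ≤ U) (hD : 0 ≤ D) (hn : n ≤ T * (m + 1))
    (hfin : m ≤ c * (1 + (U + a)) + (D + 22 * l) / g)
    (hC1 : C1 = T * (c * (1 + U) + (D + 22) / g + 1)) : n ≤ (C1 + T * c) * (1 + a + l) := by
  have b1 : (D + 22 * l) / g ≤ (D + 22) / g * (1 + a + l) := by
    rw [div_mul_eq_mul_div]
    refine div_le_div_of_nonneg_right ?_ hg.le
    nlinarith [mul_nonneg hD ha, mul_nonneg hD hl]
  have b2 : c * (1 + (U + a)) ≤ (c * (1 + U) + c) * (1 + a + l) := by
    nlinarith [mul_nonneg hc ha, mul_nonneg hc hl, mul_nonneg (mul_nonneg hc hU) ha,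
      mul_nonneg (mul_nonneg hc hU) hl]
  have b3 : m + 1 ≤ (c * (1 + U) + c + (D + 22) / g + 1) * (1 + a + l) := by
    have : (1 : ℝ) ≤ 1 * (1 + a + l) := by linarith
    linarith
  have b4 : T * (m + 1) ≤ T * ((c * (1 + U) + c + (D + 22) / g + 1) * (1 + a + l)) :=
    mul_le_mul_of_nonneg_left b3 (by linarith)
  have b5 : T * ((c * (1 + U) + c + (D + 22) / g + 1) * (1 + a + l)) =
      (C1 + T * c) * (1 + a + l) := by
    rw [hC1]
    ring
  linarith

lemma norm_of_assoc {x z : GaussianInt} (h : Associated x z) : x.norm = z.norm := by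
  obtain ⟨v, hv⟩ := h
  have h3 : (v : GaussianInt).norm = 1 := by
    have := (Zsqrtd.norm_eq_one_iff (x := (v : GaussianInt))).2 v.isUnit
    have h4 := GaussianInt.norm_nonneg (v : GaussianInt)
    omega
  rw [← hv, Zsqrtd.norm_mul, h3, mul_one]

lemma norm_T {ρ : GaussianInt} {T : ℕ} {u : ℤ}
    (hass : Associated (ρ ^ T) (bet u) ∨ Associated (ρ ^ T) (star (bet u))) :
    ρ.norm ^ T = (yy u : ℤ) := by
  rw [← norm_pow']
  rcases hass with h | h
  · rw [norm_of_assoc h, norm_bet]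
  · rw [norm_of_assoc h, star_norm, norm_bet]

end FamTX

open FamTX

theorem prfFamT (hMain : Main) : FamT := by
  obtain ⟨C0, hC0⟩ := hMain
  intro ρ T u R hT hu hass hR hcond
  have hy := yy_ge hu
  obtain ⟨y, hyy⟩ : ∃ y : ℝ, y = (yy u : ℝ) := ⟨_, rfl⟩
  rw [← hyy] at hy hcond
  have hy0 : 0 < y := by linarith
  have hR0 : 0 < R := by linarith
  have hRT : 0 < R ^ (22 * T) := by positivity
  obtain ⟨q, hq⟩ : ∃ q : ℝ, q = y ^ 9 / (40000 ^ 2 * R ^ (22 * T)) := ⟨_, rfl⟩
  have hq1 : 1 < q := by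
    rw [hq, lt_div_iff₀ (by positivity)]
    linarith
  have hlq : 0 < Real.log q := Real.log_pos hq1
  have hu0 : (0 : ℝ) ≤ Real.log u := Real.log_nonneg (by
    have : (120 : ℝ) ≤ u := by exact_mod_cast hu
    linarith)
  obtain ⟨C1, hC1⟩ : ∃ C1 : ℝ, C1 = T * (C0 * (1 + Real.log u) +
      (11 * Real.log y + 22 * T * Real.log R + 22) / Real.log q + 1) := ⟨_, rfl⟩
  have hly : 0 ≤ Real.log y := Real.log_nonneg (by linarith)
  have hlR : 0 ≤ Real.log R := Real.log_nonneg hR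
  have hT1 : (1 : ℝ) ≤ T := by exact_mod_cast hT
  obtain ⟨C, hC⟩ := exists_nat_ge (C1 + T * C0)
  refine ⟨C, fun A w hA hw n hre => ?_⟩
  have hA0 : 0 < A := by linarith
  have hlA : 0 ≤ Real.log A := Real.log_nonneg hA
  obtain ⟨z, hz⟩ : ∃ z : GaussianInt, z = ρ ^ n * w n := ⟨_, rfl⟩
  rw [← hz] at hre ⊢
  have hre1 : (1 : ℝ) ≤ |(z.re : ℝ)| := by
    have : 1 ≤ |z.re| := Int.one_le_abs hre
    exact_mod_cast this
  have hlre : 0 ≤ Real.log |(z.re : ℝ)| := Real.log_nonneg hre1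
  obtain ⟨m, hm⟩ : ∃ m : ℕ, m = n / T := ⟨_, rfl⟩
  have hnm : n = T * m + n % T := by rw [hm]; exact (Nat.div_add_mod n T).symm
  have hr : n % T < T := Nat.mod_lt _ hT
  have hnρ : (ρ.norm : ℝ) ^ T = y := by
    rw [hyy]
    exact_mod_cast norm_T hass
  have hNρ : (1 : ℝ) ≤ (ρ.norm : ℝ) := by
    have h0 := GaussianInt.norm_nonneg ρ
    have h1 : ρ.norm ≠ 0 := by
      intro h
      rw [h] at hnρ
      push_cast at hnρ
      rw [zero_pow (by omega)] at hnρ
      linarith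
    have h2 : 1 ≤ ρ.norm := by omega
    exact_mod_cast h2
  -- divisibility
  have hdiv : bet u ^ m ∣ z ∨ bet u ^ m ∣ star z := by
    have h1 : (ρ ^ T) ^ m ∣ z := by
      have h2 : ρ ^ n = (ρ ^ T) ^ m * ρ ^ (n % T) := by
        rw [← pow_mul, ← pow_add, ← hnm]
      rw [hz, h2, mul_assoc]
      exact Dvd.intro _ rfl
    rcases hass with h | h
    · left
      exact (h.pow_pow (n := m)).symm.dvd.trans h1
    · right
      have h2 : star (bet u) ^ m ∣ z := (h.pow_pow (n := m)).symm.dvd.trans h1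
      obtain ⟨t, ht⟩ := h2
      refine ⟨star t, ?_⟩
      rw [ht, star_mul', star_pow, star_star]
  -- the main inequality
  have hmain : (C0 : ℝ) * (1 + Real.log u + Real.log |(z.re : ℝ)|) ≤ m →
      (y ^ 10 / 40000) ^ m ≤ |(z.im : ℝ)| ^ 11 := by
    intro h
    rcases hdiv with h1 | h1
    · rw [hyy]
      exact hC0 m u z hu h1 hre h
    · rw [hyy]
      have h2 := hC0 m u (star z) hu h1 (by rw [Zsqrtd.re_star]; exact hre)
        (by rw [Zsqrtd.re_star]; exact h)
      rw [Zsqrtd.im_star] at h2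
      push_cast at h2
      rwa [abs_neg] at h2
  have hnz : ((z.im : ℝ)) ^ 2 ≤ (ρ.norm : ℝ) ^ n * (A * R ^ n) ^ 2 := by
    have h1 : z.norm = ρ.norm ^ n * (w n).norm := by rw [hz, Zsqrtd.norm_mul, norm_pow']
    have h2 : (z.norm : ℝ) = (z.re : ℝ) ^ 2 + (z.im : ℝ) ^ 2 := by
      rw [norm_eq]
      push_cast
      ring
    have h3 : (z.norm : ℝ) = (ρ.norm : ℝ) ^ n * ((w n).norm : ℝ) := by
      rw [h1]
      push_cast
      ring
    have h4 : (ρ.norm : ℝ) ^ n * ((w n).norm : ℝ) ≤ (ρ.norm : ℝ) ^ n * (A * R ^ n) ^ 2 :=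
      mul_le_mul_of_nonneg_left (hw n) (by positivity)
    nlinarith [sq_nonneg (z.re : ℝ)]
  -- combine
  have hcomb : (C0 : ℝ) * (1 + (Real.log u + Real.log |(z.re : ℝ)|)) ≤ m →
      q ^ m ≤ y ^ 11 * A ^ 22 * R ^ (22 * T) := by
    intro h
    have h1 := hmain (by rw [add_assoc]; exact h)
    have h2 : ((y ^ 10 / 40000) ^ m) ^ 2 ≤ ((ρ.norm : ℝ) ^ n * (A * R ^ n) ^ 2) ^ 11 := by
      calc ((y ^ 10 / 40000) ^ m) ^ 2 ≤ (|(z.im : ℝ)| ^ 11) ^ 2 :=
            pow_le_pow_left₀ (by positivity) h1 2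
        _ = ((z.im : ℝ) ^ 2) ^ 11 := by rw [← sq_abs (z.im : ℝ)]; ring
        _ ≤ _ := pow_le_pow_left₀ (by positivity) hnz 11
    exact comb hNρ hy0 hA0 hR hnρ hnm hr hq rfl h2
  have hK : 1 ≤ y ^ 11 * A ^ 22 * R ^ (22 * T) := by
    have a1 : 1 ≤ y ^ 11 := one_le_pow₀ (by linarith)
    have a2 : 1 ≤ A ^ 22 := one_le_pow₀ hA
    have a3 : 1 ≤ R ^ (22 * T) := one_le_pow₀ hR
    have a4 : 1 ≤ y ^ 11 * A ^ 22 := one_le_mul_of_one_le_of_one_le a1 a2
    exact one_le_mul_of_one_le_of_one_le a4 a3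
  have hfin := key (y := y) m hq1 hK (by linarith) hcomb
  have hlK : Real.log (y ^ 11 * A ^ 22 * R ^ (22 * T)) =
      11 * Real.log y + 22 * Real.log A + 22 * T * Real.log R := by
    rw [Real.log_mul (by positivity) (by positivity), Real.log_mul (by positivity) (by positivity),
      Real.log_pow, Real.log_pow, Real.log_pow]
    push_cast
    ring
  rw [hlK] at hfin
  have hn : (n : ℝ) ≤ T * ((m : ℝ) + 1) := by
    have : n ≤ T * (m + 1) := by
      rw [mul_add, mul_one]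
      omega
    exact_mod_cast this
  have hlast := fin (D := 11 * Real.log y + 22 * T * Real.log R) (c := (C0 : ℝ)) hT1
    (Nat.cast_nonneg _) hlre hlA hlq hu0 (by positivity) hn
    (by
      refine hfin.trans (le_of_eq ?_)
      ring) hC1
  exact hlast.trans (mul_le_mul_of_nonneg_right hC (by linarith))

end Pool.Agent.Work.MP_8d13b5_lc.Ex

end

section

/-!
# MP_8d13b5_lc, module Ex: the decision procedure
-/


open Finset

namespace Pool.Agent.Work.MP_8d13b5_lc.Ex

open Pool.Agent.Work.MP_8d13b5_lc.US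

namespace DecX

/-- the data of the recurrence -/
def dat (v : List ℤ) : List ℤ × List ℤ := ([9, -10, 522, -4745, 4225], v)

/-- the sum of the absolute values -/
def sumA (v : List ℤ) : ℕ := v.foldr (fun a b => a.natAbs + b) 0

theorem primrec_sumA : Primrec sumA := by
  unfold sumA
  refine Primrec.list_foldr (f := fun l : List ℤ => l) (g := fun _ => 0)
    (h := fun _ (q : ℤ × ℕ) => q.1.natAbs + q.2) Primrec.id (Primrec.const 0) ?_
  exact Primrec.nat_add.comp₂ (primrec_natAbs.comp₂ (Primrec.fst.comp₂ Primrec₂.right))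
    (Primrec.snd.comp₂ Primrec₂.right)

theorem primrec_dat : Primrec dat := Primrec.pair (Primrec.const _) Primrec.id

theorem sumA_eq (u : ℕ → ℤ) : sumA [u 0, u 1, u 2, u 3, u 4] = sz u := by
  unfold sumA sz
  simp only [List.foldr_cons, List.foldr_nil]
  ring

theorem val_eq (u : ℕ → ℤ) (hu : Rec5 u) (n : ℕ) :
    u n = val (dat [u 0, u 1, u 2, u 3, u 4]) n := by
  refine eq_val _ ?_ u ?_ ?_ n
  · refine ⟨rfl, ?_, ?_⟩
    · show 1 ≤ 5
      omega
    · show (4225 : ℤ) ≠ 0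
      norm_num
  · intro i hi
    have hi' : i < 5 := hi
    interval_cases i <;> rfl
  · intro n
    show u (n + 5) = ∑ j ∈ range 5, ([9, -10, 522, -4745, 4225] : List ℤ).getD j 0 *
      u (n + 5 - 1 - j)
    rw [hu n]
    simp only [sum_range_succ, sum_range_zero]
    simp
    ring

end DecX

open DecX

/-- One primitive recursive procedure decides the Skolem problem for all sequences with the
recurrence `Rec5`. -/
theorem prfDec (h : Zeros) : ∃ M : List ℤ → Bool, Primrec M ∧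
    ∀ u : ℕ → ℤ, Rec5 u → (M [u 0, u 1, u 2, u 3, u 4] = true ↔ ∃ n, u n = 0) := by
  classical
  obtain ⟨C, hC⟩ := h
  refine ⟨fun v => decide (∃ n < C * (sumA v + 1) + 1, val (dat v) n = 0), ?_, ?_⟩
  · have hR : PrimrecRel (fun (m : ℕ) (x : List ℤ) => val (dat x) m = 0) :=
      Primrec.eq.comp (primrec_val.comp (primrec_dat.comp Primrec.snd) Primrec.fst)
        (Primrec.const 0)
    have hb : Primrec (fun v : List ℤ => C * (sumA v + 1) + 1) :=
      Primrec.nat_add.comp (Primrec.nat_mul.comp (Primrec.const C)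
        (Primrec.nat_add.comp primrec_sumA (Primrec.const 1))) (Primrec.const 1)
    exact ((rel_exists_lt hR).comp hb Primrec.id).decide.of_eq fun p => by simp
  · intro u hu
    rw [decide_eq_true_eq, sumA_eq]
    constructor
    · rintro ⟨n, _, hn⟩
      exact ⟨n, by rw [val_eq u hu n]; exact hn⟩
    · rintro ⟨n, hn⟩
      by_cases h0 : u = 0
      · refine ⟨0, by omega, ?_⟩
        rw [← val_eq u hu 0, h0]
        rfl
      · refine ⟨n, ?_, by rw [← val_eq u hu n]; exact hn⟩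
        have h1 := hC u hu h0 n hn
        have h2 : Real.log (sz u) ≤ (sz u : ℝ) := by
          have := Real.log_le_self (x := (sz u : ℝ)) (Nat.cast_nonneg _)
          exact this
        have h3 : (n : ℝ) ≤ C * ((sz u : ℝ) + 1) := by
          refine h1.trans (mul_le_mul_of_nonneg_left (by linarith) (Nat.cast_nonneg _))
        have h4 : n ≤ C * (sz u + 1) := by exact_mod_cast h3
        omega

end Pool.Agent.Work.MP_8d13b5_lc.Ex

end

section

/-!
# MP_8d13b5_lc, module Ex: assembly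
-/


namespace Pool.Agent.Work.MP_8d13b5_lc.Ex

theorem vandAll : Vand := prfVand prfHcFac

theorem miscAll : HcMisc := prfHcMisc prfHcFac

theorem padeAll : Pade := prfPade vandAll miscAll

theorem coreAll : CoreIneq :=
  prfCoreIneq (prfCong vandAll miscAll padeAll) (prfNonV prfHcFac) (prfContent prfHcFac padeAll)

theorem boundAll : Bound :=
  prfBound coreAll prfPrimeProd (prfSizeP prfHcFac) (prfSizeQ prfHcFac) prfBinom

theorem mainAll : Main := prfMain boundAll

theorem rhoAll : RhoBound := prfRhoBound mainAll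

theorem zerosAll : Zeros := prfZeros rhoAll prfDecomp prfXFacts

theorem famAll : FamT := prfFamT mainAll

theorem decAll : ∃ M : List ℤ → Bool, Primrec M ∧
    ∀ u : ℕ → ℤ, Rec5 u → (M [u 0, u 1, u 2, u 3, u 4] = true ↔ ∃ n, u n = 0) :=
  prfDec zerosAll

end Pool.Agent.Work.MP_8d13b5_lc.Ex

end

section

/-! [F1] Growth of linear recurrence sequences. -/


open Polynomial Finset

namespace Pool.Agent.Work.MP_8d13b5_lc.Ex

namespace GrowthX

open Pool.Agent.Work.MP_8d13b5_lc.Pd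

/-- the growth statement for a multiset of roots -/
theorem grow {R : ℝ} (hR : 1 ≤ R) (l : Multiset ℂ) (hl : ∀ z ∈ l, ‖z‖ < R) :
    ∃ K : ℝ, 1 ≤ K ∧ ∀ (s : ℕ → ℂ) (U : ℝ),
      aeval (shf ℂ) (l.map (fun z => X - C z)).prod s = 0 → 0 ≤ U →
      (∀ i < l.card, ‖s i‖ ≤ U) → ∀ n, ‖s n‖ ≤ K * U * R ^ n := by
  induction l using Multiset.induction_on with
  | empty =>
    refine ⟨1, le_refl 1, fun s U hs hU _ n => ?_⟩
    rw [Multiset.map_zero, Multiset.prod_zero, map_one, Module.End.one_apply] at hs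
    rw [hs, Pi.zero_apply, norm_zero]
    positivity
  | cons z l ih =>
    obtain ⟨c, hc1, hc⟩ := ih (fun w hw => hl w (Multiset.mem_cons_of_mem hw))
    have hz : ‖z‖ < R := hl z (Multiset.mem_cons_self z l)
    have hRz : 0 < R - ‖z‖ := sub_pos.mpr hz
    have hq : 0 ≤ c * (1 + R) / (R - ‖z‖) := by positivity
    refine ⟨1 + c * (1 + R) / (R - ‖z‖), by linarith, fun s U hs hU hs0 n => ?_⟩
    rw [Multiset.map_cons, Multiset.prod_cons, mul_comm, map_mul, Module.End.mul_apply] at hs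
    obtain ⟨s', hs'⟩ : ∃ s', s' = aeval (shf ℂ) (X - C z) s := ⟨_, rfl⟩
    rw [← hs'] at hs
    have hs'n : ∀ n, s' n = s (n + 1) - z * s n := by
      intro n
      rw [hs', map_sub, aeval_X, aeval_C, LinearMap.sub_apply, Pi.sub_apply,
        Module.algebraMap_end_apply, Pi.smul_apply, smul_eq_mul]
      rfl
    rw [Multiset.card_cons] at hs0
    have hs'0 : ∀ i < l.card, ‖s' i‖ ≤ (1 + R) * U := by
      intro i hi
      rw [hs'n]
      refine (norm_sub_le _ _).trans ?_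
      rw [norm_mul]
      have h1 := hs0 (i + 1) (by omega)
      have h2 := hs0 i (by omega)
      have h3 : ‖z‖ * ‖s i‖ ≤ R * U := mul_le_mul hz.le h2 (norm_nonneg _) (by linarith)
      linarith
    have ih' := hc s' ((1 + R) * U) hs (by positivity) hs'0
    have hC : c * (1 + R) ≤ (1 + c * (1 + R) / (R - ‖z‖)) * (R - ‖z‖) := by
      rw [add_mul, div_mul_cancel₀ _ hRz.ne']
      linarith
    obtain ⟨D, hD⟩ : ∃ D, D = 1 + c * (1 + R) / (R - ‖z‖) := ⟨_, rfl⟩
    rw [← hD] at hC ⊢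
    have hD1 : 1 ≤ D := by rw [hD]; linarith
    induction n with
    | zero =>
      have h1 := hs0 0 (by omega)
      rw [pow_zero, mul_one]
      exact h1.trans (le_mul_of_one_le_left hU hD1)
    | succ n ihn =>
      have h1 : s (n + 1) = s' n + z * s n := by rw [hs'n]; ring
      rw [h1]
      refine (norm_add_le _ _).trans ?_
      rw [norm_mul]
      have h2 := ih' n
      have h3 : ‖z‖ * ‖s n‖ ≤ ‖z‖ * (D * U * R ^ n) :=
        mul_le_mul_of_nonneg_left ihn (norm_nonneg _)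
      have h4 : c * (1 + R) * (U * R ^ n) ≤ D * (R - ‖z‖) * (U * R ^ n) :=
        mul_le_mul_of_nonneg_right hC (by positivity)
      rw [pow_succ]
      linarith

end GrowthX

open GrowthX Pool.Agent.Work.MP_8d13b5_lc.Pd in
theorem prfGrowth : Growth := by
  intro h R hm hR hroots
  have hspl : h.Splits := IsAlgClosed.splits _
  have hcard : h.roots.card = h.natDegree := by
    rw [← hspl.natDegree_eq_card_roots]
  have hprod : (h.roots.map (fun z => X - C z)).prod = h := by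
    have := hspl.eq_prod_roots
    rw [hm.leadingCoeff, C_1, one_mul] at this
    exact this.symm
  obtain ⟨c, hc1, hc⟩ := grow hR h.roots (fun z hz => hroots z (isRoot_of_mem_roots hz))
  refine ⟨c, hc1, fun s U hs hU hs0 n => hc s U ?_ hU ?_ n⟩
  · rw [hprod]
    exact (sol_iff _ _).1 hs
  · rw [hcard]
    exact hs0

end Pool.Agent.Work.MP_8d13b5_lc.Ex

end

section

/-! [F2] Splitting of a real linear recurrence sequence. -/


open Polynomial Finset

namespace Pool.Agent.Work.MP_8d13b5_lc.Ex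

namespace SplitWX

open Pool.Agent.Work.MP_8d13b5_lc.Pd

/-- a shift operator polynomial under a ring homomorphism -/
theorem aeval_map' {A B : Type*} [CommRing A] [CommRing B] (φ : A →+* B) (f : A[X]) (s : ℕ → A)
    (n : ℕ) : aeval (shf B) (f.map φ) (fun n => φ (s n)) n = φ (aeval (shf A) f s n) := by
  rw [aeval_eq_sum_range' (n := f.natDegree + 1)
    (lt_of_le_of_lt natDegree_map_le (Nat.lt_succ_self _)), LinearMap.sum_apply,
    Finset.sum_apply, aeval_shf, map_sum]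
  refine sum_congr rfl fun i _ => ?_
  rw [LinearMap.smul_apply, Pi.smul_apply, shf_pow, smul_eq_mul, coeff_map, map_mul]

theorem cj_cj (f : GaussianInt[X]) : cj (cj f) = f := by
  unfold cj
  rw [Polynomial.map_map]
  have : (starRingEnd GaussianInt).comp (starRingEnd GaussianInt) = RingHom.id GaussianInt :=
    RingHom.ext fun x => star_star x
  rw [this, Polynomial.map_id]

/-- Bezout identity over a domain -/
theorem bez {R L : Type*} (K : Type*) [CommRing R] [IsDomain R] [Field K] [Algebra R K]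
    [IsFractionRing R K] [Field L] (φ : R →+* L) (hφ : Function.Injective φ) (P Q : R[X])
    (h : IsCoprime (P.map φ) (Q.map φ)) :
    ∃ (A B : R[X]) (d : R), d ≠ 0 ∧ A * P + B * Q = C d := by
  let ψ : K →+* L := IsFractionRing.lift (A := R) (K := K) hφ
  have hψ : ψ.comp (algebraMap R K) = φ :=
    RingHom.ext fun x => IsFractionRing.lift_algebraMap hφ x
  have h1 : IsCoprime (P.map (algebraMap R K)) (Q.map (algebraMap R K)) := by
    rw [← Polynomial.isCoprime_map ψ, Polynomial.map_map, Polynomial.map_map, hψ]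
    exact h
  obtain ⟨a, b, hab⟩ := h1
  obtain ⟨c, hc, hc'⟩ := IsLocalization.integerNormalization_spec (nonZeroDivisors R) a
  obtain ⟨e, he, he'⟩ := IsLocalization.integerNormalization_spec (nonZeroDivisors R) b
  set A₀ := IsLocalization.integerNormalization (nonZeroDivisors R) a
  set B₀ := IsLocalization.integerNormalization (nonZeroDivisors R) b
  have hinj' : Function.Injective (Polynomial.map (algebraMap R K)) :=
    Polynomial.map_injective _ (IsFractionRing.injective R K)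
  have hc0 : c ≠ 0 := nonZeroDivisors.ne_zero hc
  have he0 : e ≠ 0 := nonZeroDivisors.ne_zero he
  have e1 : A₀.map (algebraMap R K) = C (algebraMap R K c) * a := by
    rw [hc', ← IsScalarTower.algebraMap_smul K c a, smul_eq_C_mul]
  have e2 : B₀.map (algebraMap R K) = C (algebraMap R K e) * b := by
    rw [he', ← IsScalarTower.algebraMap_smul K e b, smul_eq_C_mul]
  refine ⟨C e * A₀, C c * B₀, c * e, mul_ne_zero hc0 he0, ?_⟩
  apply hinj'
  simp only [Polynomial.map_add, Polynomial.map_mul, map_C, map_mul]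
  rw [e1, e2]
  have : C (algebraMap R K c) * C (algebraMap R K e) *
      (a * P.map (algebraMap R K) + b * Q.map (algebraMap R K)) =
      C (algebraMap R K c) * C (algebraMap R K e) := by rw [hab, mul_one]
  rw [← this]
  ring

/-- Bezout identity with a positive integer -/
theorem bezout (P Q : GaussianInt[X])
    (h : IsCoprime (P.map GaussianInt.toComplex) (Q.map GaussianInt.toComplex)) :
    ∃ (A B : GaussianInt[X]) (D : ℤ), 0 < D ∧ A * P + B * Q = C (D : GaussianInt) := by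
  obtain ⟨A, B, d, hd, hAB⟩ := bez (FractionRing GaussianInt) GaussianInt.toComplex
    (fun x y hxy => GaussianInt.toComplex_inj.1 hxy) P Q h
  refine ⟨C (star d) * A, C (star d) * B, Zsqrtd.norm d, GaussianInt.norm_pos.2 hd, ?_⟩
  rw [Zsqrtd.norm_eq_mul_conj, C_mul, ← hAB]
  ring

/-- real and imaginary part of a combination -/
theorem re_im_sum (N : ℕ) (γ : ℕ → GaussianInt) (x : ℕ → ℤ) :
    (∑ c ∈ range N, γ c * (x c : GaussianInt)).re = ∑ c ∈ range N, (γ c).re * x c ∧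
      (∑ c ∈ range N, γ c * (x c : GaussianInt)).im = ∑ c ∈ range N, (γ c).im * x c := by
  induction N with
  | zero => simp
  | succ N ih =>
    rw [sum_range_succ, sum_range_succ, sum_range_succ, Zsqrtd.re_add, Zsqrtd.im_add, ih.1, ih.2]
    constructor
    · congr 1
      simp
    · congr 1
      simp

/-- the norm of a bounded combination -/
theorem norm_bound {N : ℕ} (γ : ℕ → GaussianInt) (x : ℕ → ℤ) (M : ℤ)
    (h : ∀ c < N, |(γ c).re| ≤ M ∧ |(γ c).im| ≤ M) :
    (∑ c ∈ range N, γ c * (x c : GaussianInt)).norm ≤ 2 * M ^ 2 * (∑ j ∈ range N, |x j|) ^ 2 := by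
  obtain ⟨hre, him⟩ := re_im_sum N γ x
  have b1 : |∑ c ∈ range N, (γ c).re * x c| ≤ M * ∑ j ∈ range N, |x j| := by
    refine (abs_sum_le_sum_abs _ _).trans ?_
    rw [mul_sum]
    refine sum_le_sum fun c hc => ?_
    rw [abs_mul]
    exact mul_le_mul_of_nonneg_right (h c (mem_range.1 hc)).1 (abs_nonneg _)
  have b2 : |∑ c ∈ range N, (γ c).im * x c| ≤ M * ∑ j ∈ range N, |x j| := by
    refine (abs_sum_le_sum_abs _ _).trans ?_
    rw [mul_sum]
    refine sum_le_sum fun c hc => ?_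
    rw [abs_mul]
    exact mul_le_mul_of_nonneg_right (h c (mem_range.1 hc)).2 (abs_nonneg _)
  rw [Zsqrtd.norm_def, hre, him]
  have c1 := sq_le_sq' (neg_le_of_abs_le b1) (le_of_abs_le b1)
  have c2 := sq_le_sq' (neg_le_of_abs_le b2) (le_of_abs_le b2)
  nlinarith

end SplitWX

open SplitWX Pool.Agent.Work.MP_8d13b5_lc.Pd in
theorem prfSplitW : SplitW := by
  intro h ρ G hh hd hρ hG hGH hcop
  set d := h.natDegree with hdd
  set H := h.scaleRoots ρ with hH
  have hHm : H.Monic := monic_scaleRoots hh ρ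
  obtain ⟨A, B, D, hD, hAB⟩ := bezout H (cj H) hcop
  set P : GaussianInt[X] := B * cj H with hP
  set P' : GaussianInt[X] := A * H with hP'
  -- the coefficients of the sequence `X` in terms of the initial values
  obtain ⟨γ, hγ⟩ : ∃ γ : ℕ → ℕ → GaussianInt, ∀ j c, γ j c =
    ∑ k ∈ range (P.natDegree + 1), P.coeff k * ((cf G (j + k) c : ℤ) : GaussianInt) :=
    ⟨fun j c => ∑ k ∈ range (P.natDegree + 1), P.coeff k * ((cf G (j + k) c : ℤ) : GaussianInt),
      fun _ _ => rfl⟩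
  set M : ℤ := 1 + ∑ j ∈ range (2 * d), ∑ c ∈ range G.natDegree, (|(γ j c).re| + |(γ j c).im|)
    with hM
  have hM1 : ∀ j < 2 * d, ∀ c < G.natDegree, |(γ j c).re| ≤ M ∧ |(γ j c).im| ≤ M := by
    intro j hj c hc
    have h1 : |(γ j c).re| + |(γ j c).im| ≤ ∑ c ∈ range G.natDegree, (|(γ j c).re| + |(γ j c).im|) :=
      single_le_sum (f := fun c => |(γ j c).re| + |(γ j c).im|) (fun _ _ => by positivity)
        (mem_range.2 hc)
    have h2 : ∑ c ∈ range G.natDegree, (|(γ j c).re| + |(γ j c).im|) ≤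
        ∑ j ∈ range (2 * d), ∑ c ∈ range G.natDegree, (|(γ j c).re| + |(γ j c).im|) :=
      single_le_sum (f := fun j => ∑ c ∈ range G.natDegree, (|(γ j c).re| + |(γ j c).im|))
        (fun _ _ => sum_nonneg fun _ _ => by positivity) (mem_range.2 hj)
    have h3 := abs_nonneg (γ j c).re
    have h4 := abs_nonneg (γ j c).im
    constructor <;> linarith
  have hM0 : 0 < M := by
    have : 0 ≤ ∑ j ∈ range (2 * d), ∑ c ∈ range G.natDegree, (|(γ j c).re| + |(γ j c).im|) :=
      sum_nonneg fun _ _ => sum_nonneg fun _ _ => by positivity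
    omega
  refine ⟨D, 2 * M ^ 2, hD, by positivity, fun x hx => ?_⟩
  have hx' : Sol G x := hx
  set xg : ℕ → GaussianInt := fun n => (x n : GaussianInt) with hxg
  have hxG : aeval (shf GaussianInt) (H * cj H) xg = 0 := by
    have := hx'.map (Int.castRingHom GaussianInt)
    rw [hGH, sol_iff] at this
    exact this
  set Y : ℕ → GaussianInt := aeval (shf GaussianInt) P xg with hY
  set Y' : ℕ → GaussianInt := aeval (shf GaussianInt) P' xg with hY'
  have hYY : ∀ n, Y' n + Y n = (D : GaussianInt) * x n := by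
    intro n
    have h1 : Y' + Y = aeval (shf GaussianInt) (C (D : GaussianInt)) xg := by
      rw [hY, hY', ← hAB, map_add, LinearMap.add_apply]
    have h2 := congrFun h1 n
    rw [Pi.add_apply, aeval_C, Module.algebraMap_end_apply, Pi.smul_apply, smul_eq_mul] at h2
    exact h2
  have hHY : aeval (shf GaussianInt) H Y = 0 := by
    rw [hY, ← Module.End.mul_apply, ← map_mul, hP,
      show H * (B * cj H) = B * (H * cj H) by ring, map_mul, Module.End.mul_apply, hxG, map_zero]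
  have hHY' : aeval (shf GaussianInt) (cj H) Y' = 0 := by
    rw [hY', ← Module.End.mul_apply, ← map_mul, hP',
      show cj H * (A * H) = A * (H * cj H) by ring, map_mul, Module.End.mul_apply, hxG, map_zero]
  have hs1 : aeval (shf GaussianInt) (cj H) (fun n => star (Y n)) = 0 := by
    funext n
    have := aeval_map' (starRingEnd GaussianInt) H Y n
    rw [hHY, Pi.zero_apply, map_zero] at this
    exact this
  have hs2 : aeval (shf GaussianInt) H (fun n => star (Y' n)) = 0 := by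
    funext n
    have := aeval_map' (starRingEnd GaussianInt) (cj H) Y' n
    rw [hHY', Pi.zero_apply, map_zero] at this
    have h3 : (cj H).map (starRingEnd GaussianInt) = H := cj_cj H
    rw [h3] at this
    exact this
  -- `Y' = star Y`
  have hZ : ∀ n, Y' n = star (Y n) := by
    obtain ⟨Z, hZ⟩ : ∃ Z : ℕ → GaussianInt, Z = Y - fun n => star (Y' n) := ⟨_, rfl⟩
    have hZ' : Z = (fun n => star (Y n)) - Y' := by
      funext n
      rw [hZ, Pi.sub_apply, Pi.sub_apply]
      have h1 := hYY n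
      have h2 : star (Y' n) + star (Y n) = (D : GaussianInt) * x n := by
        have := congrArg star h1
        rw [star_add, star_mul, star_intCast, star_intCast] at this
        rw [this]; ring
      linear_combination h1 - h2
    have z1 : aeval (shf GaussianInt) H Z = 0 := by rw [hZ, map_sub, hHY, hs2, sub_zero]
    have z2 : aeval (shf GaussianInt) (cj H) Z = 0 := by rw [hZ', map_sub, hs1, hHY', sub_zero]
    have z3 : aeval (shf GaussianInt) (C (D : GaussianInt)) Z = 0 := by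
      rw [← hAB, map_add, LinearMap.add_apply, map_mul, map_mul, Module.End.mul_apply,
        Module.End.mul_apply, z1, z2, map_zero, map_zero, add_zero]
    intro n
    have z4 := congrFun z3 n
    rw [aeval_C, Module.algebraMap_end_apply, Pi.smul_apply, smul_eq_mul, Pi.zero_apply] at z4
    have hDne : (D : GaussianInt) ≠ 0 := by
      exact_mod_cast hD.ne'
    have z5 := (mul_eq_zero.1 z4).resolve_left hDne
    rw [hZ', Pi.sub_apply] at z5
    exact (sub_eq_zero.1 z5).symm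
  have hRe : ∀ n, D * x n = 2 * (Y n).re := by
    intro n
    have h1 := hYY n
    rw [hZ n] at h1
    have h2 := congrArg Zsqrtd.re h1
    rw [Zsqrtd.re_add, Zsqrtd.re_star] at h2
    have h3 : ((D : GaussianInt) * (x n : GaussianInt)).re = D * x n := by simp
    rw [h3] at h2
    linarith
  -- the sequence `W`
  set W₀ : ℕ → GaussianInt := fun n => ∑ c ∈ range h.natDegree, cf h n c * (ρ ^ (d - 1 - c) * Y c)
    with hW₀
  have hW₀s : Sol h W₀ := sol_of_init hh _
  have hW₀i : ∀ n < d, W₀ n = ρ ^ (d - 1 - n) * Y n := fun n hn => init_of_init hh _ hn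
  have hYs : Sol H Y := (sol_iff _ _).2 hHY
  have hWY : ∀ n, ρ ^ n * W₀ n = ρ ^ (d - 1) * Y n := by
    refine Sol.ext hHm (hW₀s.scale ρ) (hYs.smul _) ?_
    intro i hi
    rw [natDegree_scaleRoots] at hi
    rw [hW₀i i hi, ← mul_assoc, ← pow_add]
    congr 2
    omega
  have hWn : ∀ n, ρ ^ n * W₀ (n + (d - 1)) = Y (n + (d - 1)) := by
    intro n
    have h1 := hWY (n + (d - 1))
    have h2 : ρ ^ (d - 1) ≠ 0 := pow_ne_zero _ hρ
    rw [pow_add] at h1
    apply mul_left_cancel₀ h2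
    rw [← h1]
    ring
  refine ⟨fun n => W₀ (n + (d - 1)), ?_, ?_, ?_⟩
  · intro n
    have := hW₀s (n + (d - 1))
    rw [← this]
    refine sum_congr rfl fun i _ => ?_
    show h.coeff i * W₀ (n + i + (d - 1)) = _
    rw [show n + i + (d - 1) = n + (d - 1) + i by ring]
  · intro n
    show D * x (n + (d - 1)) = 2 * (ρ ^ n * W₀ (n + (d - 1))).re
    rw [hWn, hRe]
  · intro i hi
    show (W₀ (i + (d - 1))).norm ≤ _
    have h1 : (W₀ (i + (d - 1))).norm ≤ (Y (i + (d - 1))).norm := by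
      rw [← hWn i, Zsqrtd.norm_mul]
      have h2 : 1 ≤ (ρ ^ i).norm := by
        have := GaussianInt.norm_pos.2 (pow_ne_zero i hρ)
        omega
      have h3 := GaussianInt.norm_nonneg (W₀ (i + (d - 1)))
      nlinarith
    refine h1.trans ?_
    have h4 : Y (i + (d - 1)) = ∑ c ∈ range G.natDegree, γ (i + (d - 1)) c * (x c : GaussianInt) := by
      rw [hY, aeval_shf]
      have : ∀ k, xg (i + (d - 1) + k) =
          ∑ c ∈ range G.natDegree,
            ((cf G (i + (d - 1) + k) c : ℤ) : GaussianInt) * (x c : GaussianInt) := by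
        intro k
        rw [hxg]
        show ((x (i + (d - 1) + k) : ℤ) : GaussianInt) = _
        rw [hx'.expand hG (i + (d - 1) + k)]
        push_cast
        rfl
      simp only [this, mul_sum]
      rw [sum_comm]
      refine sum_congr rfl fun c _ => ?_
      rw [hγ, sum_mul]
      refine sum_congr rfl fun k _ => ?_
      ring
    rw [h4]
    exact norm_bound _ _ M fun c hc => hM1 _ (by omega) c hc

end Pool.Agent.Work.MP_8d13b5_lc.Ex

end

section

/-!
# MP_8d13b5_lc, module Ex: linear recurrence sequences of all orders, proof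
-/


open Finset Polynomial

namespace Pool.Agent.Work.MP_8d13b5_lc.Ex

namespace LrsFamX

open Pool.Agent.Work.MP_8d13b5_lc.Pd

lemma const_part {G : ℤ[X]} {v : ℕ → ℤ} (hv : RecP ((X - 1) * G) v) (n : ℕ) :
    ∑ i ∈ range (G.natDegree + 1), G.coeff i * v (n + i) =
      ∑ i ∈ range (G.natDegree + 1), G.coeff i * v i := by
  have h1 : aeval (shf ℤ) ((X - 1) * G) v = 0 := (sol_iff _ v).1 hv
  rw [map_mul, Module.End.mul_apply] at h1
  have h2 : ∀ k, (aeval (shf ℤ) G) v (k + 1) = (aeval (shf ℤ) G) v k := by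
    intro k
    have h3 := congrFun h1 k
    rw [map_sub, aeval_X, map_one, LinearMap.sub_apply, Module.End.one_apply] at h3
    exact sub_eq_zero.1 h3
  have h4 : (aeval (shf ℤ) G) v n = (aeval (shf ℤ) G) v 0 := by
    induction n with
    | zero => rfl
    | succ n ih => rw [h2, ih]
  rw [aeval_shf, aeval_shf] at h4
  simpa using h4

lemma eval_one_eq (G : ℤ[X]) : G.eval 1 = ∑ i ∈ range (G.natDegree + 1), G.coeff i := by
  rw [eval_eq_sum_range]
  refine sum_congr rfl fun i _ => ?_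
  rw [one_pow, mul_one]

lemma rec_x {G : ℤ[X]} {v : ℕ → ℤ} {c0 : ℤ}
    (hc : ∀ n, ∑ i ∈ range (G.natDegree + 1), G.coeff i * v (n + i) = c0) :
    RecP G (fun n => G.eval 1 * v n - c0) := by
  intro n
  have h1 : ∑ i ∈ range (G.natDegree + 1), G.coeff i * (G.eval 1 * v (n + i) - c0) =
      G.eval 1 * ∑ i ∈ range (G.natDegree + 1), G.coeff i * v (n + i) -
        (∑ i ∈ range (G.natDegree + 1), G.coeff i) * c0 := by
    rw [mul_sum, sum_mul, ← sum_sub_distrib]
    refine sum_congr rfl fun i _ => ?_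
    ring
  show ∑ i ∈ range (G.natDegree + 1), G.coeff i * (G.eval 1 * v (n + i) - c0) = 0
  rw [h1, hc, ← eval_one_eq]
  ring

lemma c0_le (G : ℤ[X]) (v : ℕ → ℤ) : |∑ i ∈ range (G.natDegree + 1), G.coeff i * v i| ≤
    (∑ i ∈ range (G.natDegree + 1), |G.coeff i|) * ∑ j ∈ range (G.natDegree + 1), |v j| := by
  refine (abs_sum_le_sum_abs _ _).trans ?_
  rw [sum_mul]
  refine sum_le_sum fun i hi => ?_
  rw [abs_mul]
  exact mul_le_mul_of_nonneg_left (single_le_sum (f := fun j => |v j|)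
    (fun j _ => abs_nonneg _) hi) (abs_nonneg _)

lemma x_le (G : ℤ[X]) (v : ℕ → ℤ) {c0 A S g : ℤ} (hc : |c0| ≤ A * S)
    (hS : S = ∑ j ∈ range (G.natDegree + 1), |v j|) (hg : g = |G.eval 1|) :
    ∑ j ∈ range G.natDegree, |G.eval 1 * v j - c0| ≤ (g + G.natDegree * A) * S := by
  have h1 : ∑ j ∈ range G.natDegree, |G.eval 1 * v j - c0| ≤
      ∑ j ∈ range G.natDegree, (g * |v j| + A * S) := by
    refine sum_le_sum fun j _ => ?_
    refine (abs_sub _ _).trans ?_
    rw [abs_mul, ← hg]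
    linarith
  have h2 : ∑ j ∈ range G.natDegree, |v j| ≤ S := by
    rw [hS, sum_range_succ]
    linarith [abs_nonneg (v G.natDegree)]
  have h0 : 0 ≤ g := by rw [hg]; exact abs_nonneg _
  refine h1.trans ?_
  rw [sum_add_distrib, ← mul_sum, sum_const, card_range, nsmul_eq_mul]
  have h3 := mul_le_mul_of_nonneg_left h2 h0
  linarith

lemma monic_G {h : GaussianInt[X]} {ρ : GaussianInt} {G : ℤ[X]} (hm : h.Monic)
    (hmap : G.map (Int.castRingHom GaussianInt) = h.scaleRoots ρ * cj (h.scaleRoots ρ)) :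
    G.Monic := by
  have h1 : (h.scaleRoots ρ).Monic := (monic_scaleRoots_iff ρ).2 hm
  have h2 : (cj (h.scaleRoots ρ)).Monic := h1.map _
  have h3 : (G.map (Int.castRingHom GaussianInt)).Monic := by
    rw [hmap]
    exact h1.mul h2
  refine monic_of_injective ?_ h3
  intro a b hab
  have := congrArg Zsqrtd.re hab
  simpa using this

lemma recP_toComplex {h : GaussianInt[X]} (hm : h.Monic) {W : ℕ → GaussianInt}
    (hW : RecP h W) :
    RecP (h.map GaussianInt.toComplex) (fun n => GaussianInt.toComplex (W n)) := by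
  intro n
  rw [hm.natDegree_map]
  have h1 := congrArg GaussianInt.toComplex (hW n)
  rw [map_sum, map_zero] at h1
  rw [← h1]
  refine sum_congr rfl fun i _ => ?_
  rw [coeff_map, map_mul]

lemma normSq_le {w : GaussianInt} {U : ℝ} (hU : 0 ≤ U) :
    ((w.norm : ℤ) : ℝ) ≤ U ^ 2 ↔ ‖GaussianInt.toComplex w‖ ≤ U := by
  rw [GaussianInt.intCast_real_norm, Complex.normSq_eq_norm_sq]
  exact pow_le_pow_iff_left₀ (norm_nonneg _) hU (by norm_num)

end LrsFamX

open LrsFamX

theorem prfLrsFam (hF : FamT) (hG : Growth) (hS : SplitW) : LrsFam := by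
  intro ρ T u R h G hT hu hass hR hcond hmon hdeg hroots hmap hcop hG1
  have hy := FamTX.yy_ge hu
  have hρ : ρ ≠ 0 := by
    intro h0
    have h1 := FamTX.norm_T hass
    rw [h0] at h1
    have h2 : (0 : GaussianInt).norm = 0 := Zsqrtd.norm_zero
    rw [h2, zero_pow (by omega)] at h1
    have h3 : (yy u : ℝ) = 0 := by exact_mod_cast h1.symm
    linarith
  have hGm := monic_G hmon hmap
  obtain ⟨D, B, hD, hB, hsplit⟩ := hS h ρ G hmon hdeg hρ hGm hmap hcop
  obtain ⟨Cg, hCg1, hCg⟩ := hG (h.map GaussianInt.toComplex) R (hmon.map _) hR hroots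
  obtain ⟨Cf, hCf⟩ := hF ρ T u R hT hu hass hR hcond
  obtain ⟨A, hA⟩ : ∃ A : ℤ, A = ∑ i ∈ range (G.natDegree + 1), |G.coeff i| := ⟨_, rfl⟩
  have hA0 : 0 ≤ A := by rw [hA]; exact sum_nonneg fun _ _ => abs_nonneg _
  obtain ⟨K, hK⟩ : ∃ K : ℤ, K = |G.eval 1| + G.natDegree * A := ⟨_, rfl⟩
  have hK1 : 1 ≤ K := by
    have h1 : 1 ≤ |G.eval 1| := Int.one_le_abs hG1
    have h2 : 0 ≤ (G.natDegree : ℤ) * A := by positivity
    rw [hK]
    linarith
  have hKr : (1 : ℝ) ≤ K := by exact_mod_cast hK1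
  have hBr : (1 : ℝ) ≤ B := by exact_mod_cast hB
  have hDr : (1 : ℝ) ≤ D := by exact_mod_cast hD
  have hAr : (0 : ℝ) ≤ A := by exact_mod_cast hA0
  obtain ⟨d, hd⟩ : ∃ d : ℕ, d = h.natDegree - 1 := ⟨_, rfl⟩
  obtain ⟨E, hE⟩ : ∃ E : ℝ, E = Real.log (D * (A + 1)) := ⟨_, rfl⟩
  obtain ⟨E', hE'⟩ : ∃ E' : ℝ, E' = Real.log (Cg * (B * K)) := ⟨_, rfl⟩
  have hBK : (1 : ℝ) ≤ B * K := one_le_mul_of_one_le_of_one_le hBr hKr
  have hCBK : (1 : ℝ) ≤ Cg * (B * K) := one_le_mul_of_one_le_of_one_le hCg1 hBK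
  have hDA : (1 : ℝ) ≤ D * (A + 1) := one_le_mul_of_one_le_of_one_le hDr (by linarith)
  have hE0 : 0 ≤ E := by rw [hE]; exact Real.log_nonneg hDA
  have hE'0 : 0 ≤ E' := by rw [hE']; exact Real.log_nonneg hCBK
  obtain ⟨C, hC⟩ := exists_nat_ge ((d : ℝ) + Cf * (3 + E + E'))
  refine ⟨C, fun v hv hnv n hvn => ?_⟩
  obtain ⟨S, hSd⟩ : ∃ S : ℤ, S = ∑ j ∈ range (G.natDegree + 1), |v j| := ⟨_, rfl⟩
  obtain ⟨c0, hc0⟩ : ∃ c0 : ℤ, c0 = ∑ i ∈ range (G.natDegree + 1), G.coeff i * v i := ⟨_, rfl⟩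
  have hconst : ∀ n, ∑ i ∈ range (G.natDegree + 1), G.coeff i * v (n + i) = c0 := fun n => by
    rw [hc0]
    exact const_part hv n
  have hc0ne : c0 ≠ 0 := by
    intro h0
    refine hnv fun n => ?_
    rw [hconst n, h0]
  have hc0le : |c0| ≤ A * S := by
    rw [hc0, hA, hSd]
    exact c0_le G v
  have hS0 : 0 ≤ S := by rw [hSd]; exact sum_nonneg fun _ _ => abs_nonneg _
  have hS1 : 1 ≤ S := by
    by_contra hlt
    have h1 : S = 0 := by omega
    rw [h1, mul_zero] at hc0le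
    exact hc0ne (abs_nonpos_iff.1 hc0le)
  have hSr : (1 : ℝ) ≤ S := by exact_mod_cast hS1
  have hlS : 0 ≤ Real.log S := Real.log_nonneg hSr
  have hsum : (∑ j ∈ range (G.natDegree + 1), |(v j : ℝ)|) = (S : ℝ) := by
    rw [hSd]
    push_cast
    rfl
  rw [hsum]
  obtain ⟨W, hW1, hW2, hW3⟩ := hsplit _ (rec_x hconst)
  -- size of `W`
  obtain ⟨U, hU⟩ : ∃ U : ℝ, U = B * K * S := ⟨_, rfl⟩
  have hU1 : 1 ≤ U := by rw [hU]; exact one_le_mul_of_one_le_of_one_le hBK hSr
  have hWi : ∀ i < (h.map GaussianInt.toComplex).natDegree, ‖GaussianInt.toComplex (W i)‖ ≤ U := by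
    intro i hi
    rw [hmon.natDegree_map] at hi
    rw [← normSq_le (by linarith)]
    have h1 := hW3 i hi
    have h2 : ∑ j ∈ range G.natDegree, |G.eval 1 * v j - c0| ≤ K * S := by
      rw [hK]
      exact x_le G v hc0le hSd rfl
    have h3 : (0 : ℤ) ≤ ∑ j ∈ range G.natDegree, |G.eval 1 * v j - c0| :=
      sum_nonneg fun _ _ => abs_nonneg _
    have h4 : (W i).norm ≤ B * (K * S) ^ 2 :=
      h1.trans (mul_le_mul_of_nonneg_left (pow_le_pow_left₀ h3 h2 2) hB.le)
    have h5 : (((W i).norm : ℤ) : ℝ) ≤ B * (K * S) ^ 2 := by exact_mod_cast h4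
    refine h5.trans ?_
    rw [hU]
    have e1 : ((B : ℝ) * K * S) ^ 2 = B * (B * (K * S) ^ 2) := by ring
    rw [e1]
    exact le_mul_of_one_le_left (by positivity) hBr
  have hgr := hCg (fun n => GaussianInt.toComplex (W n)) U (recP_toComplex hmon hW1) (by linarith) hWi
  have hw : ∀ k, (((W k).norm : ℤ) : ℝ) ≤ (Cg * U * R ^ k) ^ 2 := fun k => by
    rw [normSq_le (by positivity)]
    exact hgr k
  have hlogA : Real.log (Cg * U) = E' + Real.log S := by
    rw [hE', hU, ← Real.log_mul (by positivity) (by positivity)]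
    congr 1
    ring
  by_cases hnd : n < d
  · have h1 : (n : ℝ) ≤ d := by exact_mod_cast hnd.le
    have h2 : (d : ℝ) ≤ C := by
      have : 0 ≤ (Cf : ℝ) * (3 + E + E') := by positivity
      linarith
    have h3 : (C : ℝ) * 1 ≤ C * (1 + Real.log S) :=
      mul_le_mul_of_nonneg_left (by linarith) (Nat.cast_nonneg _)
    linarith
  · push Not at hnd
    obtain ⟨k, hk⟩ := Nat.exists_eq_add_of_le hnd
    have h1 := hW2 k
    rw [← hd, add_comm k d, ← hk, hvn, mul_zero, zero_sub] at h1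
    have hre : (ρ ^ k * W k).re ≠ 0 := by
      intro h0
      rw [h0, mul_zero] at h1
      rcases mul_eq_zero.1 h1 with h2 | h2
      · omega
      · exact hc0ne (neg_eq_zero.1 h2)
    have h2 := hCf (Cg * U) W (one_le_mul_of_one_le_of_one_le hCg1 hU1) hw k hre
    have h3 : |((ρ ^ k * W k).re : ℝ)| ≤ D * (A + 1) * S := by
      have h4 : 2 * |(ρ ^ k * W k).re| = D * |c0| := by
        have h5 := congrArg abs h1
        rw [abs_mul, abs_mul, abs_neg, abs_of_pos hD] at h5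
        rw [h5]
        norm_num
      have h5 : |(ρ ^ k * W k).re| ≤ D * ((A + 1) * S) := by
        have h6 : D * |c0| ≤ D * (A * S) := mul_le_mul_of_nonneg_left hc0le hD.le
        have h7 : 0 ≤ D * S := by positivity
        have h8 := abs_nonneg (ρ ^ k * W k).re
        have e : D * ((A + 1) * S) = D * (A * S) + D * S := by ring
        rw [e]
        omega
      have h9 : ((|(ρ ^ k * W k).re| : ℤ) : ℝ) ≤ ((D * ((A + 1) * S) : ℤ) : ℝ) := by
        exact_mod_cast h5
      push_cast at h9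
      linarith
    have h4 : Real.log |((ρ ^ k * W k).re : ℝ)| ≤ E + Real.log S := by
      rw [hE, ← Real.log_mul (by positivity) (by positivity)]
      refine Real.log_le_log ?_ h3
      rw [abs_pos]
      exact_mod_cast hre
    rw [hlogA] at h2
    obtain ⟨lS, hlSd⟩ : ∃ lS : ℝ, lS = Real.log S := ⟨_, rfl⟩
    rw [← hlSd] at h2 h4 hlS
    rw [← hlSd]
    have h5 : (n : ℝ) = d + k := by rw [hk]; push_cast; ring
    have c0' : (0 : ℝ) ≤ Cf := Nat.cast_nonneg _
    have h6 : (Cf : ℝ) * (1 + Real.log |((ρ ^ k * W k).re : ℝ)| + (E' + lS)) ≤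
        Cf * ((3 + E + E') * (1 + lS)) := by
      refine mul_le_mul_of_nonneg_left ?_ c0'
      have h7 : 0 ≤ (E + E') * lS := by positivity
      have e : (3 + E + E') * (1 + lS) = 3 + E + E' + 3 * lS + (E + E') * lS := by ring
      rw [e]
      linarith
    have h7 : (d : ℝ) ≤ d * (1 + lS) := by
      have : (0 : ℝ) ≤ d * lS := by positivity
      have e : (d : ℝ) * (1 + lS) = d + d * lS := by ring
      rw [e]
      linarith
    have h8 : ((d : ℝ) + Cf * (3 + E + E')) * (1 + lS) ≤ C * (1 + lS) :=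
      mul_le_mul_of_nonneg_right hC (by linarith)
    rw [h5]
    calc (d : ℝ) + k ≤ d * (1 + lS) + Cf * ((3 + E + E') * (1 + lS)) := by linarith
      _ = ((d : ℝ) + Cf * (3 + E + E')) * (1 + lS) := by ring
      _ ≤ _ := h8

end Pool.Agent.Work.MP_8d13b5_lc.Ex

end
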