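import Pool.Agent.Work.MP_8d13b5_lc.Ex.PartB
import Pool.Agent.Work.MP_8d13b5_lc.Ex2.Core
import Pool.Agent.Work.MP_8d13b5_lc.Ex2.Prime

/-!
# MP_8d13b5_lc, module Ex, part C: all constants explicit, relative to an explicit estimate `PB s₀`
for the product of the primes of `prT s`, which holds for `s₀ = 10 ^ 90` (module Ex2)
-/

set_option autoImplicit false

open Finset

namespace Pool.Agent.Work.MP_8d13b5_lc.Ex

/-- The prime number estimate from `x₀` on. -/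
def Th (x₀ : ℕ) : Prop := ∀ x : ℝ, (x₀ : ℝ) ≤ x → |Chebyshev.theta x - x| ≤ x / 600

/-- The estimate for the product of the primes from `s₀` on. -/
def PB (s₀ : ℕ) : Prop := ∀ s : ℕ, s₀ ≤ s → Real.exp (0.44 * s) ≤ ∏ p ∈ Ex2.prT s, (p : ℝ)

/-- The explicit constant (helper88, module Ex2). -/
theorem PB_explicit : PB (10 ^ 90) := fun s hs => Ex2.prod44 s hs

namespace EPrime

theorem one (x₀ : ℕ) (h : Th x₀) (s i : ℕ) (hs : x₀ ≤ s) (hs1 : 1000 ≤ s) (hi : 5 ≤ i)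
    (hi' : i ≤ 9) :
    (20 / (2 * (i : ℝ) + 1) * s - 1 / (2 * i + 1)) * (599 / 600) -
        10 / ((i : ℝ) + 1) * s * (601 / 600) ≤
      Chebyshev.theta (20 / (2 * i + 1) * s - 1 / (2 * i + 1)) -
        Chebyshev.theta (10 / (i + 1) * s - 0) := by
  have hs' : (x₀ : ℝ) ≤ s := by exact_mod_cast hs
  have hs2 : (1000 : ℝ) ≤ s := by exact_mod_cast hs1
  have hi1 : (5 : ℝ) ≤ i := by exact_mod_cast hi
  have hi2 : (i : ℝ) ≤ 9 := by exact_mod_cast hi'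
  have a1 : (s : ℝ) ≤ 20 / (2 * (i : ℝ) + 1) * s - 1 / (2 * i + 1) := by
    rw [div_mul_eq_mul_div, ← sub_div, le_div_iff₀ (by linarith)]
    nlinarith
  have a2 : (s : ℝ) ≤ 10 / ((i : ℝ) + 1) * s - 0 := by
    rw [sub_zero, div_mul_eq_mul_div, le_div_iff₀ (by linarith)]
    nlinarith
  have h1 := (abs_le.1 (h _ (hs'.trans a1))).1
  have h2 := (abs_le.1 (h _ (hs'.trans a2))).2
  linarith

theorem prod_ge (x₀ : ℕ) (h : Th x₀) (s : ℕ) (hs : x₀ ≤ s) (hs1 : 1000 ≤ s) :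
    Real.exp (0.44 * s) ≤ ∏ p ∈ prS s, (p : ℝ) := by
  have hs2 : (1000 : ℝ) ≤ s := by exact_mod_cast hs1
  have h3 : (0.44 : ℝ) * s ≤ ∑ i ∈ (Icc 5 9 : Finset ℕ),
      (Chebyshev.theta (20 / (2 * i + 1) * s - 1 / (2 * i + 1)) -
        Chebyshev.theta (10 / (i + 1) * s - 0)) := by
    have h4 : ∑ i ∈ (Icc 5 9 : Finset ℕ), ((20 / (2 * (i : ℝ) + 1) * s - 1 / (2 * i + 1)) *
        (599 / 600) - 10 / ((i : ℝ) + 1) * s * (601 / 600)) ≤ ∑ i ∈ (Icc 5 9 : Finset ℕ),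
      (Chebyshev.theta (20 / (2 * i + 1) * s - 1 / (2 * i + 1)) -
        Chebyshev.theta (10 / (i + 1) * s - 0)) := by
      refine Finset.sum_le_sum fun i hi => ?_
      rw [Finset.mem_Icc] at hi
      exact one x₀ h s i hs hs1 hi.1 hi.2
    refine le_trans ?_ h4
    have e : (Icc 5 9 : Finset ℕ) = {5, 6, 7, 8, 9} := by decide
    rw [e]
    norm_num
    linarith
  have h5 : (0.44 : ℝ) * s ≤ ∑ p ∈ prS s, Real.log (p : ℝ) := by
    refine h3.trans ((Finset.sum_le_sum fun i hi => ?_).trans (PrimeProdX.sum_le s))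
    rw [Finset.mem_Icc] at hi
    exact PrimeProdX.theta_sub_le i s hi.1 hi.2 (by omega)
  have h6 : ∏ p ∈ prS s, (p : ℝ) = Real.exp (∑ p ∈ prS s, Real.log (p : ℝ)) := by
    rw [Real.exp_sum]
    refine Finset.prod_congr rfl fun p hp => ?_
    obtain ⟨_, hpp, _⟩ := Finset.mem_filter.mp hp
    rw [Real.exp_log]
    exact_mod_cast hpp.pos
  rw [h6]
  exact Real.exp_le_exp.mpr h5

theorem prS_sub (s : ℕ) : prS s ⊆ Ex2.prT s := by
  intro p hp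
  obtain ⟨h0, hpp, i, hi, h1, h2⟩ := Finset.mem_filter.mp hp
  rw [Finset.mem_Icc] at hi
  have hp0 : 0 < p := hpp.pos
  have h3 : 20 * s / p = 2 * i + 1 := by
    rw [Nat.div_eq_iff hp0]
    constructor
    · linarith
    · have : 20 * s < 2 * ((i + 1) * p) := by linarith
      have e : (2 * i + 1) * p + p = 2 * ((i + 1) * p) := by ring
      omega
  have h4 : 2 * s / p = 1 := by
    rw [Nat.div_eq_iff hp0]
    have h5 : (i + 1) * p ≤ 10 * p := Nat.mul_le_mul_right p (by omega)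
    rw [Finset.mem_range] at h0
    constructor
    · omega
    · omega
  refine Finset.mem_filter.mpr ⟨h0, hpp, ?_, ?_⟩
  · rw [h3]
    omega
  · rw [h4]

theorem PB_of_Th (x₀ : ℕ) (h1 : 1000 ≤ x₀) (h : Th x₀) : PB x₀ := by
  intro s hs
  refine (prod_ge x₀ h s hs (h1.trans hs)).trans ?_
  rw [← Finset.prod_sdiff (prS_sub s)]
  refine le_mul_of_one_le_left (Finset.prod_nonneg fun p _ => Nat.cast_nonneg p) ?_
  have h2 : ∏ p ∈ Ex2.prT s \ prS s, (1 : ℝ) ≤ ∏ p ∈ Ex2.prT s \ prS s, (p : ℝ) := by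
    refine Finset.prod_le_prod (fun _ _ => zero_le_one) fun p hp => ?_
    obtain ⟨_, hpp, _⟩ := Finset.mem_filter.mp (Finset.mem_sdiff.mp hp).1
    exact_mod_cast hpp.one_lt.le
  rwa [Finset.prod_const_one] at h2

end EPrime

namespace EBound

theorem exp_ge : (1.5525 : ℝ) ≤ Real.exp 0.44 := by
  have h := Real.sum_le_exp_of_nonneg (x := (0.44 : ℝ)) (by norm_num) 6
  refine le_trans ?_ h
  norm_num [Finset.sum_range_succ, Nat.factorial]

theorem numA : (1.01 : ℝ) * 4 ^ 10 * 9 ^ 9 ≤ 0.93 * (10 ^ 10 * Real.exp 0.44 * 28561) := by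
  have := exp_ge
  nlinarith

theorem numD : (1.01 : ℝ) * (1.01 ^ 10 * 2 ^ 11 * 10 ^ 10) ≤ 38000 * (Real.exp 0.44 * 9 ^ 9) := by
  have := exp_ge
  nlinarith

theorem ev1 : ∀ s : ℕ, 300 ≤ s → 8 * ((s : ℝ) + 1) * (10 * (s : ℝ) + 1) * 0.94 ^ s ≤ 1 := by
  intro s hs
  induction s, hs using Nat.le_induction with
  | base =>
    have h1 : (0.94 : ℝ) ^ 300 ≤ 1 / 10 ^ 8 := by
      have : (0.94 : ℝ) ^ 300 = ((0.94 : ℝ) ^ 50) ^ 6 := by rw [← pow_mul]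
      rw [this]
      have h2 : (0.94 : ℝ) ^ 50 ≤ 0.0454 := by norm_num
      calc ((0.94 : ℝ) ^ 50) ^ 6 ≤ 0.0454 ^ 6 := by gcongr
        _ ≤ 1 / 10 ^ 8 := by norm_num
    push_cast
    generalize (0.94 : ℝ) ^ 300 = x at h1 ⊢
    norm_num at h1 ⊢
    linarith
  | succ s hs ih =>
    have hs' : (300 : ℝ) ≤ s := by exact_mod_cast hs
    refine le_trans ?_ ih
    push_cast
    rw [pow_succ, ← mul_assoc]
    have h1 : 8 * ((s : ℝ) + 1 + 1) * (10 * ((s : ℝ) + 1) + 1) * 0.94 ≤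
        8 * ((s : ℝ) + 1) * (10 * (s : ℝ) + 1) := by nlinarith
    have h2 : (0 : ℝ) ≤ 0.94 ^ s := by positivity
    nlinarith [mul_le_mul_of_nonneg_right h1 h2]

theorem ev2base (a b : ℝ) (ha : 0 ≤ a) (hab : a ≤ b) (h1 : 2 * a ^ 145 ≤ b ^ 145) :
    8 * a ^ 500 ≤ b ^ 500 := by
  have h2 : (2 * a ^ 145) ^ 3 ≤ (b ^ 145) ^ 3 := pow_le_pow_left₀ (mul_nonneg (by norm_num) (pow_nonneg ha _)) h1 3
  have h3 : a ^ 65 ≤ b ^ 65 := pow_le_pow_left₀ ha hab 65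
  have e : ∀ x : ℝ, (x ^ 145) ^ 3 * x ^ 65 = x ^ 500 := fun x => by
    rw [← pow_mul, ← pow_add]
  calc 8 * a ^ 500 = (2 * a ^ 145) ^ 3 * a ^ 65 := by
        rw [mul_pow, ← e a]
        norm_num [mul_assoc]
    _ ≤ (b ^ 145) ^ 3 * b ^ 65 :=
        mul_le_mul h2 h3 (pow_nonneg ha _) (pow_nonneg (pow_nonneg (ha.trans hab) _) _)
    _ = b ^ 500 := e b

theorem ev2 : ∀ s : ℕ, 500 ≤ s → 8 * (1.005 : ℝ) ^ s ≤ 1.01 ^ s := by
  intro s hs
  induction s, hs using Nat.le_induction with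
  | base => exact ev2base _ _ (by norm_num) (by norm_num) (by norm_num)
  | succ s hs ih =>
    rw [pow_succ, pow_succ]
    have h2 : (0 : ℝ) ≤ 1.005 ^ s := by positivity
    nlinarith

/-- the numerator is small -/
theorem stepA {c P ch y : ℝ} {s : ℕ} (hc : 0 ≤ c) (hP : 0 ≤ P) (hy : 28561 ≤ y)
    (h1 : P * ch ≤ 4 * ((s : ℝ) + 1) * (1.01 : ℝ) ^ s * (4 * y) ^ (10 * s))
    (h2 : (10 : ℝ) ^ (10 * s) ≤ (10 * (s : ℝ) + 1) * (ch * 9 ^ (9 * s)))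
    (h3 : 8 * c * ((s : ℝ) + 1) * (10 * (s : ℝ) + 1) * 0.93 ^ s ≤ 1) :
    c * P ≤ 1 / 2 * (Real.exp 0.44 ^ s * y ^ (11 * s)) := by
  have hX : (0 : ℝ) < 10 ^ (10 * s) := by positivity
  have hy0 : 0 < y := by linarith
  have e1 : c * P * 10 ^ (10 * s) ≤ c * ((10 * (s : ℝ) + 1) * 9 ^ (9 * s)) *
      (4 * ((s : ℝ) + 1) * (1.01 : ℝ) ^ s * (4 * y) ^ (10 * s)) := by
    calc c * P * 10 ^ (10 * s) ≤ c * P * ((10 * (s : ℝ) + 1) * (ch * 9 ^ (9 * s))) :=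
          mul_le_mul_of_nonneg_left h2 (by positivity)
      _ = c * ((10 * (s : ℝ) + 1) * 9 ^ (9 * s)) * (P * ch) := by ring
      _ ≤ _ := mul_le_mul_of_nonneg_left h1 (by positivity)
  have e2 : c * ((10 * (s : ℝ) + 1) * 9 ^ (9 * s)) *
      (4 * ((s : ℝ) + 1) * (1.01 : ℝ) ^ s * (4 * y) ^ (10 * s))
      = 1 / 2 * (8 * c * ((s : ℝ) + 1) * (10 * (s : ℝ) + 1) *
        ((1.01 : ℝ) * 4 ^ 10 * 9 ^ 9) ^ s) * y ^ (10 * s) := by
    rw [mul_pow (4 : ℝ) y, mul_pow, mul_pow, ← pow_mul, ← pow_mul]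
    ring
  have e3 : ((1.01 : ℝ) * 4 ^ 10 * 9 ^ 9) ^ s ≤
      0.93 ^ s * (10 ^ 10 * Real.exp 0.44 * 28561) ^ s := by
    rw [← mul_pow]
    exact pow_le_pow_left₀ (by positivity) numA s
  have e4 : 8 * c * ((s : ℝ) + 1) * (10 * (s : ℝ) + 1) * ((1.01 : ℝ) * 4 ^ 10 * 9 ^ 9) ^ s ≤
      (10 ^ 10 * Real.exp 0.44 * 28561) ^ s := by
    calc 8 * c * ((s : ℝ) + 1) * (10 * (s : ℝ) + 1) * ((1.01 : ℝ) * 4 ^ 10 * 9 ^ 9) ^ s
        ≤ 8 * c * ((s : ℝ) + 1) * (10 * (s : ℝ) + 1) *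
          (0.93 ^ s * (10 ^ 10 * Real.exp 0.44 * 28561) ^ s) :=
          mul_le_mul_of_nonneg_left e3 (by positivity)
      _ = (8 * c * ((s : ℝ) + 1) * (10 * (s : ℝ) + 1) * 0.93 ^ s) *
          (10 ^ 10 * Real.exp 0.44 * 28561) ^ s := by ring
      _ ≤ 1 * (10 ^ 10 * Real.exp 0.44 * 28561) ^ s :=
          mul_le_mul_of_nonneg_right h3 (by positivity)
      _ = _ := one_mul _
  have e5 : (10 ^ 10 * Real.exp 0.44 * 28561) ^ s ≤
      10 ^ (10 * s) * (Real.exp 0.44 ^ s * y ^ s) := by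
    rw [mul_pow, mul_pow, ← pow_mul, mul_assoc]
    have : (28561 : ℝ) ^ s ≤ y ^ s := pow_le_pow_left₀ (by norm_num) hy s
    exact mul_le_mul_of_nonneg_left (mul_le_mul_of_nonneg_left this (by positivity)) hX.le
  have e6 : c * P * 10 ^ (10 * s) ≤
      (1 / 2 * (Real.exp 0.44 ^ s * y ^ (11 * s))) * 10 ^ (10 * s) := by
    refine e1.trans ?_
    rw [e2]
    calc 1 / 2 * (8 * c * ((s : ℝ) + 1) * (10 * (s : ℝ) + 1) *
        ((1.01 : ℝ) * 4 ^ 10 * 9 ^ 9) ^ s) * y ^ (10 * s)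
        ≤ 1 / 2 * (10 ^ (10 * s) * (Real.exp 0.44 ^ s * y ^ s)) * y ^ (10 * s) :=
          mul_le_mul_of_nonneg_right (mul_le_mul_of_nonneg_left (e4.trans e5) (by norm_num))
            (by positivity)
      _ = _ := by
        rw [show 11 * s = s + 10 * s by ring, pow_add]
        ring
  exact le_of_mul_le_mul_right e6 hX

/-- the second term is large -/
theorem stepB {b M Q ch y : ℝ} {s : ℕ} (hb : 0 < b) (hM : 0 ≤ M) (hy : 28561 ≤ y)
    (_hch : 0 ≤ ch)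
    (h1 : Q ≤ 2 * (1.01 : ℝ) ^ (10 * s) * 2 ^ (11 * s) * y ^ s * ch)
    (h2 : ch * 9 ^ (9 * s) ≤ (10 : ℝ) ^ (10 * s))
    (h3 : 4 * b ≤ 1.01 ^ s)
    (h4 : 1 / 2 * (Real.exp 0.44 ^ s * y ^ (11 * s)) ≤ b * M * Q) :
    (y ^ 10 / 38000) ^ s ≤ M := by
  have hy0 : 0 < y := by linarith
  have hE := Real.exp_pos (0.44 : ℝ)
  have e1 : 1 / 2 * (Real.exp 0.44 ^ s * y ^ (11 * s)) * 9 ^ (9 * s) ≤
      b * M * (2 * (1.01 : ℝ) ^ (10 * s) * 2 ^ (11 * s) * y ^ s * 10 ^ (10 * s)) := by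
    calc 1 / 2 * (Real.exp 0.44 ^ s * y ^ (11 * s)) * 9 ^ (9 * s)
        ≤ b * M * Q * 9 ^ (9 * s) := mul_le_mul_of_nonneg_right h4 (by positivity)
      _ ≤ b * M * (2 * (1.01 : ℝ) ^ (10 * s) * 2 ^ (11 * s) * y ^ s * ch) * 9 ^ (9 * s) :=
          mul_le_mul_of_nonneg_right (mul_le_mul_of_nonneg_left h1 (by positivity)) (by positivity)
      _ = b * M * (2 * (1.01 : ℝ) ^ (10 * s) * 2 ^ (11 * s) * y ^ s * (ch * 9 ^ (9 * s))) := by
          ring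
      _ ≤ _ := by
          refine mul_le_mul_of_nonneg_left ?_ (by positivity)
          exact mul_le_mul_of_nonneg_left h2 (by positivity)
  have e2 : (Real.exp 0.44 * 9 ^ 9) ^ s * y ^ (10 * s) ≤
      4 * b * M * (1.01 ^ 10 * 2 ^ 11 * 10 ^ 10) ^ s := by
    have h5 : (Real.exp 0.44 * 9 ^ 9) ^ s * y ^ (10 * s) * (1 / 2 * y ^ s) ≤
        4 * b * M * (1.01 ^ 10 * 2 ^ 11 * 10 ^ 10) ^ s * (1 / 2 * y ^ s) := by
      rw [mul_pow (Real.exp 0.44), mul_pow, mul_pow, ← pow_mul, ← pow_mul, ← pow_mul, ← pow_mul]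
      refine le_trans (le_of_eq ?_) (e1.trans (le_of_eq ?_))
      · rw [show 11 * s = s + 10 * s by ring, pow_add]; ring
      · ring
    exact le_of_mul_le_mul_right h5 (by positivity)
  have e3 : (1.01 : ℝ) ^ s * (1.01 ^ 10 * 2 ^ 11 * 10 ^ 10) ^ s ≤
      38000 ^ s * (Real.exp 0.44 * 9 ^ 9) ^ s := by
    rw [← mul_pow, ← mul_pow]
    exact pow_le_pow_left₀ (by positivity) numD s
  obtain ⟨G, hG⟩ : ∃ G : ℝ, G = (1.01 ^ 10 * 2 ^ 11 * 10 ^ 10) ^ s := ⟨_, rfl⟩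
  have hG0 : 0 < G := by rw [hG]; positivity
  rw [← hG] at e2 e3
  have e4 : 4 * b * y ^ (10 * s) * G ≤ 38000 ^ s * (4 * b * M * G) := by
    calc 4 * b * y ^ (10 * s) * G ≤ 1.01 ^ s * y ^ (10 * s) * G :=
          mul_le_mul_of_nonneg_right (mul_le_mul_of_nonneg_right h3 (by positivity)) hG0.le
      _ = (1.01 ^ s * G) * y ^ (10 * s) := by ring
      _ ≤ (38000 ^ s * (Real.exp 0.44 * 9 ^ 9) ^ s) * y ^ (10 * s) :=
          mul_le_mul_of_nonneg_right e3 (by positivity)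
      _ = 38000 ^ s * ((Real.exp 0.44 * 9 ^ 9) ^ s * y ^ (10 * s)) := by ring
      _ ≤ _ := mul_le_mul_of_nonneg_left e2 (by positivity)
  have e5 : y ^ (10 * s) ≤ 38000 ^ s * M := by
    have h6 : y ^ (10 * s) * (4 * b * G) ≤ 38000 ^ s * M * (4 * b * G) := by
      refine le_trans (le_of_eq ?_) (e4.trans (le_of_eq ?_)) <;> ring
    exact le_of_mul_le_mul_right h6 (by positivity)
  rw [div_pow, div_le_iff₀ (by positivity), ← pow_mul, mul_comm M]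
  exact e5

end EBound

theorem coreT : Ex2.CoreT :=
  Ex2.prfCoreT (prfCong vandAll miscAll padeAll) (prfNonV prfHcFac)
    (Ex2.prfContentT prfHcFac miscAll padeAll)

theorem boundE (x₀ : ℕ) (hT : PB x₀) (s : ℕ) (u : ℤ) (z : GaussianInt) (hs : 1000 ≤ s)
    (hx : x₀ ≤ s) (hu : 120 ≤ u) (hz : bet u ^ (11 * s + 1) ∣ z) (hre : z.re ≠ 0)
    (hlog : 201 * (1 + Real.log u + Real.log |(z.re : ℝ)|) ≤ s) :
    ((yy u : ℝ) ^ 10 / 38000) ^ s ≤ |(z.im : ℝ)| := by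
  have h3 := prfSizeP prfHcFac
  have h4 := prfSizeQ prfHcFac
  have h5 := prfBinom
  have huR : (120 : ℝ) ≤ u := by exact_mod_cast hu
  have hlu : 0 ≤ Real.log u := Real.log_nonneg (by linarith)
  have hc1 : (1 : ℝ) ≤ |(z.re : ℝ)| := by
    have := Int.one_le_abs hre
    exact_mod_cast this
  have hlc : 0 ≤ Real.log |(z.re : ℝ)| := Real.log_nonneg hc1
  have hdiv : 1 + Real.log u + Real.log |(z.re : ℝ)| ≤ (s : ℝ) / (201 : ℕ) := by
    rw [le_div_iff₀ (by norm_num)]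
    push_cast
    linarith
  have hexp := BoundX.exp_le (C := 201) (s := s) le_rfl
  have hcE : |(z.re : ℝ)| ≤ 1.005 ^ s := by
    refine le_trans ?_ hexp
    rw [← Real.exp_log (show 0 < |(z.re : ℝ)| by linarith)]
    exact Real.exp_le_exp.2 (by linarith)
  have huE : (u : ℝ) ≤ 1.005 ^ s := by
    refine le_trans ?_ hexp
    rw [← Real.exp_log (show 0 < (u : ℝ) by linarith)]
    exact Real.exp_le_exp.2 (by linarith)
  have hre16 : |z.re| < 2 ^ (4 * s) := by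
    have e1 : (1.005 : ℝ) ^ s < 16 ^ s := pow_lt_pow_left₀ (by norm_num) (by norm_num) (by omega)
    have e2 : ((|z.re| : ℤ) : ℝ) < 2 ^ (4 * s) := by
      rw [pow_mul]
      push_cast
      norm_num
      norm_num at hcE e1
      linarith
    exact_mod_cast e2
  have hcore := coreT s u z (by omega) hu hz hre hre16
  have hprod := hT s hx
  have hyZ : ((yy u : ℕ) : ℤ) = u ^ 2 + (u - 1) ^ 2 := by
    unfold yy
    rw [Int.natCast_natAbs, abs_of_nonneg (by positivity)]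
  have hy28 : (28561 : ℤ) ≤ (yy u : ℕ) := by rw [hyZ]; nlinarith
  have hy28R : (28561 : ℝ) ≤ (yy u : ℕ) := by exact_mod_cast hy28
  have hP := h3 s (yy u : ℕ) (by omega) hy28
  have hQ := h4 s (yy u : ℕ) (by omega) hy28
  obtain ⟨hb1, hb2⟩ := h5 s
  have hb1R : ((10 * s).choose s : ℝ) * 9 ^ (9 * s) ≤ 10 ^ (10 * s) := by exact_mod_cast hb1
  have hb2R : (10 : ℝ) ^ (10 * s) ≤ (10 * (s : ℝ) + 1) * (((10 * s).choose s : ℝ) * 9 ^ (9 * s)) := by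
    exact_mod_cast hb2
  have hA := EBound.stepA (c := |(z.re : ℝ)|) (s := s) (abs_nonneg _) (abs_nonneg _) hy28R
    (by simpa using hP) hb2R (by
      have e1 := EBound.ev1 s (by omega)
      have e2 : (1.005 : ℝ) ^ s * 0.93 ^ s ≤ 0.94 ^ s := by
        rw [← mul_pow]
        exact pow_le_pow_left₀ (by norm_num) (by norm_num) s
      calc 8 * |(z.re : ℝ)| * ((s : ℝ) + 1) * (10 * (s : ℝ) + 1) * 0.93 ^ s
          = 8 * ((s : ℝ) + 1) * (10 * (s : ℝ) + 1) * (|(z.re : ℝ)| * 0.93 ^ s) := by ring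
        _ ≤ 8 * ((s : ℝ) + 1) * (10 * (s : ℝ) + 1) * (1.005 ^ s * 0.93 ^ s) :=
            mul_le_mul_of_nonneg_left (mul_le_mul_of_nonneg_right hcE (by positivity))
              (by positivity)
        _ ≤ 8 * ((s : ℝ) + 1) * (10 * (s : ℝ) + 1) * 0.94 ^ s :=
            mul_le_mul_of_nonneg_left e2 (by positivity)
        _ ≤ 1 := e1)
  refine EBound.stepB (b := 2 * (u : ℝ) - 1) (Q := |(QQ (10 * s) s (yy u : ℕ) : ℝ)|)
    (ch := ((10 * s).choose s : ℝ)) (by linarith) (abs_nonneg _) hy28R (Nat.cast_nonneg _)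
    (by simpa using hQ) hb1R ?_ ?_
  · have e1 := EBound.ev2 s (by omega)
    have : 4 * (2 * (u : ℝ) - 1) ≤ 8 * u := by linarith
    linarith
  · -- the core inequality in reals
    have e1 : ((∏ p ∈ Ex2.prT s, p : ℕ) : ℝ) * ((yy u : ℕ) : ℝ) ^ (11 * s) ≤
        |(z.re : ℝ)| * |(PP (10 * s) s (yy u : ℕ) : ℝ)|
          + (2 * (u : ℝ) - 1) * |(z.im : ℝ)| * |(QQ (10 * s) s (yy u : ℕ) : ℝ)| := by
      have e2 : (((∏ p ∈ Ex2.prT s, p) * yy u ^ (11 * s) : ℕ) : ℝ) ≤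
          |((z.re * PP (10 * s) s (yy u) - (2 * u - 1) * z.im * QQ (10 * s) s (yy u) : ℤ) : ℝ)| := by
        rw [← Int.cast_abs, Int.abs_eq_natAbs]
        exact_mod_cast hcore
      push_cast at e2
      push_cast
      refine e2.trans ((abs_sub _ _).trans (le_of_eq ?_))
      rw [abs_mul, abs_mul, abs_mul, abs_of_pos (show 0 < 2 * (u : ℝ) - 1 by linarith)]
    have e3 : Real.exp (0.44 * s) = Real.exp 0.44 ^ s := by
      rw [mul_comm, Real.exp_nat_mul]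
    rw [e3] at hprod
    have e4 : Real.exp 0.44 ^ s * ((yy u : ℕ) : ℝ) ^ (11 * s) ≤
        ((∏ p ∈ Ex2.prT s, p : ℕ) : ℝ) * ((yy u : ℕ) : ℝ) ^ (11 * s) := by
      push_cast
      exact mul_le_mul_of_nonneg_right hprod (by positivity)
    linarith

end Pool.Agent.Work.MP_8d13b5_lc.Ex
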