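import Pool.Agent.Work.MP_8d13b5_lc.Ex.PartC

/-!
# MP_8d13b5_lc, module Ex, part D: the explicit theorems
-/

set_option autoImplicit false

open Finset Polynomial

namespace Pool.Agent.Work.MP_8d13b5_lc.Ex

open MainX in
/-- The main theorem with explicit constants. -/
theorem mainE (x₀ : ℕ) (hT : PB x₀) (m : ℕ) (u : ℤ) (z : GaussianInt) (hu : 120 ≤ u)
    (hz : bet u ^ m ∣ z) (hre : z.re ≠ 0)
    (hm : 11 * (x₀ : ℝ) + 12000 * (1 + Real.log u + Real.log |(z.re : ℝ)|) ≤ m) :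
    ((yy u : ℝ) ^ 10 / 40000) ^ m ≤ |(z.im : ℝ)| ^ 11 := by
  have hur : (120 : ℝ) ≤ u := by exact_mod_cast hu
  have hlu : 0 ≤ Real.log u := Real.log_nonneg (by linarith)
  have hlr : 0 ≤ Real.log |(z.re : ℝ)| := Real.log_nonneg (one_le_abs hre)
  set L : ℝ := 1 + Real.log u + Real.log |(z.re : ℝ)| with hL
  have hL1 : 1 ≤ L := by linarith
  have hx0 : (0 : ℝ) ≤ x₀ := Nat.cast_nonneg x₀
  set s : ℕ := (m - 1) / 11 with hs
  have hm1 : 1 ≤ m := by
    have h1 : (1 : ℝ) ≤ m := by linarith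
    exact_mod_cast h1
  have hs1 : 11 * s + 1 ≤ m := by omega
  have hs2 : m ≤ 11 * s + 11 := by omega
  have hs2r : (m : ℝ) ≤ 11 * s + 11 := by exact_mod_cast hs2
  have hsL : (x₀ : ℝ) + 1000 * L ≤ s := by linarith
  have hs0 : 1000 ≤ s := by
    have h1 : (1000 : ℝ) ≤ s := by linarith
    exact_mod_cast h1
  have hsx : x₀ ≤ s := by
    have h1 : (x₀ : ℝ) ≤ s := by linarith
    exact_mod_cast h1
  have hdiv : bet u ^ (11 * s + 1) ∣ z := (pow_dvd_pow _ hs1).trans hz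
  have hb := boundE x₀ hT s u z hs0 hsx hu hdiv hre (by
    change 201 * L ≤ s
    linarith)
  have hYr := yy_real u
  set Y : ℝ := (yy u : ℝ) with hYdef
  have hY1 : 14400 ≤ Y := by
    rw [hYr]
    nlinarith
  have hY0 : 0 < Y := by linarith
  have hY2 : Y ≤ 2 * (u : ℝ) ^ 2 := by
    rw [hYr]
    nlinarith
  have hlog : Real.log Y ≤ 1 + 2 * Real.log u := by
    have h1 : Real.log Y ≤ Real.log (2 * (u : ℝ) ^ 2) := Real.log_le_log hY0 hY2
    have h2 : Real.log (2 * (u : ℝ) ^ 2) = Real.log 2 + 2 * Real.log u := by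
      rw [Real.log_mul (by norm_num) (by positivity), Real.log_pow]
      norm_num
    have h3 : Real.log 2 ≤ 1 := by
      have := Real.log_two_lt_d9
      linarith
    linarith
  have hnum := num (s := s) hY0 hlog (by linarith)
  have hbase : 1 ≤ Y ^ 10 / 40000 := by
    rw [le_div_iff₀ (by norm_num)]
    calc (1 : ℝ) * 40000 ≤ 14400 ^ 10 := by norm_num
      _ ≤ Y ^ 10 := by gcongr
  have hsplit : (Y ^ 10 / 40000) ^ (11 * s) = (Y ^ 10 / 38000) ^ (11 * s) * (38 / 40) ^ (11 * s) := by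
    rw [← mul_pow]
    congr 1
    ring
  calc (Y ^ 10 / 40000) ^ m ≤ (Y ^ 10 / 40000) ^ (11 * s + 11) := pow_le_pow_right₀ hbase hs2
    _ = (Y ^ 10 / 38000) ^ (11 * s) * ((38 / 40) ^ (11 * s) * (Y ^ 10 / 40000) ^ 11) := by
        rw [pow_add, hsplit, mul_assoc]
    _ ≤ (Y ^ 10 / 38000) ^ (11 * s) * 1 := by gcongr
    _ = ((Y ^ 10 / 38000) ^ s) ^ 11 := by rw [mul_one, ← pow_mul, mul_comm]
    _ ≤ |(z.im : ℝ)| ^ 11 := by gcongr

namespace ERho

open RhoBoundX

theorem key (x₀ : ℕ) (hT : PB x₀) (n : ℕ) (w : GaussianInt)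
    (h0 : ((⟨3, -2⟩ : GaussianInt) ^ n * w).re ≠ 0)
    (hn : 44 * (x₀ : ℝ) + 300000 *
      (1 + Real.log |((((⟨3, -2⟩ : GaussianInt) ^ n * w).re : ℤ) : ℝ)|) ≤ n) :
    (2.24 : ℝ) ^ (2 * n) ≤ ((Zsqrtd.norm w : ℤ) : ℝ) := by
  set z : GaussianInt := (⟨3, -2⟩ : GaussianInt) ^ n * w with hz
  have hlog : 0 ≤ Real.log |((z.re : ℤ) : ℝ)| := by
    apply Real.log_nonneg
    have : (1 : ℤ) ≤ |z.re| := Int.one_le_abs h0
    exact_mod_cast this
  set a : ℝ := Real.log |((z.re : ℤ) : ℝ)| with ha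
  have hCnn : (0 : ℝ) ≤ x₀ := Nat.cast_nonneg x₀
  have hmr : (n : ℝ) = 4 * ((n / 4 : ℕ) : ℝ) + ((n % 4 : ℕ) : ℝ) := by
    have := Nat.div_add_mod n 4
    exact_mod_cast this.symm
  have hr3 : ((n % 4 : ℕ) : ℝ) ≤ 3 := by
    have : n % 4 ≤ 3 := by omega
    exact_mod_cast this
  have hm2 : (1000 : ℝ) ≤ ((n / 4 : ℕ) : ℝ) := by
    linarith
  have hm3 : 1000 ≤ n / 4 := by exact_mod_cast hm2
  have hl120 : Real.log ((120 : ℤ) : ℝ) ≤ 5 := by
    have h1 : ((120 : ℤ) : ℝ) = 120 := by norm_num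
    rw [h1, Real.log_le_iff_le_exp (by norm_num)]
    have h2 : (2.7182818283 : ℝ) < Real.exp 1 := Real.exp_one_gt_d9
    have h3 : Real.exp 5 = Real.exp 1 ^ 5 := by
      rw [← Real.exp_nat_mul]
      norm_num
    rw [h3]
    calc (120 : ℝ) ≤ 2.7 ^ 5 := by norm_num
      _ ≤ Real.exp 1 ^ 5 := by
        have : (2.7 : ℝ) ≤ Real.exp 1 := by linarith
        gcongr
  have hm4 : 11 * (x₀ : ℝ) + 12000 * (1 + Real.log ((120 : ℤ) : ℝ) + a) ≤ ((n / 4 : ℕ) : ℝ) := by
    have h5 : 12000 * (1 + Real.log ((120 : ℤ) : ℝ) + a) ≤ 12000 * (6 + a) := by linarith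
    refine (add_le_add le_rfl h5).trans ?_
    linarith
  have hmain := mainE x₀ hT (n / 4) 120 z le_rfl (bet_dvd n w) h0 hm4
  rw [yy120] at hmain
  have hnorm : (0 : ℝ) ≤ ((Zsqrtd.norm w : ℤ) : ℝ) := by
    have : 0 ≤ Zsqrtd.norm w := Zsqrtd.norm_nonneg (by norm_num) w
    exact_mod_cast this
  refine final (n / 4) (n % 4) n (by omega) (by omega) hm3 |((z.im : ℤ) : ℝ)| _ hnorm
    (abs_nonneg _) (by exact_mod_cast hmain) ?_
  rw [sq_abs]
  refine (im_sq_le z).trans (le_of_eq ?_)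
  rw [hz, norm_rho]
  push_cast
  ring

end ERho

/-- All zeros of all solutions of the recurrence of order five, with explicit constants. -/
theorem zerosE (x₀ : ℕ) (hT : PB x₀) (u : ℕ → ℤ) (hu : Rec5 u) (hu0 : u ≠ 0) (n : ℕ)
    (hn : u n = 0) : (n : ℝ) ≤ 44 * x₀ + 6400000 + 300000 * Real.log (sz u) := by
  obtain ⟨hX, hnorm, hC0, hall, hsz⟩ := prfDecomp u hu
  obtain ⟨hdiv, hgrow, hzero⟩ := prfXFacts (XX u) hX
  have hS : 1 ≤ sz u := by
    rcases Nat.eq_zero_or_pos (sz u) with h | h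
    · exact absurd (hsz h) hu0
    · exact h
  have hS' : (1 : ℝ) ≤ (sz u : ℝ) := by exact_mod_cast hS
  have hL : 0 ≤ Real.log (sz u) := Real.log_nonneg hS'
  have hx0 : (0 : ℝ) ≤ (x₀ : ℝ) := Nat.cast_nonneg x₀
  -- it is enough to have one of two bounds
  suffices hmain : (n : ℝ) ≤ 1 + 300 * (60 + 2 * Real.log (sz u)) ∨
      (n : ℝ) ≤ 1 + (44 * x₀ + 300000 * (21 + Real.log (sz u))) by
    rcases hmain with h | h
    · linarith
    · linarith
  have hN : ∀ k, (XX u k).norm ≤ 10 ^ 16 * (sz u : ℤ) ^ 2 * 65 ^ k := by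
    intro k
    refine (hgrow k).trans ?_
    refine mul_le_mul_of_nonneg_right ?_ (by positivity)
    linarith
  by_cases hn0 : n = 0
  · left
    rw [hn0]
    push_cast
    linarith
  obtain ⟨m, rfl⟩ := Nat.exists_eq_succ_of_ne_zero hn0
  rw [Nat.succ_eq_add_one] at *
  have hre : (XX u (m + 1)).re = -210 * C0 u := by
    simp only [XX, vv, hn]
    ring
  have hNm : (((XX u (m + 1)).norm : ℤ) : ℝ) ≤ 10 ^ 16 * (sz u : ℝ) ^ 2 * 65 ^ (m + 1) := by
    exact_mod_cast hN (m + 1)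
  by_cases hc : C0 u = 0
  · -- the real part vanishes
    have hre0 : (XX u (m + 1)).re = 0 := by rw [hre, hc, mul_zero]
    have hd := ZerosX.divim m _ (hdiv m) hre0
    by_cases him : (XX u (m + 1)).im = 0
    · have hXz : XX u (m + 1) = 0 := by
        ext
        · exact hre0
        · exact him
      rcases hzero (m + 1) hXz with h | h
      · left
        have h5 : (5 : ℤ) ^ (m + 1) ≤ 10 ^ 18 * (sz u : ℤ) ^ 2 := by
          have : (0 : ℤ) ≤ (sz u : ℤ) ^ 2 := by positivity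
          refine h.trans ?_
          linarith
        have h6 : (5 : ℝ) ^ (m + 1) ≤ 10 ^ 18 * (sz u : ℝ) ^ 2 := by exact_mod_cast h5
        have h7 := ZerosX.expo 5 (by norm_num) (ZerosX.log_one 5 (by norm_num)) (m + 1) (sz u) hS h6
        linarith
      · exfalso
        apply hu0
        funext k
        have h8 := hall h k
        rw [hc] at h8
        simp only [Pi.zero_apply]
        omega
    · left
      have h9 : (13 : ℤ) ^ m ≤ |(XX u (m + 1)).im| :=
        Int.le_of_dvd (abs_pos.mpr him) ((dvd_abs _ _).mpr hd)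
      have h10 : ((13 : ℤ) ^ m) ^ 2 ≤ (XX u (m + 1)).norm := by
        have h11 : (XX u (m + 1)).norm = |(XX u (m + 1)).im| ^ 2 := by
          rw [Zsqrtd.norm_def, hre0, sq_abs]
          ring
        rw [h11]
        exact pow_le_pow_left₀ (by positivity) h9 2
      have h12 : ((13 : ℝ) ^ m) ^ 2 ≤ (((XX u (m + 1)).norm : ℤ) : ℝ) := by exact_mod_cast h10
      have h13 : ((13 : ℝ) ^ m) ^ 2 = (13 / 5) ^ m * 65 ^ m := by
        rw [← mul_pow, ← pow_mul, mul_comm m 2, pow_mul]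
        norm_num
      have h14 : ((13 : ℝ) / 5) ^ m ≤ 10 ^ 18 * (sz u : ℝ) ^ 2 := by
        have h15 : ((13 : ℝ) / 5) ^ m * 65 ^ m ≤ (10 ^ 18 * (sz u : ℝ) ^ 2) * 65 ^ m := by
          rw [← h13]
          refine (h12.trans hNm).trans ?_
          rw [pow_succ (65 : ℝ) m]
          have : (0 : ℝ) ≤ (sz u : ℝ) ^ 2 * 65 ^ m := by positivity
          nlinarith
        exact le_of_mul_le_mul_right h15 (by positivity)
      have h16 := ZerosX.expo (13 / 5) (by norm_num) (ZerosX.log_one _ (by norm_num)) m (sz u) hS h14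
      push_cast
      linarith
  · -- the real part does not vanish
    have hre1 : (XX u (m + 1)).re ≠ 0 := by
      rw [hre]
      exact mul_ne_zero (by norm_num) hc
    obtain ⟨Y, hY⟩ := hdiv m
    have hR := ERho.key x₀ hT m Y
    rw [← hY] at hR
    have hR2 := hR hre1
    by_cases hlog : 44 * (x₀ : ℝ) + 300000 *
        (1 + Real.log |(((XX u (m + 1)).re : ℤ) : ℝ)|) ≤ m
    · left
      have h20 := hR2 hlog
      have h21 : (XX u (m + 1)).norm = 13 ^ m * Y.norm := by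
        rw [hY, Zsqrtd.norm_mul, ZerosX.norm_pow]
      have h22 : (13 : ℝ) ^ m * ((Y.norm : ℤ) : ℝ) = (((XX u (m + 1)).norm : ℤ) : ℝ) := by
        rw [h21]
        push_cast
        ring
      have h23 : (1.00352 : ℝ) ^ m * 65 ^ m = 13 ^ m * (2.24 : ℝ) ^ (2 * m) := by
        rw [pow_mul, ← mul_pow, ← mul_pow]
        norm_num
      have h24 : (1.00352 : ℝ) ^ m ≤ 10 ^ 18 * (sz u : ℝ) ^ 2 := by
        have h25 : (1.00352 : ℝ) ^ m * 65 ^ m ≤ (10 ^ 18 * (sz u : ℝ) ^ 2) * 65 ^ m := by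
          rw [h23]
          have h26 : (13 : ℝ) ^ m * (2.24 : ℝ) ^ (2 * m) ≤ 13 ^ m * ((Y.norm : ℤ) : ℝ) :=
            mul_le_mul_of_nonneg_left h20 (by positivity)
          rw [h22] at h26
          refine (h26.trans hNm).trans ?_
          rw [pow_succ (65 : ℝ) m]
          have : (0 : ℝ) ≤ (sz u : ℝ) ^ 2 * 65 ^ m := by positivity
          nlinarith
        exact le_of_mul_le_mul_right h25 (by positivity)
      have h27 := ZerosX.expo 1.00352 (by norm_num) (ZerosX.log_one _ (by norm_num)) m (sz u) hS h24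
      push_cast
      linarith
    · right
      have h30 : |(XX u (m + 1)).re| ≤ 2 ^ 20 * (sz u : ℤ) := by
        rw [hre, abs_mul]
        have : |(-210 : ℤ)| = 210 := by norm_num
        rw [this]
        have : (0 : ℤ) ≤ (sz u : ℤ) := by positivity
        linarith
      have h31 : |(((XX u (m + 1)).re : ℤ) : ℝ)| ≤ 2 ^ 20 * (sz u : ℝ) := by exact_mod_cast h30
      have h32 : 0 < |(((XX u (m + 1)).re : ℤ) : ℝ)| := abs_pos.mpr (by exact_mod_cast hre1)
      have h33 : Real.log |(((XX u (m + 1)).re : ℤ) : ℝ)| ≤ 20 + Real.log (sz u) := by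
        refine (Real.log_le_log h32 h31).trans ?_
        rw [Real.log_mul (by norm_num) (by positivity), Real.log_pow]
        have h4 : Real.log 2 ≤ 1 := by
          have := Real.log_two_lt_d9
          linarith
        push_cast
        linarith
      have h34 : (m : ℝ) ≤ 44 * (x₀ : ℝ) + 300000 *
          (1 + Real.log |(((XX u (m + 1)).re : ℤ) : ℝ)|) := (not_le.mp hlog).le
      push_cast
      linarith

end Pool.Agent.Work.MP_8d13b5_lc.Ex
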