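import Pool.Agent.Work.MP_8d13b5_lc.Ex.PartD

/-!
# MP_8d13b5_lc, module Ex, part E: the families of all orders, explicit constants
-/

set_option autoImplicit false

open Finset Polynomial

namespace Pool.Agent.Work.MP_8d13b5_lc.Ex

open FamTX in
/-- The family theorem with explicit constants. -/
theorem famE (x₀ : ℕ) (hTh : PB x₀) (ρ : GaussianInt) (T : ℕ) (u : ℤ) (R lam A : ℝ) (hT : 1 ≤ T)
    (hu : 120 ≤ u) (hass : Associated (ρ ^ T) (bet u) ∨ Associated (ρ ^ T) (star (bet u)))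
    (hR : 1 ≤ R) (hlam : 0 < lam) (hlam1 : lam ≤ 1)
    (hcond : 40000 ^ 2 * R ^ (22 * T) * Real.exp lam ≤ (yy u : ℝ) ^ 9) (hA : 1 ≤ A) (n : ℕ)
    (w : GaussianInt) (hw : ((w.norm : ℤ) : ℝ) ≤ (A * R ^ n) ^ 2) (hre : (ρ ^ n * w).re ≠ 0) :
    (n : ℝ) ≤ 11 * T * x₀ + T / lam * (12100 * (1 + Real.log u +
      Real.log |((ρ ^ n * w).re : ℝ)|) + 22 * Real.log A) := by
  have hy := yy_ge hu
  obtain ⟨y, hyy⟩ : ∃ y : ℝ, y = (yy u : ℝ) := ⟨_, rfl⟩
  rw [← hyy] at hy hcond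
  have hy0 : 0 < y := by linarith
  have hR0 : 0 < R := by linarith
  have hRT : 0 < R ^ (22 * T) := by positivity
  obtain ⟨q, hq⟩ : ∃ q : ℝ, q = y ^ 9 / (40000 ^ 2 * R ^ (22 * T)) := ⟨_, rfl⟩
  have hqe : Real.exp lam ≤ q := by
    rw [hq, le_div_iff₀ (by positivity)]
    linarith
  have hq0 : 0 < q := lt_of_lt_of_le (Real.exp_pos _) hqe
  have hlq : lam ≤ Real.log q := (Real.le_log_iff_exp_le hq0).2 hqe
  have hur : (120 : ℝ) ≤ u := by exact_mod_cast hu
  have hu0 : (0 : ℝ) ≤ Real.log u := Real.log_nonneg (by linarith)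
  have hT1 : (1 : ℝ) ≤ T := by exact_mod_cast hT
  have hA0 : 0 < A := by linarith
  have hlA : 0 ≤ Real.log A := Real.log_nonneg hA
  have hx0 : (0 : ℝ) ≤ x₀ := Nat.cast_nonneg x₀
  obtain ⟨z, hz⟩ : ∃ z : GaussianInt, z = ρ ^ n * w := ⟨_, rfl⟩
  rw [← hz] at hre ⊢
  have hre1 : (1 : ℝ) ≤ |(z.re : ℝ)| := by
    have : 1 ≤ |z.re| := Int.one_le_abs hre
    exact_mod_cast this
  have hlre : 0 ≤ Real.log |(z.re : ℝ)| := Real.log_nonneg hre1
  obtain ⟨m, hm⟩ : ∃ m : ℕ, m = n / T := ⟨_, rfl⟩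
  have hnm : n = T * m + n % T := by rw [hm]; exact (Nat.div_add_mod n T).symm
  have hr : n % T < T := Nat.mod_lt _ hT
  have hnρ : (ρ.norm : ℝ) ^ T = y := by
    rw [hyy]
    exact_mod_cast norm_T hass
  have hNρ : (1 : ℝ) ≤ (ρ.norm : ℝ) := by
    have h0 := GaussianInt.norm_nonneg ρ
    have h1 : ρ.norm ≠ 0 := by
      intro h
      rw [h] at hnρ
      push_cast at hnρ
      rw [zero_pow (by omega)] at hnρ
      linarith
    have h2 : 1 ≤ ρ.norm := by omega
    exact_mod_cast h2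
  -- divisibility
  have hdiv : bet u ^ m ∣ z ∨ bet u ^ m ∣ star z := by
    have h1 : (ρ ^ T) ^ m ∣ z := by
      have h2 : ρ ^ n = (ρ ^ T) ^ m * ρ ^ (n % T) := by
        rw [← pow_mul, ← pow_add, ← hnm]
      rw [hz, h2, mul_assoc]
      exact Dvd.intro _ rfl
    rcases hass with h | h
    · left
      exact (h.pow_pow (n := m)).symm.dvd.trans h1
    · right
      have h2 : star (bet u) ^ m ∣ z := (h.pow_pow (n := m)).symm.dvd.trans h1
      obtain ⟨t, ht⟩ := h2
      refine ⟨star t, ?_⟩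
      rw [ht, star_mul', star_pow, star_star]
  -- the main inequality
  have hmain : 11 * (x₀ : ℝ) + 12000 * (1 + Real.log u + Real.log |(z.re : ℝ)|) ≤ m →
      (y ^ 10 / 40000) ^ m ≤ |(z.im : ℝ)| ^ 11 := by
    intro h
    rcases hdiv with h1 | h1
    · rw [hyy]
      exact mainE x₀ hTh m u z hu h1 hre h
    · rw [hyy]
      have h2 := mainE x₀ hTh m u (star z) hu h1 (by rw [Zsqrtd.re_star]; exact hre)
        (by rw [Zsqrtd.re_star]; exact h)
      rw [Zsqrtd.im_star] at h2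
      push_cast at h2
      rwa [abs_neg] at h2
  have hnz : ((z.im : ℝ)) ^ 2 ≤ (ρ.norm : ℝ) ^ n * (A * R ^ n) ^ 2 := by
    have h1 : z.norm = ρ.norm ^ n * w.norm := by rw [hz, Zsqrtd.norm_mul, norm_pow']
    have h2 : (z.norm : ℝ) = (z.re : ℝ) ^ 2 + (z.im : ℝ) ^ 2 := by
      rw [norm_eq]
      push_cast
      ring
    have h3 : (z.norm : ℝ) = (ρ.norm : ℝ) ^ n * (w.norm : ℝ) := by
      rw [h1]
      push_cast
      ring
    have h4 : (ρ.norm : ℝ) ^ n * (w.norm : ℝ) ≤ (ρ.norm : ℝ) ^ n * (A * R ^ n) ^ 2 :=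
      mul_le_mul_of_nonneg_left hw (by positivity)
    nlinarith [sq_nonneg (z.re : ℝ)]
  have hcomb : 11 * (x₀ : ℝ) + 12000 * (1 + Real.log u + Real.log |(z.re : ℝ)|) ≤ m →
      q ^ m ≤ y ^ 11 * A ^ 22 * R ^ (22 * T) := by
    intro h
    have h1 := hmain h
    have h2 : ((y ^ 10 / 40000) ^ m) ^ 2 ≤ ((ρ.norm : ℝ) ^ n * (A * R ^ n) ^ 2) ^ 11 := by
      calc ((y ^ 10 / 40000) ^ m) ^ 2 ≤ (|(z.im : ℝ)| ^ 11) ^ 2 :=
            pow_le_pow_left₀ (by positivity) h1 2
        _ = ((z.im : ℝ) ^ 2) ^ 11 := by rw [← sq_abs (z.im : ℝ)]; ring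
        _ ≤ _ := pow_le_pow_left₀ (by positivity) hnz 11
    exact comb hNρ hy0 hA0 hR hnρ hnm hr hq rfl h2
  have hRy : R ^ (22 * T) ≤ y ^ 9 := by
    refine le_trans ?_ hcond
    have h1 : (1 : ℝ) ≤ 40000 ^ 2 * Real.exp lam := by
      have := Real.one_le_exp hlam.le
      nlinarith
    calc R ^ (22 * T) ≤ R ^ (22 * T) * (40000 ^ 2 * Real.exp lam) :=
          le_mul_of_one_le_right hRT.le h1
      _ = _ := by ring
  have hly : Real.log y ≤ 1 + 2 * Real.log u := by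
    have h0 : y ≤ 2 * (u : ℝ) ^ 2 := by
      rw [hyy, MainX.yy_real]
      nlinarith
    have h1 : Real.log y ≤ Real.log (2 * (u : ℝ) ^ 2) := Real.log_le_log hy0 h0
    have h2 : Real.log (2 * (u : ℝ) ^ 2) = Real.log 2 + 2 * Real.log u := by
      rw [Real.log_mul (by norm_num) (by positivity), Real.log_pow]
      norm_num
    have h3 : Real.log 2 ≤ 1 := by
      have := Real.log_two_lt_d9
      linarith
    linarith
  have hmle : (m : ℝ) ≤ 11 * (x₀ : ℝ) + 12000 * (1 + Real.log u + Real.log |(z.re : ℝ)|) +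
      (20 * (1 + 2 * Real.log u) + 22 * Real.log A) / lam := by
    by_cases h : 11 * (x₀ : ℝ) + 12000 * (1 + Real.log u + Real.log |(z.re : ℝ)|) ≤ m
    · have h1 := hcomb h
      have h2 : q ^ m ≤ y ^ 20 * A ^ 22 := by
        refine h1.trans ?_
        calc y ^ 11 * A ^ 22 * R ^ (22 * T) ≤ y ^ 11 * A ^ 22 * y ^ 9 :=
              mul_le_mul_of_nonneg_left hRy (by positivity)
          _ = y ^ 20 * A ^ 22 := by ring
      have h3 := Real.log_le_log (by positivity) h2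
      rw [Real.log_pow, Real.log_mul (by positivity) (by positivity), Real.log_pow, Real.log_pow] at h3
      push_cast at h3
      have h4 : (m : ℝ) * lam ≤ m * Real.log q := mul_le_mul_of_nonneg_left hlq (Nat.cast_nonneg m)
      have h5 : (m : ℝ) ≤ (20 * (1 + 2 * Real.log u) + 22 * Real.log A) / lam := by
        rw [le_div_iff₀ hlam]
        linarith
      have h6 : 0 ≤ 11 * (x₀ : ℝ) + 12000 * (1 + Real.log u + Real.log |(z.re : ℝ)|) := by positivity
      linarith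
    · push Not at h
      have h6 : 0 ≤ (20 * (1 + 2 * Real.log u) + 22 * Real.log A) / lam := by positivity
      linarith
  have hn : (n : ℝ) ≤ T * ((m : ℝ) + 1) := by
    have : n ≤ T * (m + 1) := by
      rw [mul_add, mul_one]
      omega
    exact_mod_cast this
  obtain ⟨L, hL⟩ : ∃ L : ℝ, L = 1 + Real.log u + Real.log |(z.re : ℝ)| := ⟨_, rfl⟩
  rw [← hL] at hmle ⊢
  have hL1 : 1 + Real.log u ≤ L := by linarith
  have hTl : (T : ℝ) ≤ T / lam := by
    rw [le_div_iff₀ hlam]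
    nlinarith
  have h7 : T * ((m : ℝ) + 1) ≤ T * (11 * (x₀ : ℝ)) + (T * (12000 * L + 1) +
      T / lam * (20 * (1 + 2 * Real.log u) + 22 * Real.log A)) := by
    have h8 : T / lam * (20 * (1 + 2 * Real.log u) + 22 * Real.log A) =
        T * ((20 * (1 + 2 * Real.log u) + 22 * Real.log A) / lam) := by ring
    rw [h8, ← mul_add, ← mul_add]
    refine mul_le_mul_of_nonneg_left ?_ (by linarith)
    linarith
  have h9 : T * (12000 * L + 1) ≤ T / lam * (12000 * L + 1) :=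
    mul_le_mul_of_nonneg_right hTl (by linarith)
  have h10 : T / lam * (12000 * L + 1) + T / lam * (20 * (1 + 2 * Real.log u) + 22 * Real.log A) ≤
      T / lam * (12100 * L + 22 * Real.log A) := by
    rw [← mul_add]
    refine mul_le_mul_of_nonneg_left ?_ (by linarith)
    linarith
  linarith

namespace EGrowth

open Pool.Agent.Work.MP_8d13b5_lc.Pd

/-- Growth of linear recurrence sequences, roots at most `R` in absolute value. -/
theorem grow {R : ℝ} (hR : 1 ≤ R) (l : Multiset ℂ) (hl : ∀ z ∈ l, ‖z‖ ≤ R) :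
    ∀ (s : ℕ → ℂ) (U : ℝ),
      aeval (shf ℂ) (l.map (fun z => X - C z)).prod s = 0 → 0 ≤ U →
      (∀ i < l.card, ‖s i‖ ≤ U) → ∀ n : ℕ, ‖s n‖ ≤ U * (1 + 2 * (n : ℝ)) ^ l.card * R ^ n := by
  induction l using Multiset.induction_on with
  | empty =>
    intro s U hs hU _ n
    rw [Multiset.map_zero, Multiset.prod_zero, map_one, Module.End.one_apply] at hs
    rw [hs, Pi.zero_apply, norm_zero]
    positivity
  | cons z l ih =>
    have ih0 := ih (fun w hw => hl w (Multiset.mem_cons_of_mem hw))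
    have hz : ‖z‖ ≤ R := hl z (Multiset.mem_cons_self z l)
    intro s U hs hU hs0 n
    rw [Multiset.map_cons, Multiset.prod_cons, mul_comm, map_mul, Module.End.mul_apply] at hs
    obtain ⟨s', hs'⟩ : ∃ s', s' = aeval (shf ℂ) (X - C z) s := ⟨_, rfl⟩
    rw [← hs'] at hs
    have hs'n : ∀ n, s' n = s (n + 1) - z * s n := by
      intro n
      rw [hs', map_sub, aeval_X, aeval_C, LinearMap.sub_apply, Pi.sub_apply,
        Module.algebraMap_end_apply, Pi.smul_apply, smul_eq_mul]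
      rfl
    rw [Multiset.card_cons] at hs0 ⊢
    have hs'0 : ∀ i < l.card, ‖s' i‖ ≤ (1 + R) * U := by
      intro i hi
      rw [hs'n]
      refine (norm_sub_le _ _).trans ?_
      rw [norm_mul]
      have h1 := hs0 (i + 1) (by omega)
      have h2 := hs0 i (by omega)
      have h3 : ‖z‖ * ‖s i‖ ≤ R * U := mul_le_mul hz h2 (norm_nonneg _) (by linarith)
      linarith
    have ih' := ih0 s' ((1 + R) * U) hs (by positivity) hs'0
    induction n with
    | zero =>
      have h1 := hs0 0 (by omega)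
      simpa using h1
    | succ n ihn =>
      have h1 : s (n + 1) = s' n + z * s n := by rw [hs'n]; ring
      rw [h1]
      refine (norm_add_le _ _).trans ?_
      rw [norm_mul]
      have h2 := ih' n
      have h3 : ‖z‖ * ‖s n‖ ≤ R * (U * (1 + 2 * (n : ℝ)) ^ (l.card + 1) * R ^ n) :=
        mul_le_mul hz ihn (norm_nonneg _) (by linarith)
      have hR0 : 0 < R := by linarith
      have h4 : (1 + R) * U * (1 + 2 * (n : ℝ)) ^ l.card * R ^ n ≤
          2 * R * U * (1 + 2 * (n : ℝ)) ^ l.card * R ^ n := by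
        have : (0 : ℝ) ≤ U * (1 + 2 * (n : ℝ)) ^ l.card * R ^ n := by positivity
        nlinarith
      have h5 : 2 * R * U * (1 + 2 * (n : ℝ)) ^ l.card * R ^ n +
          R * (U * (1 + 2 * (n : ℝ)) ^ (l.card + 1) * R ^ n) =
          U * R ^ (n + 1) * ((1 + 2 * (n : ℝ)) ^ l.card * (3 + 2 * n)) := by
        rw [pow_succ, pow_succ]
        ring
      have h6 : (1 + 2 * (n : ℝ)) ^ l.card * (3 + 2 * n) ≤ (3 + 2 * (n : ℝ)) ^ (l.card + 1) := by
        rw [pow_succ]
        refine mul_le_mul_of_nonneg_right ?_ (by positivity)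
        exact pow_le_pow_left₀ (by positivity) (by linarith) _
      have h7 : U * R ^ (n + 1) * ((1 + 2 * (n : ℝ)) ^ l.card * (3 + 2 * n)) ≤
          U * R ^ (n + 1) * (3 + 2 * (n : ℝ)) ^ (l.card + 1) :=
        mul_le_mul_of_nonneg_left h6 (by positivity)
      have e : (1 + 2 * ((n + 1 : ℕ) : ℝ)) = 3 + 2 * (n : ℝ) := by push_cast; ring
      rw [e]
      have h8 : U * (3 + 2 * (n : ℝ)) ^ (l.card + 1) * R ^ (n + 1) =
          U * R ^ (n + 1) * (3 + 2 * (n : ℝ)) ^ (l.card + 1) := by ring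
      rw [h8]
      linarith

theorem grow' (h : ℂ[X]) (R : ℝ) (hm : h.Monic) (hR : 1 ≤ R)
    (hroots : ∀ z : ℂ, h.eval z = 0 → ‖z‖ ≤ R) (s : ℕ → ℂ) (U : ℝ) (hs : RecP h s) (hU : 0 ≤ U)
    (hs0 : ∀ i < h.natDegree, ‖s i‖ ≤ U) (n : ℕ) :
    ‖s n‖ ≤ U * (1 + 2 * (n : ℝ)) ^ h.natDegree * R ^ n := by
  have hspl : h.Splits := IsAlgClosed.splits _
  have hcard : h.roots.card = h.natDegree := by
    rw [← hspl.natDegree_eq_card_roots]
  have hprod : (h.roots.map (fun z => X - C z)).prod = h := by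
    have := hspl.eq_prod_roots
    rw [hm.leadingCoeff, C_1, one_mul] at this
    exact this.symm
  have hc := grow hR h.roots (fun z hz => hroots z (isRoot_of_mem_roots hz)) s U (by
    rw [hprod]
    exact (sol_iff _ _).1 hs) hU (by
    rw [hcard]
    exact hs0) n
  rwa [hcard] at hc

end EGrowth

/-- `log (1 + 2 n) ≤ 2 n ε + log (1 / ε)` -/
theorem log_small (n : ℕ) (ε : ℝ) (h0 : 0 < ε) (h1 : ε ≤ 1) :
    Real.log (1 + 2 * (n : ℝ)) ≤ 2 * n * ε + Real.log (1 / ε) := by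
  have hn : (0 : ℝ) ≤ n := Nat.cast_nonneg n
  have h2 : 1 + 2 * (n : ℝ) ≤ (1 + 2 * n * ε) * (1 / ε) := by
    rw [mul_one_div, le_div_iff₀ h0]
    nlinarith
  have h3 : Real.log (1 + 2 * (n : ℝ)) ≤ Real.log ((1 + 2 * n * ε) * (1 / ε)) :=
    Real.log_le_log (by positivity) h2
  rw [Real.log_mul (by positivity) (by positivity)] at h3
  have h4 := Real.log_le_sub_one_of_pos (show 0 < 1 + 2 * (n : ℝ) * ε by positivity)
  linarith

/-- The Skolem problem for the families, with explicit constants. -/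
theorem lrsE (x₀ : ℕ) (hTh : PB x₀) (ρ : GaussianInt) (T : ℕ) (u : ℤ) (R lam : ℝ) (hT : 1 ≤ T)
    (hu : 120 ≤ u) (hass : Associated (ρ ^ T) (bet u) ∨ Associated (ρ ^ T) (star (bet u)))
    (hR : 1 ≤ R) (hlam : 0 < lam) (hlam1 : lam ≤ 1)
    (hcond : 40000 ^ 2 * R ^ (22 * T) * Real.exp lam ≤ (yy u : ℝ) ^ 9)
    (h : GaussianInt[X]) (hmon : h.Monic) (hdeg : 1 ≤ h.natDegree)
    (hroots : ∀ z : ℂ, (h.map GaussianInt.toComplex).eval z = 0 → ‖z‖ ≤ R)
    (W : ℕ → GaussianInt) (hW : RecP h W) (U : ℝ) (hU : 1 ≤ U)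
    (hWU : ∀ i < h.natDegree, (((W i).norm : ℤ) : ℝ) ≤ U ^ 2) (c : ℤ) (hc : c ≠ 0) (n : ℕ)
    (hn : c + (ρ ^ n * W n).re = 0) :
    (n : ℝ) ≤ 22 * T * x₀ + T / lam * (24200 * (1 + Real.log u + Real.log |(c : ℝ)|) +
      44 * Real.log U + 44 * h.natDegree * Real.log (88 * h.natDegree * T / lam)) := by
  have hT1 : (1 : ℝ) ≤ T := by exact_mod_cast hT
  have hd1 : (1 : ℝ) ≤ h.natDegree := by exact_mod_cast hdeg
  have hre : (ρ ^ n * W n).re = -c := by omega
  have hre0 : (ρ ^ n * W n).re ≠ 0 := by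
    rw [hre]
    exact neg_ne_zero.2 hc
  have hgr : ‖GaussianInt.toComplex (W n)‖ ≤ U * (1 + 2 * (n : ℝ)) ^ h.natDegree * R ^ n := by
    have h1 := EGrowth.grow' (h.map GaussianInt.toComplex) R (hmon.map _) hR hroots
      (fun n => GaussianInt.toComplex (W n)) U (LrsFamX.recP_toComplex hmon hW) (by linarith) (by
        intro i hi
        rw [hmon.natDegree_map] at hi
        rw [← LrsFamX.normSq_le (by linarith)]
        exact hWU i hi) n
    rwa [hmon.natDegree_map] at h1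
  have hn0 : (0 : ℝ) ≤ n := Nat.cast_nonneg n
  have hA : (1 : ℝ) ≤ U * (1 + 2 * (n : ℝ)) ^ h.natDegree :=
    one_le_mul_of_one_le_of_one_le hU (one_le_pow₀ (by linarith))
  have hfam := famE x₀ hTh ρ T u R lam (U * (1 + 2 * (n : ℝ)) ^ h.natDegree) hT hu hass hR hlam
    hlam1 hcond hA n (W n) (by
      rw [LrsFamX.normSq_le (by positivity)]
      exact hgr) hre0
  rw [hre] at hfam
  have e1 : |(((-c : ℤ)) : ℝ)| = |(c : ℝ)| := by
    push_cast
    exact abs_neg _
  rw [e1, Real.log_mul (by positivity) (by positivity), Real.log_pow] at hfam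
  obtain ⟨ε, hε⟩ : ∃ ε : ℝ, ε = lam / (88 * h.natDegree * T) := ⟨_, rfl⟩
  have hdT : (1 : ℝ) ≤ h.natDegree * T := one_le_mul_of_one_le_of_one_le hd1 hT1
  have hden : (0 : ℝ) < 88 * h.natDegree * T := by positivity
  have hε0 : 0 < ε := by rw [hε]; positivity
  have hε1 : ε ≤ 1 := by
    rw [hε, div_le_one hden]
    nlinarith
  have hlog := log_small n ε hε0 hε1
  have hinv : 1 / ε = 88 * h.natDegree * T / lam := by
    rw [hε, one_div_div]
  rw [hinv] at hlog
  obtain ⟨Λ, hΛ⟩ : ∃ Λ : ℝ, Λ = Real.log (88 * h.natDegree * T / lam) := ⟨_, rfl⟩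
  rw [← hΛ] at hlog ⊢
  have h1 : T / lam * (22 * (h.natDegree * (2 * n * ε))) = (n : ℝ) / 2 := by
    rw [hε]
    field_simp
    ring
  have h2 : T / lam * (22 * (h.natDegree * Real.log (1 + 2 * (n : ℝ)))) ≤
      T / lam * (22 * (h.natDegree * (2 * n * ε + Λ))) := by
    refine mul_le_mul_of_nonneg_left ?_ (by positivity)
    refine mul_le_mul_of_nonneg_left ?_ (by norm_num)
    exact mul_le_mul_of_nonneg_left hlog (by linarith)
  have h3 : T / lam * (22 * (h.natDegree * (2 * n * ε + Λ))) =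
      (n : ℝ) / 2 + T / lam * (22 * (h.natDegree * Λ)) := by
    rw [← h1]
    ring
  have h4 : T / lam * (12100 * (1 + Real.log u + Real.log |(c : ℝ)|) +
      22 * (Real.log U + h.natDegree * Real.log (1 + 2 * (n : ℝ)))) =
      T / lam * (12100 * (1 + Real.log u + Real.log |(c : ℝ)|) + 22 * Real.log U) +
      T / lam * (22 * (h.natDegree * Real.log (1 + 2 * (n : ℝ)))) := by ring
  rw [h4] at hfam
  have h5 : T / lam * (24200 * (1 + Real.log u + Real.log |(c : ℝ)|) +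
      44 * Real.log U + 44 * h.natDegree * Λ) =
      2 * (T / lam * (12100 * (1 + Real.log u + Real.log |(c : ℝ)|) + 22 * Real.log U)) +
      2 * (T / lam * (22 * (h.natDegree * Λ))) := by ring
  rw [h5]
  linarith

end Pool.Agent.Work.MP_8d13b5_lc.Ex
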